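import Mathlib

/-!
# Module Aver: from many good frames to one set with many good extensions

`g h = #{y : Fin s × Fin k : update h π₀ y is good}` (good: injective indices and `Pr`). `∑_h g h = (s k) #good` (`(h, y) ↦ (update h π₀ y, h π₀)` is a bijection of the pairs, i.e. every good `h'` is `update h π₀ (h' π₀)` for exactly the `s k` functions `h` which agree with `h'` outside `π₀`).
So some `h` has `C g h ≥ s k` (otherwise `C (s k) #good = C ∑ g < (s k)^(q+1)`; `s k ≥ 1`). `J₀ = image of the indices of h over W \ {π₀}`, `I = {i : ∃ a, update h π₀ (i, a) good}`. For `i ∈ I`: `univ.image = insert i J₀`, injectivity gives `i ∉ J₀`, `|J₀| + 1 = |W|`. `g h ≤ k |I|`, so `s k ≤ C k |I|`.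
-/

set_option autoImplicit false

namespace Pool.Agent.H10.HM

open Finset

open Classical in
theorem aver {s k : ℕ} (hs : 1 ≤ s) (hk : 1 ≤ k) {W : Type} [Fintype W] [DecidableEq W] (π₀ : W)
    (Pr : Finset (Fin s) → Prop) {C : ℕ}
    (h : (s * k) ^ Fintype.card W ≤ C * ((univ : Finset (W → Fin s × Fin k)).filter fun h =>
      Function.Injective (fun π => (h π).1) ∧ Pr (univ.image fun π => (h π).1)).card) :
    ∃ J₀ I : Finset (Fin s), J₀.card + 1 = Fintype.card W ∧ (∀ i ∈ I, i ∉ J₀ ∧ Pr (insert i J₀)) ∧ s ≤ C * I.card := by
  set Good : (W → Fin s × Fin k) → Prop := fun h =>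
    Function.Injective (fun π => (h π).1) ∧ Pr (univ.image fun π => (h π).1) with hGood
  have h' : (s * k) ^ Fintype.card W ≤ C * ((univ : Finset (W → Fin s × Fin k)).filter Good).card := h
  have hX : Fintype.card (Fin s × Fin k) = s * k := by simp
  haveI : NeZero s := ⟨by omega⟩
  haveI : NeZero k := ⟨by omega⟩
  have hsk : 1 ≤ s * k := Nat.mul_pos hs hk
  -- the double count
  have hcount : ∑ h : W → Fin s × Fin k,
      ((univ : Finset (Fin s × Fin k)).filter fun y => Good (Function.update h π₀ y)).card =
      (s * k) * ((univ : Finset (W → Fin s × Fin k)).filter Good).card := by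
    have e1 : ∑ h : W → Fin s × Fin k,
        ((univ : Finset (Fin s × Fin k)).filter fun y => Good (Function.update h π₀ y)).card =
        ((univ : Finset ((W → Fin s × Fin k) × (Fin s × Fin k))).filter
          fun q => Good (Function.update q.1 π₀ q.2)).card := by
      rw [Finset.card_filter, Fintype.sum_prod_type]
      refine Finset.sum_congr rfl fun h _ => ?_
      rw [Finset.card_filter]
    have e2 : ((univ : Finset ((W → Fin s × Fin k) × (Fin s × Fin k))).filter
          fun q => Good (Function.update q.1 π₀ q.2)).card =
        (((univ : Finset (W → Fin s × Fin k)).filter Good) ×ˢ (univ : Finset (Fin s × Fin k))).card := by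
      refine Finset.card_bij' (fun q _ => (Function.update q.1 π₀ q.2, q.1 π₀))
        (fun q _ => (Function.update q.1 π₀ q.2, q.1 π₀)) ?_ ?_ ?_ ?_
      · intro q hq
        rw [Finset.mem_filter] at hq
        rw [Finset.mem_product, Finset.mem_filter]
        exact ⟨⟨Finset.mem_univ _, hq.2⟩, Finset.mem_univ _⟩
      · intro q hq
        rw [Finset.mem_product, Finset.mem_filter] at hq
        rw [Finset.mem_filter]
        refine ⟨Finset.mem_univ _, ?_⟩
        show Good (Function.update (Function.update q.1 π₀ q.2) π₀ (q.1 π₀))
        rw [Function.update_idem, Function.update_eq_self]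
        exact hq.1.2
      · intro q _
        refine Prod.ext ?_ ?_
        · show Function.update (Function.update q.1 π₀ q.2) π₀ (q.1 π₀) = q.1
          rw [Function.update_idem, Function.update_eq_self]
        · show Function.update q.1 π₀ q.2 π₀ = q.2
          rw [Function.update_self]
      · intro q _
        refine Prod.ext ?_ ?_
        · show Function.update (Function.update q.1 π₀ q.2) π₀ (q.1 π₀) = q.1
          rw [Function.update_idem, Function.update_eq_self]
        · show Function.update q.1 π₀ q.2 π₀ = q.2
          rw [Function.update_self]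
    rw [e1, e2, Finset.card_product, Finset.card_univ, hX, Nat.mul_comm]
  obtain ⟨h0, hh0⟩ : ∃ h0 : W → Fin s × Fin k,
      s * k ≤ C * ((univ : Finset (Fin s × Fin k)).filter fun y => Good (Function.update h0 π₀ y)).card := by
    by_contra hno
    push Not at hno
    have h1 : ∑ h : W → Fin s × Fin k,
        C * ((univ : Finset (Fin s × Fin k)).filter fun y => Good (Function.update h π₀ y)).card <
        ∑ _h : W → Fin s × Fin k, s * k := by
      refine Finset.sum_lt_sum_of_nonempty ⟨fun _ => (0, 0), Finset.mem_univ _⟩ fun h _ => hno h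
    rw [← Finset.mul_sum, hcount, Finset.sum_const, Finset.card_univ, smul_eq_mul, Fintype.card_fun, hX] at h1
    have h2 : (s * k) ^ Fintype.card W * (s * k) ≤
        C * ((univ : Finset (W → Fin s × Fin k)).filter Good).card * (s * k) := Nat.mul_le_mul_right _ h'
    have h3 : C * (s * k * ((univ : Finset (W → Fin s × Fin k)).filter Good).card) =
        C * ((univ : Finset (W → Fin s × Fin k)).filter Good).card * (s * k) := by ring
    omega
  have himg : ∀ y, (univ.image fun π => (Function.update h0 π₀ y π).1) =
      insert y.1 ((univ.erase π₀).image fun π => (h0 π).1) := by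
    intro y
    ext i
    rw [Finset.mem_image, Finset.mem_insert, Finset.mem_image]
    constructor
    · rintro ⟨π, _, rfl⟩
      by_cases hπ : π = π₀
      · left
        rw [hπ, Function.update_self]
      · right
        refine ⟨π, Finset.mem_erase.2 ⟨hπ, Finset.mem_univ _⟩, ?_⟩
        rw [Function.update_of_ne hπ]
    · rintro (rfl | ⟨π, hπ, rfl⟩)
      · exact ⟨π₀, Finset.mem_univ _, by rw [Function.update_self]⟩
      · refine ⟨π, Finset.mem_univ _, ?_⟩
        rw [Function.update_of_ne (Finset.ne_of_mem_erase hπ)]
  have hnot : ∀ y, Good (Function.update h0 π₀ y) → y.1 ∉ (univ.erase π₀).image fun π => (h0 π).1 := by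
    intro y hy hmem
    rw [Finset.mem_image] at hmem
    obtain ⟨π, hπ, hπ'⟩ := hmem
    have hne := Finset.ne_of_mem_erase hπ
    apply hne
    apply hy.1
    show (Function.update h0 π₀ y π).1 = (Function.update h0 π₀ y π₀).1
    rw [Function.update_of_ne hne, Function.update_self]
    exact hπ'
  refine ⟨(univ.erase π₀).image fun π => (h0 π).1,
    univ.filter fun i => ∃ a, Good (Function.update h0 π₀ (i, a)), ?_, ?_, ?_⟩
  · have hpos : 0 < ((univ : Finset (Fin s × Fin k)).filter
        fun y => Good (Function.update h0 π₀ y)).card := by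
      rcases Nat.eq_zero_or_pos ((univ : Finset (Fin s × Fin k)).filter
        fun y => Good (Function.update h0 π₀ y)).card with h0' | h0'
      · rw [h0'] at hh0
        omega
      · exact h0'
    obtain ⟨y, hy⟩ := Finset.card_pos.1 hpos
    rw [Finset.mem_filter] at hy
    have hinj : Set.InjOn (fun π => (h0 π).1) ((univ.erase π₀ : Finset W) : Set W) := by
      intro a ha b hb hab
      have ha' := Finset.ne_of_mem_erase (Finset.mem_coe.1 ha)
      have hb' := Finset.ne_of_mem_erase (Finset.mem_coe.1 hb)
      apply hy.2.1
      show (Function.update h0 π₀ y a).1 = (Function.update h0 π₀ y b).1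
      rw [Function.update_of_ne ha', Function.update_of_ne hb']
      exact hab
    rw [Finset.card_image_of_injOn hinj, Finset.card_erase_of_mem (Finset.mem_univ _), Finset.card_univ]
    have : 0 < Fintype.card W := Fintype.card_pos_iff.2 ⟨π₀⟩
    omega
  · intro i hi
    rw [Finset.mem_filter] at hi
    obtain ⟨_, a, ha⟩ := hi
    refine ⟨hnot _ ha, ?_⟩
    have h1 := ha.2
    rw [himg] at h1
    exact h1
  · have hsub : ((univ : Finset (Fin s × Fin k)).filter fun y => Good (Function.update h0 π₀ y)) ⊆
        (univ.filter fun i => ∃ a, Good (Function.update h0 π₀ (i, a))) ×ˢ (univ : Finset (Fin k)) := by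
      intro y hy
      rw [Finset.mem_filter] at hy
      rw [Finset.mem_product, Finset.mem_filter]
      exact ⟨⟨Finset.mem_univ _, y.2, hy.2⟩, Finset.mem_univ _⟩
    have h1 := Finset.card_le_card hsub
    rw [Finset.card_product, Finset.card_univ, Fintype.card_fin] at h1
    have h2 := hh0.trans (Nat.mul_le_mul_left C h1)
    rw [← Nat.mul_assoc] at h2
    exact Nat.le_of_mul_le_mul_right h2 (by omega)

end Pool.Agent.H10.HM
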