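import Pool.Agent.H10.HM.Defs

/-!
# Module Bas: packings, coverings, rows
-/

set_option autoImplicit false

namespace Pool.Agent.H10.HM

open Finset
open Pool.Agent.H73.Cov

variable {V : Type} [DecidableEq V] {κ t n n' : ℕ} {G : Finset (Finset V)} {P Y Y' Z Q W : Finset V}

lemma Pk.zero (G : Finset (Finset V)) : Pk G 0 ∅ := by
  refine ⟨∅, Finset.empty_subset _, ?_, rfl, rfl⟩
  rw [Finset.coe_empty]
  exact Set.pairwiseDisjoint_empty

lemma Pk.one {f : Finset V} (hf : f ∈ G) : Pk G 1 f := by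
  refine ⟨{f}, Finset.singleton_subset_iff.2 hf, ?_, Finset.card_singleton f, ?_⟩
  · rw [Finset.coe_singleton]
    exact Set.pairwiseDisjoint_singleton _ _
  · rw [Finset.singleton_biUnion]
    rfl

lemma Pk.sub (h : Pk G n Y) {G' : Finset (Finset V)} (hG : G ⊆ G') : Pk G' n Y := by
  obtain ⟨N, h1, h2, h3, h4⟩ := h
  exact ⟨N, h1.trans hG, h2, h3, h4⟩

lemma Pk.union (hG : ∀ f ∈ G, f.card = κ + 1) (h : Pk G n Y) (h' : Pk G n' Y') (hd : Disjoint Y Y') :
    Pk G (n + n') (Y ∪ Y') := by
  obtain ⟨N, h1, h2, h3, h4⟩ := h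
  obtain ⟨N', h1', h2', h3', h4'⟩ := h'
  have hsub : ∀ f ∈ N, f ⊆ Y := fun f hf => by
    rw [← h4]
    exact Finset.subset_biUnion_of_mem id hf
  have hsub' : ∀ f ∈ N', f ⊆ Y' := fun f hf => by
    rw [← h4']
    exact Finset.subset_biUnion_of_mem id hf
  have hNN : Disjoint N N' := by
    rw [Finset.disjoint_left]
    intro f hf hf'
    have h5 := hd.mono (hsub f hf) (hsub' f hf')
    rw [disjoint_self] at h5
    have h6 := hG f (h1 hf)
    rw [h5] at h6
    simp at h6
  refine ⟨N ∪ N', Finset.union_subset h1 h1', ?_, ?_, ?_⟩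
  · intro f hf f' hf' hne
    rw [Finset.mem_coe, Finset.mem_union] at hf hf'
    rcases hf with hf | hf <;> rcases hf' with hf' | hf'
    · exact h2 hf hf' hne
    · exact hd.mono (hsub f hf) (hsub' f' hf')
    · exact (hd.mono (hsub f' hf') (hsub' f hf)).symm
    · exact h2' hf hf' hne
  · rw [Finset.card_union_of_disjoint hNN, h3, h3']
  · rw [Finset.union_biUnion, h4, h4']

lemma Pk.card (hG : ∀ f ∈ G, f.card = κ + 1) (h : Pk G n Y) : Y.card = n * (κ + 1) := by
  obtain ⟨N, h1, h2, h3, rfl⟩ := h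
  rw [Finset.card_biUnion (fun f hf f' hf' hne => h2 hf hf' hne)]
  have h5 : ∀ f ∈ N, (id f : Finset V).card = κ + 1 := fun f hf => hG f (h1 hf)
  rw [Finset.sum_congr rfl h5, Finset.sum_const, h3, smul_eq_mul]

lemma Pk.le (hT : Tight κ t G) (h : Pk G n Y) : n ≤ t := by
  obtain ⟨N, h1, h2, h3, -⟩ := h
  rw [← h3]
  exact hT.2.1 N h1 h2

lemma exists_pk (hW : Full κ G W) (hG : ∀ f ∈ G, f.card = κ + 1) : ∀ n : ℕ, n * (κ + 1) ≤ W.card →
    ∃ Y ⊆ W, Pk G n Y := by
  intro n
  induction n with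
  | zero => exact fun _ => ⟨∅, Finset.empty_subset _, Pk.zero G⟩
  | succ n ih =>
    intro hn
    have e : (n + 1) * (κ + 1) = n * (κ + 1) + (κ + 1) := by ring
    obtain ⟨Y, hY, hpk⟩ := ih (by omega)
    have hc := hpk.card hG
    have h1 : κ + 1 ≤ (W \ Y).card := by
      have := Finset.card_sdiff_add_card_inter W Y
      have h2 : (W ∩ Y).card ≤ Y.card := Finset.card_le_card Finset.inter_subset_right
      omega
    obtain ⟨f, hf, hfc⟩ := Finset.exists_subset_card_eq h1
    have hfW : f ⊆ W := hf.trans Finset.sdiff_subset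
    refine ⟨Y ∪ f, Finset.union_subset hY hfW, ?_⟩
    refine hpk.union hG (Pk.one (hW f hfW hfc)) ?_
    rw [Finset.disjoint_left]
    intro x hx hx'
    exact (Finset.mem_sdiff.1 (hf hx')).2 hx

/-- packing bound -/
theorem pack (hT : Tight κ t G) (hP : Full κ G P) (h : Pk G n Y) : (P ∪ Y).card ≤ (κ + 1) * t + κ := by
  by_contra hcon
  push Not at hcon
  have hn := h.le hT
  have hc := h.card hT.1
  have h1 : (P ∪ Y).card = (P \ Y).card + Y.card := by
    rw [← Finset.sdiff_union_self_eq_union, Finset.card_union_of_disjoint Finset.sdiff_disjoint]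
  obtain ⟨d, hd⟩ : ∃ d, t = n + d := ⟨t - n, by omega⟩
  have e1 : (κ + 1) * t = n * (κ + 1) + d * (κ + 1) := by rw [hd]; ring
  have e2 : (d + 1) * (κ + 1) = d * (κ + 1) + (κ + 1) := by ring
  have hP' : Full κ G (P \ Y) := fun f hf hfc => hP f (hf.trans Finset.sdiff_subset) hfc
  obtain ⟨Y', hY', hpk⟩ := exists_pk hP' hT.1 (d + 1) (by omega)
  have h2 := h.union hT.1 hpk (by
    rw [Finset.disjoint_left]
    intro x hx hx'
    exact (Finset.mem_sdiff.1 (hY' hx')).2 hx)
  have := h2.le hT
  omega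

lemma pack_sdiff (hT : Tight κ t G) (hP : Full κ G P) {w : ℕ} (hw : P.card + w = (κ + 1) * t + κ) (h : Pk G n Y) :
    (Y \ P).card ≤ w := by
  have h1 := pack hT hP h
  have h2 : (P ∪ Y).card = P.card + (Y \ P).card := by
    rw [← Finset.union_sdiff_self_eq_union, Finset.card_union_of_disjoint Finset.disjoint_sdiff]
  omega

/-- covering bound -/
theorem avoid (hT : Tight κ t G) {R : Finset V} (hR : R ⊆ P) (h : P.card + Z.card < (κ + 1) * t + R.card) :
    ∃ f ∈ G, f ∩ P ⊆ R ∧ Disjoint f Z := by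
  by_contra hcon
  push Not at hcon
  have h1 := hT.2.2 ((P \ R) ∪ Z) (by
    intro f hf
    by_cases hfR : f ∩ P ⊆ R
    · have h2 := hcon f hf hfR
      rw [Finset.not_disjoint_iff] at h2
      obtain ⟨x, hx, hx'⟩ := h2
      exact ⟨x, Finset.mem_inter.2 ⟨hx, Finset.mem_union_right _ hx'⟩⟩
    · rw [Finset.subset_iff] at hfR
      push Not at hfR
      obtain ⟨x, hx, hx'⟩ := hfR
      rw [Finset.mem_inter] at hx
      exact ⟨x, Finset.mem_inter.2 ⟨hx.1, Finset.mem_union_left _ (Finset.mem_sdiff.2 ⟨hx.2, hx'⟩)⟩⟩)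
  have h2 := Finset.card_union_le (P \ R) Z
  have h3 := Finset.card_sdiff_add_card_eq_card hR
  omega

/-- a tight family inside a complete one is the complete one -/
theorem tight_eq (hT : Tight κ t G) (h : ∀ f ∈ G, f ⊆ W) (hW : W.card ≤ (κ + 1) * t + κ) :
    G = powersetCard (κ + 1) W := by
  ext f
  rw [Finset.mem_powersetCard]
  constructor
  · exact fun hf => ⟨h f hf, hT.1 f hf⟩
  · rintro ⟨hfW, hfc⟩
    by_contra hf
    have h1 := hT.2.2 (W \ f) (by
      intro g hg
      by_contra hne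
      rw [Finset.not_nonempty_iff_eq_empty] at hne
      have h2 : g ⊆ f := by
        intro x hx
        by_contra hxf
        have h3 : x ∈ g ∩ (W \ f) := Finset.mem_inter.2 ⟨hx, Finset.mem_sdiff.2 ⟨h g hg hx, hxf⟩⟩
        rw [hne] at h3
        simp at h3
      have h4 := Finset.eq_of_subset_of_card_le h2 (by rw [hfc, hT.1 g hg])
      exact hf (h4 ▸ hg))
    have h2 := Finset.card_sdiff_add_card_eq_card hfW
    omega

/-- a tight family which contains a large complete one is the complete one -/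
theorem tight_sup (hT : Tight κ t G) (h : Full κ G W) (hW : (κ + 1) * t + κ ≤ W.card) :
    G = powersetCard (κ + 1) W := by
  ext f
  rw [Finset.mem_powersetCard]
  constructor
  · intro hf
    refine ⟨?_, hT.1 f hf⟩
    have h1 := pack hT h (Pk.one hf)
    have h2 : W ∪ f = W := (Finset.eq_of_subset_of_card_le Finset.subset_union_left (by omega)).symm
    intro x hx
    rw [← h2]
    exact Finset.mem_union_right _ hx
  · exact fun hf => h f hf.1 hf.2

/-- disjoint rows which avoid a small set -/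
theorem exists_rows (κ : ℕ) : ∀ m : ℕ, ∀ P Q : Finset V, m * κ + Q.card ≤ P.card →
    ∃ R : Fin m → Finset V, Rows κ m P R ∧ ∀ a, Disjoint (R a) Q := by
  intro m
  induction m with
  | zero => exact fun P Q _ => ⟨fun a => a.elim0, ⟨fun a => a.elim0, fun a => a.elim0, fun a => a.elim0⟩, fun a => a.elim0⟩
  | succ m ih =>
    intro P Q h
    have e : (m + 1) * κ = m * κ + κ := by ring
    have h1 : κ ≤ (P \ Q).card := by
      have := Finset.card_sdiff_add_card_inter P Q
      have h2 : (P ∩ Q).card ≤ Q.card := Finset.card_le_card Finset.inter_subset_right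
      omega
    obtain ⟨R₀, hR₀, hR₀c⟩ := Finset.exists_subset_card_eq h1
    obtain ⟨R, hR, hRQ⟩ := ih P (Q ∪ R₀) (by
      have := Finset.card_union_le Q R₀
      omega)
    refine ⟨Fin.cons R₀ R, ⟨?_, ?_, ?_⟩, ?_⟩
    · intro a
      refine Fin.cases ?_ (fun a => ?_) a
      · exact hR₀.trans Finset.sdiff_subset
      · exact hR.sub a
    · intro a
      refine Fin.cases ?_ (fun a => ?_) a
      · exact hR₀c
      · exact hR.card a
    · intro a b
      refine Fin.cases ?_ (fun a => ?_) a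
      · refine Fin.cases ?_ (fun b => ?_) b
        · exact fun h => absurd rfl h
        · exact fun _ => ((hRQ b).mono_right Finset.subset_union_right).symm
      · refine Fin.cases ?_ (fun b => ?_) b
        · exact fun _ => (hRQ a).mono_right Finset.subset_union_right
        · intro hne
          exact hR.disj a b (fun hab => hne (by rw [hab]))
    · intro a
      refine Fin.cases ?_ (fun a => ?_) a
      · show Disjoint R₀ Q
        rw [Finset.disjoint_left]
        intro x hx hx'
        exact (Finset.mem_sdiff.1 (hR₀ hx)).2 hx'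
      · exact (hRQ a).mono_right Finset.subset_union_left

theorem exists_row {κ : ℕ} {P Q : Finset V} (h : κ + Q.card ≤ P.card) :
    ∃ R ⊆ P, R.card = κ ∧ Disjoint R Q := by
  obtain ⟨R, hR, hQ⟩ := exists_rows κ 1 P Q (by omega)
  exact ⟨R 0, hR.sub 0, hR.card 0, hQ 0⟩

/-- the packing of a system -/
theorem Sys.pk {R : V → Finset V} (hG : ∀ f ∈ G, f.card = κ + 1) (h : Sys κ G P Z Q R) (hZ : Disjoint Z P) :
    Pk G Z.card (Z ∪ Z.biUnion R) := by
  classical
  have key : ∀ Z' ⊆ Z, Pk G Z'.card (Z' ∪ Z'.biUnion R) := by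
    intro Z'
    induction Z' using Finset.induction_on with
    | empty =>
      intro _
      simpa using Pk.zero G
    | insert a Z' ha ih =>
      intro hsub
      have haZ : a ∈ Z := hsub (Finset.mem_insert_self a Z')
      have hZ' : Z' ⊆ Z := fun x hx => hsub (Finset.mem_insert_of_mem hx)
      have h1 := (ih hZ').union hG (Pk.one (h.mem a haZ)) (by
        rw [Finset.disjoint_left]
        intro x hx hx'
        rw [Finset.mem_union, Finset.mem_biUnion] at hx
        rw [Finset.mem_insert] at hx'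
        rcases hx with hx | ⟨b, hb, hx⟩
        · rcases hx' with rfl | hx'
          · exact ha hx
          · exact Finset.disjoint_left.1 hZ (hZ' hx) (h.sub a haZ hx')
        · rcases hx' with rfl | hx'
          · exact Finset.disjoint_left.1 hZ haZ (h.sub b (hZ' hb) hx)
          · exact Finset.disjoint_left.1 (h.disj b (hZ' hb) a haZ (fun hab => ha (hab ▸ hb))) hx hx')
      rw [Finset.card_insert_of_notMem ha]
      have e : Z' ∪ Z'.biUnion R ∪ insert a (R a) = insert a Z' ∪ (insert a Z').biUnion R := by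
        ext x
        simp only [Finset.mem_union, Finset.mem_biUnion, Finset.mem_insert]
        constructor
        · rintro ((h2 | ⟨b, hb, h2⟩) | (h2 | h2))
          · exact Or.inl (Or.inr h2)
          · exact Or.inr ⟨b, Or.inr hb, h2⟩
          · exact Or.inl (Or.inl h2)
          · exact Or.inr ⟨a, Or.inl rfl, h2⟩
        · rintro ((h2 | h2) | ⟨b, (rfl | hb), h2⟩)
          · exact Or.inr (Or.inl h2)
          · exact Or.inl (Or.inl h2)
          · exact Or.inr (Or.inr h2)
          · exact Or.inl (Or.inr ⟨b, hb, h2⟩)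
      rw [← e]
      exact h1
  exact key Z (Finset.Subset.refl Z)

lemma Sys.mono {R : V → Finset V} {Z' Q' : Finset V} (h : Sys κ G P Z Q R) (hZ : Z' ⊆ Z) (hQ : Q' ⊆ Q) :
    Sys κ G P Z' Q' R :=
  ⟨fun z hz => h.sub z (hZ hz), fun z hz => h.card z (hZ hz), fun z hz => h.mem z (hZ hz),
    fun z hz => (h.avoid z (hZ hz)).mono_right hQ, fun z hz z' hz' => h.disj z (hZ hz) z' (hZ hz')⟩

/-- a member together with the rows of a system which avoid it -/
theorem Sys.pack {R : V → Finset V} (hT : Tight κ t G) (hP : Full κ G P) {w : ℕ} (hw : P.card + w = (κ + 1) * t + κ)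
    (h : Sys κ G P Z Q R) (hZ : Disjoint Z P) {Y : Finset V} (hY : Pk G n Y) (hYQ : Y ∩ P ⊆ Q) :
    (Y \ P).card + (Z \ Y).card ≤ w := by
  have h1 : Sys κ G P (Z \ Y) Q R := h.mono Finset.sdiff_subset (Finset.Subset.refl Q)
  have hZ1 : Disjoint (Z \ Y) P := hZ.mono_left Finset.sdiff_subset
  have h2 := hY.union hT.1 (h1.pk hT.1 hZ1) (by
    rw [Finset.disjoint_left]
    intro x hx hx'
    rw [Finset.mem_union, Finset.mem_sdiff, Finset.mem_biUnion] at hx'
    rcases hx' with hx' | ⟨b, hb, hx'⟩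
    · exact hx'.2 hx
    · exact Finset.disjoint_left.1 (h1.avoid b hb) hx' (hYQ (Finset.mem_inter.2 ⟨hx, h1.sub b hb hx'⟩)))
  have h3 := pack_sdiff hT hP hw h2
  have h4 : (Y \ P) ∪ (Z \ Y) ⊆ (Y ∪ (Z \ Y ∪ (Z \ Y).biUnion R)) \ P := by
    intro x hx
    rw [Finset.mem_union] at hx
    rcases hx with hx | hx
    · rw [Finset.mem_sdiff] at hx
      exact Finset.mem_sdiff.2 ⟨Finset.mem_union_left _ hx.1, hx.2⟩
    · exact Finset.mem_sdiff.2 ⟨Finset.mem_union_right _ (Finset.mem_union_left _ hx), Finset.disjoint_left.1 hZ1 hx⟩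
  have h5 := Finset.card_le_card h4
  rw [Finset.card_union_of_disjoint (by
    rw [Finset.disjoint_left]
    intro x hx hx'
    exact (Finset.mem_sdiff.1 hx').2 (Finset.mem_sdiff.1 hx).1)] at h5
  omega

end Pool.Agent.H10.HM
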