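import Pool.Agent.H10.HM.CpC

/-!
# Module Cnt: the number of members over a complete set of blocks

`P = uJ M J ∪ Z`. Members of `F` contained in `P`: at most `binom |P| (κ+1)`. Members with exactly one vertex `x` outside `P`: `f = insert x R`, `R = f ∩ P` of size `κ`; if `f` met no block `i ∉ J` it would be in `res J` (`M.mem_res`) and contained in `P`; so it meets a block `i ∉ J`, the blocks `i ∉ J` are disjoint from `P`, so `x ∈ M.edge i` and `x ∈ Si M i R`:
at most `∑_(i ∉ J) ∑_R |Si M i R|` (the map `f ↦ (i, R, x)` is injective; or `card_biUnion_le`). Members with at least two vertices outside `P`: `|f ∩ P| ≤ κ - 1`, so `f` meets at most `κ - 1` blocks of `J` (`M.supp_card_le`-like: `(M.supp f ∩ J).card ≤ |f ∩ P|`), so `f ∈ M.res (A ∪ Jᶜ)` with `A ⊆ J`, `|A| = κ - 1`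
(`Finset.exists_subsuperset_card_eq`, `κ - 1 ≤ |J|`); `|M.res (A ∪ Jᶜ)| ≤ ((κ+1) (κ - 1 + (s - |J|)))^(κ+1)` (`(M.tight_res hT _).lovasz`), and there are `binom |J| (κ-1) ≤ s^(κ-1)` sets `A` (`Nat.choose_le_pow`). Compare `IMatch.card_F2_le` (`Pool/Agent/H73/CovB.lean`).
-/

set_option autoImplicit false

namespace Pool.Agent.H10.HM

open Finset
open Pool.Agent.H73.Cov

variable {V : Type} [DecidableEq V] {κ s : ℕ} {F : Finset (Finset V)}

theorem cnt (hκ : 1 ≤ κ) (hT : Tight κ s F) (M : IMatch κ s F) {J : Finset (Fin s)}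
    {Z : Finset V} (hZ : Disjoint Z M.U) (hres : M.res J = powersetCard (κ + 1) (uJ M J ∪ Z))
    (hJ : κ ≤ J.card) :
    F.card ≤ (uJ M J ∪ Z).card.choose (κ + 1) +
      ∑ i ∈ Jᶜ, ∑ R ∈ powersetCard κ (uJ M J ∪ Z), (Si M i R).card +
      s ^ (κ - 1) * ((κ + 1) * (κ - 1 + (s - J.card))) ^ (κ + 1) := by
  classical
  set P : Finset V := uJ M J ∪ Z with hP
  have hedge : ∀ i ∈ J, M.edge i ⊆ P := by
    intro i hi x hx
    exact Finset.mem_union_left _ (Finset.mem_biUnion.2 ⟨i, hi, hx⟩)
  have hdis : ∀ i, i ∉ J → ∀ y ∈ M.edge i, y ∉ P := by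
    intro i hi y hy hyP
    rcases Finset.mem_union.1 hyP with h1 | h1
    · obtain ⟨j, hj, hyj⟩ := Finset.mem_biUnion.1 h1
      have hij : i ≠ j := fun h => hi (h ▸ hj)
      exact Finset.disjoint_left.1 (M.edge_disjoint hij) hy hyj
    · exact Finset.disjoint_left.1 hZ h1 (M.edge_subset_U i hy)
  set A : Finset (Finset V) := powersetCard (κ + 1) P with hA
  set B : Finset (Finset V) := Jᶜ.biUnion fun i => (powersetCard κ P).biUnion fun R =>
    (Si M i R).image fun x => insert x R with hB
  set C : Finset (Finset V) := (powersetCard (κ - 1) J).biUnion fun D => M.res (D ∪ Jᶜ) with hC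
  have hsub : F ⊆ A ∪ B ∪ C := by
    intro f hf
    have h1 := Finset.card_inter_add_card_sdiff f P
    have h2 := hT.1 f hf
    rcases Nat.lt_or_ge (f \ P).card 2 with h3 | h3
    · refine Finset.mem_union_left _ ?_
      rcases Nat.lt_or_ge (f \ P).card 1 with h4 | h4
      · refine Finset.mem_union_left _ ?_
        have h5 : f \ P = ∅ := Finset.card_eq_zero.1 (by omega)
        rw [hA, Finset.mem_powersetCard]
        exact ⟨Finset.sdiff_eq_empty_iff_subset.1 h5, h2⟩
      · refine Finset.mem_union_right _ ?_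
        obtain ⟨x, hx⟩ := Finset.card_eq_one.1 (show (f \ P).card = 1 by omega)
        have hxm : x ∈ f \ P := by rw [hx]; exact Finset.mem_singleton_self x
        rw [Finset.mem_sdiff] at hxm
        have h5 : f ∉ M.res J := by
          intro h
          rw [hres, Finset.mem_powersetCard] at h
          exact hxm.2 (h.1 hxm.1)
        rw [M.mem_res] at h5
        push Not at h5
        obtain ⟨i, hi, hd⟩ := h5 hf
        rw [Finset.not_disjoint_iff] at hd
        obtain ⟨y, hyf, hyi⟩ := hd
        have hyx : y = x := by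
          have h6 : y ∈ f \ P := Finset.mem_sdiff.2 ⟨hyf, hdis i hi y hyi⟩
          rwa [hx, Finset.mem_singleton] at h6
        subst hyx
        have hfi : insert y (f ∩ P) = f := by
          ext z
          rw [Finset.mem_insert, Finset.mem_inter]
          constructor
          · rintro (rfl | h)
            · exact hyf
            · exact h.1
          · intro hz
            by_cases hzP : z ∈ P
            · exact Or.inr ⟨hz, hzP⟩
            · left
              have h6 : z ∈ f \ P := Finset.mem_sdiff.2 ⟨hz, hzP⟩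
              rwa [hx, Finset.mem_singleton] at h6
        rw [hB, Finset.mem_biUnion]
        refine ⟨i, Finset.mem_compl.2 hi, ?_⟩
        rw [Finset.mem_biUnion]
        refine ⟨f ∩ P, Finset.mem_powersetCard.2 ⟨Finset.inter_subset_right, by omega⟩, ?_⟩
        rw [Finset.mem_image]
        refine ⟨y, ?_, hfi⟩
        rw [Si, Finset.mem_filter, hfi]
        exact ⟨hyi, hf⟩
    · refine Finset.mem_union_right _ ?_
      have h4 : (M.supp f ∩ J).card ≤ (f ∩ P).card := by
        have hpd : ∀ i ∈ M.supp f ∩ J, ∀ j ∈ M.supp f ∩ J, i ≠ j →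
            Disjoint (f ∩ M.edge i) (f ∩ M.edge j) := by
          intro i _ j _ hij
          exact (M.edge_disjoint hij).mono Finset.inter_subset_right Finset.inter_subset_right
        calc (M.supp f ∩ J).card = ∑ i ∈ M.supp f ∩ J, 1 := by simp
          _ ≤ ∑ i ∈ M.supp f ∩ J, (f ∩ M.edge i).card := by
              refine Finset.sum_le_sum (fun i hi => ?_)
              rw [Finset.mem_inter, IMatch.supp, Finset.mem_filter] at hi
              rw [Nat.one_le_iff_ne_zero]
              intro h0
              rw [Finset.card_eq_zero, ← Finset.disjoint_iff_inter_eq_empty] at h0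
              exact hi.1.2 h0
          _ = ((M.supp f ∩ J).biUnion (fun i => f ∩ M.edge i)).card := by
              rw [Finset.card_biUnion hpd]
          _ ≤ (f ∩ P).card := by
              refine Finset.card_le_card ?_
              intro x hx
              rw [Finset.mem_biUnion] at hx
              obtain ⟨i, hi, hx⟩ := hx
              rw [Finset.mem_inter] at hx hi ⊢
              exact ⟨hx.1, hedge i hi.2 hx.2⟩
      obtain ⟨D, hD1, hD2, hDc⟩ := Finset.exists_subsuperset_card_eq (s := M.supp f ∩ J) (t := J)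
        (n := κ - 1) Finset.inter_subset_right (by omega) (by omega)
      rw [hC, Finset.mem_biUnion]
      refine ⟨D, Finset.mem_powersetCard.2 ⟨hD2, hDc⟩, M.mem_res_supp hf ?_⟩
      intro i hi
      by_cases hiJ : i ∈ J
      · exact Finset.mem_union_left _ (hD1 (Finset.mem_inter.2 ⟨hi, hiJ⟩))
      · exact Finset.mem_union_right _ (Finset.mem_compl.2 hiJ)
  have hAc : A.card = P.card.choose (κ + 1) := by rw [hA, Finset.card_powersetCard]
  have hBc : B.card ≤ ∑ i ∈ Jᶜ, ∑ R ∈ powersetCard κ P, (Si M i R).card := by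
    refine Finset.card_biUnion_le.trans (Finset.sum_le_sum fun i _ => ?_)
    refine Finset.card_biUnion_le.trans (Finset.sum_le_sum fun R _ => ?_)
    exact Finset.card_image_le
  have hJs : J.card ≤ s := by simpa using Finset.card_le_univ J
  have hCc : C.card ≤ s ^ (κ - 1) * ((κ + 1) * (κ - 1 + (s - J.card))) ^ (κ + 1) := by
    calc C.card ≤ ∑ D ∈ powersetCard (κ - 1) J, (M.res (D ∪ Jᶜ)).card := Finset.card_biUnion_le
      _ ≤ ∑ D ∈ powersetCard (κ - 1) J, ((κ + 1) * (κ - 1 + (s - J.card))) ^ (κ + 1) := by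
          refine Finset.sum_le_sum (fun D hD => ?_)
          refine ((M.tight_res hT (D ∪ Jᶜ)).lovasz).trans ?_
          refine Nat.pow_le_pow_left (Nat.mul_le_mul_left _ ?_) _
          refine (Finset.card_union_le _ _).trans ?_
          rw [(Finset.mem_powersetCard.1 hD).2, Finset.card_compl, Fintype.card_fin]
      _ = J.card.choose (κ - 1) * ((κ + 1) * (κ - 1 + (s - J.card))) ^ (κ + 1) := by simp
      _ ≤ s ^ (κ - 1) * ((κ + 1) * (κ - 1 + (s - J.card))) ^ (κ + 1) :=
          Nat.mul_le_mul_right _ ((Nat.choose_le_pow J.card (κ - 1)).trans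
            (Nat.pow_le_pow_left hJs _))
  calc F.card ≤ (A ∪ B ∪ C).card := Finset.card_le_card hsub
    _ ≤ A.card + B.card + C.card := (Finset.card_union_le _ _).trans
        (Nat.add_le_add_right (Finset.card_union_le _ _) _)
    _ ≤ _ := by
        rw [hAc]
        exact Nat.add_le_add (Nat.add_le_add_left hBc _) hCc

end Pool.Agent.H10.HM
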