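import Pool.Agent.H10.HM.Bas

/-!
# Module CpC: complete sets of blocks

`uJ_card`, `edge_sub_uJ`, `edge_mem_res`: elementary (`M.edge_card`, `M.edge_disjoint`, `M.mem`). `res_inter`: a member of `res J` meets `M.U` only in `uJ M J`.
`cp_of_cmp`: `M.res J = powersetCard (κ+1) W`, `t = |J| ≥ 1`. The blocks of `J` are in `res J`, so `uJ M J ⊆ W`. `|W| = t (κ+1) + κ`: if `|W| ≥ (t+1)(κ+1)` there are `t + 1` disjoint members (`exists_pk`, `Pk.le`); if `|W| ≤ t (κ+1) + κ - 1`: `W` minus a set of `κ` elements (if `|W| ≥ κ`) is a cover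
with less than `t (κ+1)` elements (`hT.2.2`). `Z = W \ uJ M J` has `κ` elements and is disjoint from `M.U`: a `z ∈ Z` is in some member of `powersetCard (κ+1) W = res J`; `res_inter`.
`cp_sub`: if `res J = powersetCard (κ+1) (uJ M J ∪ Z)` and `J' ⊆ J` then `res J'` consists of the members of `res J` which avoid the blocks of `J \ J'`.
`cp_full`: `Full κ (M.res J) (uJ M J ∪ Z)`.
-/

set_option autoImplicit false

namespace Pool.Agent.H10.HM

open Finset
open Pool.Agent.H73.Cov

variable {V : Type} [DecidableEq V] {κ s : ℕ} {F : Finset (Finset V)}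

lemma uJ_card (M : IMatch κ s F) (J : Finset (Fin s)) : (uJ M J).card = (κ + 1) * J.card := by
  rw [uJ, Finset.card_biUnion (fun i _ j _ hij => M.edge_disjoint hij),
    Finset.sum_congr rfl (fun i _ => M.edge_card i), Finset.sum_const, smul_eq_mul, mul_comm]

lemma uJ_sub_U (M : IMatch κ s F) (J : Finset (Fin s)) : uJ M J ⊆ M.U :=
  Finset.biUnion_subset.2 (fun i _ => M.edge_subset_U i)

lemma res_inter (M : IMatch κ s F) {J : Finset (Fin s)} {f : Finset V} (hf : f ∈ M.res J) : f ∩ M.U ⊆ uJ M J := by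
  intro x hx
  rw [Finset.mem_inter] at hx
  obtain ⟨⟨i, a⟩, hp⟩ := M.mem_U.1 hx.2
  have hxe : x ∈ M.edge i := M.mem_edge.2 ⟨a, hp⟩
  by_contra hcon
  have hi : i ∉ J := fun h => hcon (Finset.mem_biUnion.2 ⟨i, h, hxe⟩)
  exact Finset.disjoint_left.1 ((M.mem_res.1 hf).2 i hi) hx.1 hxe

lemma mem_res_of (M : IMatch κ s F) {J : Finset (Fin s)} {f : Finset V} (hf : f ∈ F) (h : f ∩ M.U ⊆ uJ M J) : f ∈ M.res J := by
  rw [M.mem_res]
  refine ⟨hf, fun i hi => ?_⟩
  rw [Finset.disjoint_left]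
  intro x hx hxe
  obtain ⟨j, hj, hxj⟩ := Finset.mem_biUnion.1 (h (Finset.mem_inter.2 ⟨hx, M.edge_subset_U i hxe⟩))
  have hij : i ≠ j := fun h => hi (h ▸ hj)
  exact Finset.disjoint_left.1 (M.edge_disjoint hij) hxe hxj

lemma edge_mem_res (M : IMatch κ s F) {J : Finset (Fin s)} {i : Fin s} (hi : i ∈ J) : M.edge i ∈ M.res J :=
  mem_res_of M (M.mem i) (fun _ hx => Finset.mem_biUnion.2 ⟨i, hi, (Finset.mem_inter.1 hx).1⟩)

lemma res_mono (M : IMatch κ s F) {J J' : Finset (Fin s)} (h : J ⊆ J') : M.res J ⊆ M.res J' := by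
  intro f hf
  rw [M.mem_res] at hf ⊢
  exact ⟨hf.1, fun i hi => hf.2 i (fun hc => hi (h hc))⟩

lemma res_univ (M : IMatch κ s F) : M.res univ = F := by
  ext f
  rw [M.mem_res]
  exact ⟨fun h => h.1, fun h => ⟨h, fun i hi => absurd (Finset.mem_univ i) hi⟩⟩

theorem cp_of_cmp (hT : Tight κ s F) (M : IMatch κ s F) {J : Finset (Fin s)} (hJ : 1 ≤ J.card) (h : Cmp κ (M.res J)) : Cp M J := by
  obtain ⟨W, hW⟩ := h
  have hTJ := M.tight_res hT J
  have hfull : Full κ (M.res J) W := by
    intro f hf hfc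
    rw [hW]
    exact Finset.mem_powersetCard.2 ⟨hf, hfc⟩
  have hsub : uJ M J ⊆ W := by
    intro x hx
    obtain ⟨i, hi, hxi⟩ := Finset.mem_biUnion.1 hx
    have h1 := edge_mem_res M hi
    rw [hW, Finset.mem_powersetCard] at h1
    exact h1.1 hxi
  have hcu := uJ_card M J
  have h1 : (κ + 1) * J.card ≤ W.card := hcu ▸ Finset.card_le_card hsub
  have h2 : κ + 1 ≤ (κ + 1) * J.card := Nat.le_mul_of_pos_right _ hJ
  have h3 : W.card ≤ (κ + 1) * J.card + κ := by
    by_contra hcon
    push Not at hcon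
    have e : (J.card + 1) * (κ + 1) = (κ + 1) * J.card + (κ + 1) := by ring
    obtain ⟨Y, -, hY⟩ := exists_pk hfull hTJ.1 (J.card + 1) (by omega)
    have := hY.le hTJ
    omega
  have h4 : (κ + 1) * J.card + κ ≤ W.card := by
    obtain ⟨S, hS, hSc⟩ := Finset.exists_subset_card_eq (show κ ≤ W.card by omega)
    have h5 := hTJ.2.2 (W \ S) (by
      intro f hf
      by_contra hne
      rw [Finset.not_nonempty_iff_eq_empty] at hne
      have hf' := hf
      rw [hW, Finset.mem_powersetCard] at hf'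
      have h6 : f ⊆ S := by
        intro x hx
        by_contra hxS
        have h7 : x ∈ f ∩ (W \ S) := Finset.mem_inter.2 ⟨hx, Finset.mem_sdiff.2 ⟨hf'.1 hx, hxS⟩⟩
        rw [hne] at h7
        simp at h7
      have := Finset.card_le_card h6
      omega)
    have h6 := Finset.card_sdiff_add_card_eq_card hS
    omega
  refine ⟨W \ uJ M J, ?_, ?_, ?_⟩
  · rw [Finset.disjoint_left]
    intro z hz hzU
    rw [Finset.mem_sdiff] at hz
    obtain ⟨f, hzf, hfW, hfc⟩ := Finset.exists_subsuperset_card_eq (s := {z}) (t := W) (n := κ + 1)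
      (Finset.singleton_subset_iff.2 hz.1) (by rw [Finset.card_singleton]; omega) (by omega)
    exact hz.2 (res_inter M (hfull f hfW hfc) (Finset.mem_inter.2 ⟨Finset.singleton_subset_iff.1 hzf, hzU⟩))
  · have := Finset.card_sdiff_add_card_eq_card hsub
    omega
  · rw [hW, Finset.union_sdiff_of_subset hsub]

theorem cp_sub (M : IMatch κ s F) {J J' : Finset (Fin s)} (h : Cp M J) (hJ : J' ⊆ J) : Cp M J' := by
  obtain ⟨Z, hZ, hZc, hr⟩ := h
  refine ⟨Z, hZ, hZc, ?_⟩
  ext f
  rw [Finset.mem_powersetCard]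
  constructor
  · intro hf
    have h1 := res_mono M hJ hf
    rw [hr, Finset.mem_powersetCard] at h1
    refine ⟨?_, h1.2⟩
    intro x hx
    rcases Finset.mem_union.1 (h1.1 hx) with h2 | h2
    · exact Finset.mem_union_left _ (res_inter M hf (Finset.mem_inter.2 ⟨hx, uJ_sub_U M J h2⟩))
    · exact Finset.mem_union_right _ h2
  · rintro ⟨hf, hfc⟩
    have h1 : f ∈ M.res J := by
      rw [hr, Finset.mem_powersetCard]
      refine ⟨?_, hfc⟩
      intro x hx
      rcases Finset.mem_union.1 (hf hx) with h2 | h2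
      · exact Finset.mem_union_left _ (Finset.biUnion_subset_biUnion_of_subset_left _ hJ h2)
      · exact Finset.mem_union_right _ h2
    refine mem_res_of M (M.mem_res.1 h1).1 ?_
    intro x hx
    rw [Finset.mem_inter] at hx
    rcases Finset.mem_union.1 (hf hx.1) with h2 | h2
    · exact h2
    · exact absurd hx.2 (Finset.disjoint_left.1 hZ h2)

/-- a set of blocks is complete as soon as its blocks and `κ` further vertices span a complete family -/
theorem cp_of_full (hT : Tight κ s F) (M : IMatch κ s F) {J : Finset (Fin s)} {Z : Finset V} (hZ : Disjoint Z M.U)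
    (hZc : Z.card = κ) (h : Full κ F (uJ M J ∪ Z)) : Cp M J := by
  refine ⟨Z, hZ, hZc, tight_sup (M.tight_res hT J) ?_ ?_⟩
  · intro f hf hfc
    refine mem_res_of M (h f hf hfc) ?_
    intro x hx
    rw [Finset.mem_inter] at hx
    rcases Finset.mem_union.1 (hf hx.1) with h2 | h2
    · exact h2
    · exact absurd hx.2 (Finset.disjoint_left.1 hZ h2)
  · rw [Finset.card_union_of_disjoint (Finset.disjoint_of_subset_left (uJ_sub_U M J) hZ.symm), uJ_card, hZc]

end Pool.Agent.H10.HM
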