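import Pool.Agent.H73.CovD

/-!
# The second largest `k`-graphs with matching number `s` and covering number `s k` (MP_e8b69e_co)

THEOREM. `k = κ + 1`. For `s > s₀(k)` every `k`-graph `F` with `ν(F) = s`, `τ(F) = s k` is either the complete `k`-graph on `s k + k - 1` vertices or it has at most
`g = binom (s k + k - 3) k + 3 binom (s k + k - 3) (k - 2)` members, with equality only for the triangle family `tri W x y z = {f ⊆ W ∪ {x,y,z} : |f ∩ {x,y,z}| ∈ {0, 2}}`, `|W| = s k + k - 3`.

PROOF. `F` tight (`Pool/Agent/H73/CovA`): matching number `≤ s`, covering number `≥ k s`; `M` a matching with `s` members (blocks), `U` its vertices; for a set `J` of blocks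
`res J = {f ∈ F : f meets only blocks of J}` is tight with parameter `|J|` (`tight_res`).

LOCAL PART (`Bas`, `LocA`, `Sdr`, `LocC`, `Trig`, `LocB`). `G` tight with parameter `t`, `P` a set with all `k`-subsets in `G`, `|P| + w = k t + κ`. (a) `pack`: a union `Y` of disjoint members of `G` has
`|P ∪ Y| ≤ k t + κ`, so `|Y \ P| ≤ w`; (b) `avoid`: if `R ⊆ P`, `|P| + |Z| < k t + |R|` then some `f ∈ G` has `f ∩ P ⊆ R`, `f ∩ Z = ∅`; in particular for a row (a `κ`-subset of `P`) and `|Z| < w`.
`locA`: if `w - 1` disjoint rows have distinct neighbours outside `P` then `G` is complete. `locB`: if `G` is not complete and `m` disjoint rows all have the same neighbourhood `Z₁`, `|Z₁| = w - 2`, then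
`G ⊆ tri (P ∪ Z₁) x y z`. `locC`: if `G` is not complete, then either this is so or the neighbourhoods of any `m` disjoint rows have total size `< (w - 2) m`.

GLOBAL PART. `TC`: if all transversal `k`-sets of the blocks of `J` are in `F` then all `k`-subsets of the blocks are. `Frame`: a random set of blocks `J` is complete (`Cp`), or of triangle type (`Gp`), or its rows have
at most `(κ-2) m - 1` neighbours, or it is exceptional (rare). `Star`, `Phase`, `Nice`: if `|F| ≥ g` then a positive proportion of the `J` is `Cp` or `Gp`. `Aver`, `Ext`, `Swap`: so for a suitable matching there is a complete `J` with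
`s ≤ C |J|`. `Katona`, `RowD`, `MissD`: a maximal complete `J` misses `≥ 2 binom (|J| k) κ` sets for each remaining block, so `s - |J|` is bounded. `Cnt`, `Num`, `FinA`: `s - |J| ≤ 1`, and in the case `= 1` the local part with `w = k` is exact.
-/

set_option autoImplicit false

namespace Pool.Agent.H10.HM

open Finset
open Pool.Agent.H73.Cov

variable {V : Type} [DecidableEq V]

/-- all `(κ+1)`-subsets of `P` are in `G` -/
def Full (κ : ℕ) (G : Finset (Finset V)) (P : Finset V) : Prop :=
  ∀ f : Finset V, f ⊆ P → f.card = κ + 1 → f ∈ G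

/-- `Y` is the union of `n` pairwise disjoint members of `G` -/
def Pk (G : Finset (Finset V)) (n : ℕ) (Y : Finset V) : Prop :=
  ∃ N ⊆ G, (N : Set (Finset V)).PairwiseDisjoint id ∧ N.card = n ∧ N.biUnion id = Y

/-- `G` is complete -/
def Cmp (κ : ℕ) (G : Finset (Finset V)) : Prop := ∃ W : Finset V, G = powersetCard (κ + 1) W

/-- the neighbours of `R` outside `P` -/
def Sn (G : Finset (Finset V)) (P R : Finset V) : Finset V :=
  (G.biUnion id \ P).filter fun z => insert z R ∈ G

/-- the triangle family -/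
def tri (κ : ℕ) (W : Finset V) (x y z : V) : Finset (Finset V) :=
  (powersetCard (κ + 1) (W ∪ {x, y, z})).filter fun f => f ∩ {x, y, z} = ∅ ∨ (f ∩ {x, y, z}).card = 2

/-- `m` disjoint rows -/
structure Rows (κ m : ℕ) (P : Finset V) (R : Fin m → Finset V) : Prop where
  sub : ∀ a, R a ⊆ P
  card : ∀ a, (R a).card = κ
  disj : ∀ a b, a ≠ b → Disjoint (R a) (R b)

/-- disjoint rows `R z`, `z ∈ Z`, which avoid `Q`, with `R z ∪ {z} ∈ G` -/
structure Sys (κ : ℕ) (G : Finset (Finset V)) (P Z Q : Finset V) (R : V → Finset V) : Prop where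
  sub : ∀ z ∈ Z, R z ⊆ P
  card : ∀ z ∈ Z, (R z).card = κ
  mem : ∀ z ∈ Z, insert z (R z) ∈ G
  avoid : ∀ z ∈ Z, Disjoint (R z) Q
  disj : ∀ z ∈ Z, ∀ z' ∈ Z, z ≠ z' → Disjoint (R z) (R z')

/-- the number of rows of a frame -/
def mm (κ : ℕ) : ℕ := 20 * (κ + 1) ^ 3

/-- the vertices of the blocks of `J` -/
def uJ {κ s : ℕ} {F : Finset (Finset V)} (M : IMatch κ s F) (J : Finset (Fin s)) : Finset V := J.biUnion M.edge

/-- `J` is complete -/
def Cp {κ s : ℕ} {F : Finset (Finset V)} (M : IMatch κ s F) (J : Finset (Fin s)) : Prop :=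
  ∃ Z : Finset V, Disjoint Z M.U ∧ Z.card = κ ∧ M.res J = powersetCard (κ + 1) (uJ M J ∪ Z)

/-- `J` is of triangle type -/
def Gp {κ s : ℕ} {F : Finset (Finset V)} (M : IMatch κ s F) (J : Finset (Fin s)) : Prop :=
  ∃ Z : Finset V, Disjoint Z M.U ∧ Z.card + 2 = κ ∧ Full κ F (uJ M J ∪ Z) ∧
    ∀ f ∈ M.res J, Disjoint f Z → ¬ f ⊆ uJ M J → (f \ uJ M J).card = 2

/-- the second largest size -/
def gg (κ s : ℕ) : ℕ :=
  (s * (κ + 1) + κ - 2).choose (κ + 1) + 3 * (s * (κ + 1) + κ - 2).choose (κ - 1)

/-- the neighbours of `R` in the block `i` -/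
def Si {κ s : ℕ} {F : Finset (Finset V)} (M : IMatch κ s F) (i : Fin s) (R : Finset V) : Finset V :=
  (M.edge i).filter fun x => insert x R ∈ F

end Pool.Agent.H10.HM
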