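import Pool.Agent.H10.HM.LocA
import Pool.Agent.H10.HM.CpC

/-!
# Module Ext: extension of a complete set of blocks

`ext`: `G = M.res (insert i J)`, tight with parameter `t = |J| + 1`; `res J = powersetCard (κ+1) (uJ M J ∪ Z)`, `P = uJ M J ∪ Z` has `(κ+1) |J| + κ` elements, so `w = κ + 1`; `Full κ G P` (`res_mono`). `Cp M (insert i J₀)`: all `(κ+1)`-subsets of `uJ M J₀ ∪ M.edge i` are in `F`.
System: `κ` disjoint rows `⊆ uJ M J₀` (`exists_rows`, `|uJ M J₀| ≥ κ²`) and a set `Z' ⊆ M.edge i` with `κ` elements (`Sys` with `Z := Z'`); `M.edge i` is disjoint from `P`. `locA`: `G = powersetCard (κ+1) (P ∪ Z₀)`, so `Cmp`, and `cp_of_cmp`.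
`ext_all`: induction on `I`.
-/

set_option autoImplicit false

namespace Pool.Agent.H10.HM

open Finset
open Pool.Agent.H73.Cov

variable {V : Type} [DecidableEq V] {κ s : ℕ} {F : Finset (Finset V)}

theorem ext (hκ : 1 ≤ κ) (hT : Tight κ s F) (M : IMatch κ s F) {J₀ J : Finset (Fin s)} {i : Fin s} (h0 : J₀ ⊆ J)
    (hJ₀ : 10 * (κ + 2) ≤ J₀.card) (hi : i ∉ J) (hJ : Cp M J) (hi' : Cp M (insert i J₀)) : Cp M (insert i J) := by
  obtain ⟨Z, hZ, hZc, hr⟩ := hJ
  obtain ⟨Z1, hZ1, hZ1c, hr1⟩ := hi'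
  have hTG := M.tight_res hT (insert i J)
  have hcard : (insert i J).card = J.card + 1 := Finset.card_insert_of_notMem hi
  rw [hcard] at hTG
  have hPfull : Full κ (M.res (insert i J)) (uJ M J ∪ Z) := by
    intro f hf hfc
    apply res_mono M (Finset.subset_insert i J)
    rw [hr]
    exact Finset.mem_powersetCard.2 ⟨hf, hfc⟩
  have hPc : (uJ M J ∪ Z).card = (κ + 1) * J.card + κ := by
    rw [Finset.card_union_of_disjoint (Finset.disjoint_of_subset_left (uJ_sub_U M J) hZ.symm), uJ_card, hZc]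
  have hJJ : J₀.card ≤ J.card := Finset.card_le_card h0
  have hw : (uJ M J ∪ Z).card + (κ + 1) = (κ + 1) * (J.card + 1) + κ := by
    rw [hPc]; ring
  have hbig : 10 * (κ + 1) * (κ + 1 + 1) ≤ (uJ M J ∪ Z).card := by
    rw [hPc]
    calc 10 * (κ + 1) * (κ + 1 + 1) = (κ + 1) * (10 * (κ + 2)) := by ring
      _ ≤ (κ + 1) * J.card := Nat.mul_le_mul_left _ (hJ₀.trans hJJ)
      _ ≤ _ := Nat.le_add_right _ _
  obtain ⟨Z', hZ', hZ'c⟩ := Finset.exists_subset_card_eq (show κ ≤ (M.edge i).card by rw [M.edge_card]; omega)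
  have hZ'P : Disjoint Z' (uJ M J ∪ Z) := by
    rw [Finset.disjoint_left]
    intro x hx hx'
    have hxe := hZ' hx
    rcases Finset.mem_union.1 hx' with h | h
    · obtain ⟨j, hj, hxj⟩ := Finset.mem_biUnion.1 h
      have hij : i ≠ j := fun h => hi (h ▸ hj)
      exact Finset.disjoint_left.1 (M.edge_disjoint hij) hxe hxj
    · exact Finset.disjoint_left.1 hZ h (M.edge_subset_U i hxe)
  obtain ⟨R, hR, -⟩ := exists_rows κ κ (uJ M J₀) (∅ : Finset V) (by
    rw [uJ_card, Finset.card_empty, Nat.add_zero]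
    calc κ * κ ≤ (κ + 1) * (10 * (κ + 2)) := Nat.mul_le_mul (by omega) (by omega)
      _ ≤ (κ + 1) * J₀.card := Nat.mul_le_mul_left _ hJ₀)
  let e := Z'.equivFinOfCardEq hZ'c
  let R' : V → Finset V := fun z => if h : z ∈ Z' then R (e ⟨z, h⟩) else ∅
  have hR' : ∀ z (h : z ∈ Z'), R' z = R (e ⟨z, h⟩) := fun z h => dif_pos h
  have h0' : uJ M J₀ ⊆ uJ M J := Finset.biUnion_subset_biUnion_of_subset_left _ h0
  have hS : Sys κ (M.res (insert i J)) (uJ M J ∪ Z) Z' ∅ R' := by
    refine ⟨?_, ?_, ?_, ?_, ?_⟩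
    · intro z hz
      rw [hR' z hz]
      exact (hR.sub _).trans (h0'.trans Finset.subset_union_left)
    · intro z hz
      rw [hR' z hz]
      exact hR.card _
    · intro z hz
      apply res_mono M (Finset.insert_subset_insert i h0)
      rw [hr1, Finset.mem_powersetCard]
      have hsub : R' z ⊆ uJ M J₀ := by rw [hR' z hz]; exact hR.sub _
      have hzn : z ∉ R' z := fun hzz =>
        Finset.disjoint_left.1 hZ'P hz (Finset.mem_union_left _ (h0' (hsub hzz)))
      refine ⟨?_, ?_⟩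
      · intro x hx
        refine Finset.mem_union_left _ ?_
        rcases Finset.mem_insert.1 hx with rfl | hx
        · exact Finset.mem_biUnion.2 ⟨i, Finset.mem_insert_self _ _, hZ' hz⟩
        · exact (Finset.biUnion_subset_biUnion_of_subset_left _ (Finset.subset_insert i J₀)) (hsub hx)
      · rw [Finset.card_insert_of_notMem hzn, hR' z hz, hR.card]
    · intro z _
      exact Finset.disjoint_empty_right _
    · intro z hz z' hz' hne
      rw [hR' z hz, hR' z' hz']
      apply hR.disj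
      intro h
      exact hne (Subtype.mk.inj (e.injective h))
  obtain ⟨Z₀, -, -, hG⟩ := locA hκ hTG hPfull hw hbig hZ'P (by rw [hZ'c]) hS
  exact cp_of_cmp hT M (by rw [hcard]; omega) ⟨_, hG⟩

theorem ext_all (hκ : 1 ≤ κ) (hT : Tight κ s F) (M : IMatch κ s F) {J₀ : Finset (Fin s)} (hJ₀ : 10 * (κ + 2) ≤ J₀.card)
    (h : Cp M J₀) (I : Finset (Fin s)) (hI : ∀ i ∈ I, Cp M (insert i J₀)) : Cp M (J₀ ∪ I) := by
  induction I using Finset.induction_on with
  | empty => rwa [Finset.union_empty]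
  | insert a I _ ih =>
    have h1 := ih (fun i hi => hI i (Finset.mem_insert_of_mem hi))
    by_cases ha : a ∈ J₀ ∪ I
    · rw [Finset.union_insert, Finset.insert_eq_of_mem ha]
      exact h1
    · rw [Finset.union_insert]
      exact ext hκ hT M Finset.subset_union_left hJ₀ ha h1 (hI a (Finset.mem_insert_self a I))

end Pool.Agent.H10.HM
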