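import Pool.Agent.H10.HM.SumD

/-!
# Module MissD: missing sets over a maximal complete set of blocks

For `i ∉ J` let `X i` be the set of the sets `insert x R`, `R ∈ powersetCard κ (uJ M J)`, `x ∈ M.edge i`, `insert x R ∉ F`. They are in `M.miss` (`(κ+1)`-subsets of `M.U`), `(R, x)` is determined by the set and `i` (`x` is its only element in `M.edge i`), and the `X i` are disjoint for different `i`.
`|X i| = (κ+1) binom |uJ| κ - ∑_R |Si M i R| ≥ 2 binom |uJ| κ` (`sumD_U`), `|uJ M J| = (κ+1) |J|`. Sum over the `s - |J|` indices.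
-/

set_option autoImplicit false

namespace Pool.Agent.H10.HM

open Finset
open Pool.Agent.H73.Cov

variable {V : Type} [DecidableEq V] {κ s : ℕ} {F : Finset (Finset V)}

theorem missD (hκ : 1 ≤ κ) (hT : Tight κ s F) (M : IMatch κ s F) {J : Finset (Fin s)}
    {Z : Finset V} (hZ : Disjoint Z M.U) (hZc : Z.card = κ) (hres : M.res J = powersetCard (κ + 1) (uJ M J ∪ Z))
    (hbig : 10 * (κ + 2) + mm κ * κ ≤ J.card) (hmax : ∀ i, i ∉ J → ¬ Cp M (insert i J)) :
    2 * (s - J.card) * (J.card * (κ + 1)).choose κ ≤ M.miss.card := by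
  classical
  have hU : (uJ M J).card = J.card * (κ + 1) := by
    unfold uJ
    rw [Finset.card_biUnion (fun i _ j _ hij => M.edge_disjoint hij),
      Finset.sum_congr rfl (fun i _ => M.edge_card i), Finset.sum_const, smul_eq_mul]
  have hnot : ∀ i, i ∉ J → ∀ x ∈ M.edge i, x ∉ uJ M J := by
    intro i hi x hx hxU
    unfold uJ at hxU
    rw [Finset.mem_biUnion] at hxU
    obtain ⟨j, hj, hxj⟩ := hxU
    have hij : i ≠ j := fun h => hi (h ▸ hj)
    exact Finset.disjoint_left.1 (M.edge_disjoint hij) hx hxj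
  have huU : uJ M J ⊆ M.U := by
    intro x hx
    unfold uJ at hx
    rw [Finset.mem_biUnion] at hx
    obtain ⟨j, _, hxj⟩ := hx
    exact M.edge_subset_U j hxj
  let D : Fin s → Finset (Finset V × V) := fun i =>
    ((powersetCard κ (uJ M J)) ×ˢ M.edge i).filter (fun p => insert p.2 p.1 ∉ F)
  have hD : ∀ i ∈ Jᶜ, 2 * (J.card * (κ + 1)).choose κ ≤ (D i).card := by
    intro i hi
    rw [Finset.mem_compl] at hi
    have h1 := sumD_U hκ hT M hi hZ hZc hres hbig (hmax i hi)
    have h2 : (D i).card = ∑ R ∈ powersetCard κ (uJ M J),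
        ((M.edge i).filter (fun x => insert x R ∉ F)).card := by
      simp only [D]
      rw [Finset.card_filter, Finset.sum_product]
      refine Finset.sum_congr rfl fun R _ => ?_
      rw [Finset.card_filter]
    have h3 : ∑ R ∈ powersetCard κ (uJ M J), (Si M i R).card + (D i).card =
        (κ + 1) * (uJ M J).card.choose κ := by
      rw [h2, ← Finset.sum_add_distrib]
      have h4 : ∀ R ∈ powersetCard κ (uJ M J), (Si M i R).card +
          ((M.edge i).filter (fun x => insert x R ∉ F)).card = κ + 1 := by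
        intro R _
        unfold Si
        rw [Finset.card_filter_add_card_filter_not, M.edge_card]
      rw [Finset.sum_congr rfl h4, Finset.sum_const, Finset.card_powersetCard, smul_eq_mul,
        mul_comm]
    rw [← hU]
    omega
  have hmap : (Jᶜ.sigma D).card ≤ M.miss.card := by
    refine Finset.card_le_card_of_injOn (fun q => insert q.2.2 q.2.1) ?_ ?_
    · rintro ⟨i, R, x⟩ hq
      rw [Finset.mem_coe, Finset.mem_sigma] at hq
      obtain ⟨hi, hq⟩ := hq
      simp only [D, Finset.mem_filter, Finset.mem_product, Finset.mem_powersetCard] at hq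
      obtain ⟨⟨⟨hR, hRc⟩, hx⟩, hF⟩ := hq
      have hi' : i ∉ J := Finset.mem_compl.1 hi
      have hxR : x ∉ R := fun h => hnot i hi' x hx (hR h)
      rw [Finset.mem_coe]
      unfold IMatch.miss
      rw [Finset.mem_sdiff, Finset.mem_powersetCard]
      refine ⟨⟨?_, ?_⟩, hF⟩
      · exact Finset.insert_subset (M.edge_subset_U i hx) (hR.trans huU)
      · rw [Finset.card_insert_of_notMem hxR, hRc]
    · rintro ⟨i, R, x⟩ hq ⟨i', R', x'⟩ hq' heq
      rw [Finset.mem_coe, Finset.mem_sigma] at hq hq'
      obtain ⟨hi, hq⟩ := hq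
      obtain ⟨hi', hq'⟩ := hq'
      simp only [D, Finset.mem_filter, Finset.mem_product, Finset.mem_powersetCard] at hq hq'
      obtain ⟨⟨⟨hR, hRc⟩, hx⟩, hF⟩ := hq
      obtain ⟨⟨⟨hR', hRc'⟩, hx'⟩, hF'⟩ := hq'
      have hiJ : i ∉ J := Finset.mem_compl.1 hi
      have hiJ' : i' ∉ J := Finset.mem_compl.1 hi'
      have hxR : x ∉ R := fun h => hnot i hiJ x hx (hR h)
      have hxR' : x' ∉ R' := fun h => hnot i' hiJ' x' hx' (hR' h)
      simp only at heq
      have hxx : x = x' := by
        have h1 : x ∈ insert x' R' := heq ▸ Finset.mem_insert_self x R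
        rw [Finset.mem_insert] at h1
        rcases h1 with h1 | h1
        · exact h1
        · exact absurd (hR' h1) (hnot i hiJ x hx)
      subst hxx
      have hii : i = i' := by
        by_contra hne
        exact Finset.disjoint_left.1 (M.edge_disjoint hne) hx hx'
      subst hii
      have hRR : R = R' := by
        rw [← Finset.erase_insert hxR, heq, Finset.erase_insert hxR']
      subst hRR
      rfl
  refine le_trans ?_ hmap
  rw [Finset.card_sigma]
  have h5 : ∑ _i ∈ Jᶜ, 2 * (J.card * (κ + 1)).choose κ ≤ ∑ i ∈ Jᶜ, (D i).card :=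
    Finset.sum_le_sum hD
  refine le_trans (le_of_eq ?_) h5
  rw [Finset.sum_const, Finset.card_compl, Fintype.card_fin, smul_eq_mul]
  ring

end Pool.Agent.H10.HM
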