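import Pool.Agent.H10.HM.Defs

/-!
# Module Num: numerical facts

`num_one`: `(j (κ+1)).choose κ * κ! ≥ (j (κ+1) + 1 - κ)^κ ≥ j^κ` (`Nat.pow_sub_le_descFactorial` or `Nat.pow_le_choose`), `s ≤ C₂ j`: `2 (s - j) j^κ ≤ κ! C₁ s^κ ≤ κ! C₁ C₂^κ j^κ`; `j ≥ 1` if `s ≥ 1`: `s - j ≤ κ! C₁ C₂^κ`.
`num_two`: `κ! (j (κ+1) + κ).choose κ ≥ j^κ`, `j ≥ s - C₃ ≥ s / 2`: `j^κ ≥ (s/2)^κ`, larger than `κ! C₅ s^(κ-1)` if `s > 2^κ κ! C₅` (and `s ≥ 2 C₃`).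
-/

set_option autoImplicit false

namespace Pool.Agent.H10.HM

open Finset

private theorem ch_ge (n k : ℕ) : (n + 1 - k) ^ k ≤ k.factorial * n.choose k := by
  rw [← Nat.descFactorial_eq_factorial_mul_choose]
  exact Nat.pow_sub_le_descFactorial n k

theorem num_one (κ C₁ C₂ : ℕ) (hκ : 1 ≤ κ) : ∃ C₃ : ℕ, ∀ s j : ℕ, 1 ≤ s → s ≤ C₂ * j →
    2 * (s - j) * (j * (κ + 1)).choose κ ≤ C₁ * s ^ κ → s - j ≤ C₃ := by
  refine ⟨κ.factorial * C₁ * C₂ ^ κ, fun s j hs hsj h => ?_⟩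
  have hj : 1 ≤ j := by
    rcases Nat.eq_zero_or_pos j with h0 | h0
    · subst h0
      omega
    · exact h0
  have h1 := ch_ge (j * (κ + 1)) κ
  have h2 : j ≤ j * (κ + 1) + 1 - κ := by
    have h3 : κ ≤ j * κ := Nat.le_mul_of_pos_left κ hj
    have h4 : j * (κ + 1) = j * κ + j := by ring
    omega
  have h3 : j ^ κ ≤ κ.factorial * (j * (κ + 1)).choose κ := (Nat.pow_le_pow_left h2 κ).trans h1
  have h4 : (2 * (s - j)) * j ^ κ ≤ (κ.factorial * C₁ * C₂ ^ κ) * j ^ κ := by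
    calc (2 * (s - j)) * j ^ κ ≤ (2 * (s - j)) * (κ.factorial * (j * (κ + 1)).choose κ) :=
          Nat.mul_le_mul_left _ h3
      _ = κ.factorial * (2 * (s - j) * (j * (κ + 1)).choose κ) := by ring
      _ ≤ κ.factorial * (C₁ * s ^ κ) := Nat.mul_le_mul_left _ h
      _ ≤ κ.factorial * (C₁ * (C₂ * j) ^ κ) :=
          Nat.mul_le_mul_left _ (Nat.mul_le_mul_left _ (Nat.pow_le_pow_left hsj κ))
      _ = (κ.factorial * C₁ * C₂ ^ κ) * j ^ κ := by rw [mul_pow]; ring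
  have h5 := Nat.le_of_mul_le_mul_right h4 (Nat.pow_pos hj)
  omega

theorem num_two (κ C₃ C₅ : ℕ) (hκ : 1 ≤ κ) : ∃ s₀ : ℕ, ∀ s j : ℕ, s₀ < s → s ≤ j + C₃ →
    C₅ * s ^ (κ - 1) < ((κ + 1) * j + κ).choose κ := by
  refine ⟨2 * C₃ + 2 ^ κ * κ.factorial * C₅, fun s j hs hsj => ?_⟩
  have hj : s ≤ 2 * j := by omega
  have hs0 : 0 < s := by omega
  have h1 := ch_ge ((κ + 1) * j + κ) κ
  have h2 : j ≤ (κ + 1) * j + κ + 1 - κ := by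
    have h4 : (κ + 1) * j = κ * j + j := by ring
    omega
  have h3 : j ^ κ ≤ κ.factorial * ((κ + 1) * j + κ).choose κ :=
    (Nat.pow_le_pow_left h2 κ).trans h1
  have h4 : s ^ κ ≤ 2 ^ κ * κ.factorial * ((κ + 1) * j + κ).choose κ := by
    calc s ^ κ ≤ (2 * j) ^ κ := Nat.pow_le_pow_left hj κ
      _ = 2 ^ κ * j ^ κ := mul_pow _ _ _
      _ ≤ 2 ^ κ * (κ.factorial * ((κ + 1) * j + κ).choose κ) := Nat.mul_le_mul_left _ h3
      _ = _ := by ring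
  have h5 : s ^ κ = s * s ^ (κ - 1) := by
    rw [← pow_succ']
    congr 1
    omega
  have h6 : 2 ^ κ * κ.factorial * C₅ < s := by omega
  have h7 : 2 ^ κ * κ.factorial * C₅ * s ^ (κ - 1) < s * s ^ (κ - 1) :=
    Nat.mul_lt_mul_of_pos_right h6 (Nat.pow_pos hs0)
  have h8 : 2 ^ κ * κ.factorial * (C₅ * s ^ (κ - 1)) <
      2 ^ κ * κ.factorial * ((κ + 1) * j + κ).choose κ := by
    calc 2 ^ κ * κ.factorial * (C₅ * s ^ (κ - 1)) = 2 ^ κ * κ.factorial * C₅ * s ^ (κ - 1) := by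
          ring
      _ < s ^ κ := by rw [h5]; exact h7
      _ ≤ _ := h4
  exact Nat.lt_of_mul_lt_mul_left h8

end Pool.Agent.H10.HM
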