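import Pool.Agent.H10.HM.Defs

/-!
# Module OfE: a matching from a family of disjoint members

As in `Tight.exists_imatch` (`Pool/Agent/H73/CovA.lean`): `e i ≃ Fin (κ + 1)` (`Finset.equivFinOfCardEq`), `v (i, a)` the `a`-th element of `e i`.
-/

set_option autoImplicit false

namespace Pool.Agent.H10.HM

open Finset
open Pool.Agent.H73.Cov

variable {V : Type} [DecidableEq V] {κ s : ℕ} {F : Finset (Finset V)}

theorem ofE (hF : ∀ f ∈ F, f.card = κ + 1) (e : Fin s → Finset V) (he : ∀ i, e i ∈ F)
    (hd : ∀ i j, i ≠ j → Disjoint (e i) (e j)) : ∃ M : IMatch κ s F, ∀ i, M.edge i = e i := by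
  classical
  let e2 : ∀ i : Fin s, (e i : Finset V) ≃ Fin (κ + 1) := fun i =>
    Finset.equivFinOfCardEq (hF (e i) (he i))
  have himg : ∀ i, univ.image (fun a : Fin (κ + 1) => (((e2 i).symm a : (e i : Finset V)) : V)) = e i := by
    intro i
    ext x
    simp only [Finset.mem_image, Finset.mem_univ, true_and]
    constructor
    · rintro ⟨a, rfl⟩
      exact ((e2 i).symm a).2
    · intro hx
      exact ⟨e2 i ⟨x, hx⟩, by simp⟩
  refine ⟨⟨fun p => (((e2 p.1).symm p.2 : (e p.1 : Finset V)) : V), ?_, ?_⟩, ?_⟩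
  · rintro ⟨i, a⟩ ⟨i', a'⟩ hh
    have hii : i = i' := by
      by_contra hne
      have h3 := hd i i' hne
      have h4 := ((e2 i).symm a).2
      have h5 := ((e2 i').symm a').2
      simp only at hh
      rw [← hh] at h5
      exact Finset.disjoint_left.1 h3 h4 h5
    subst hii
    have : a = a' := by
      apply (e2 i).symm.injective
      exact Subtype.ext hh
    rw [this]
  · intro i
    rw [himg i]
    exact he i
  · intro i
    exact himg i

end Pool.Agent.H10.HM
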