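import Pool.Agent.H10.HM.Ext
import Pool.Agent.H10.HM.OfE

/-!
# Module Swap: exchange of one block in the triangle case

`κ ≥ 2` (`Gp`). For `i ∈ I` let `Z i` be the set of `Gp M (insert i J₀)`, `|Z i| = κ - 2`. All `Z i` are equal: fix a row `R ⊆ uJ M J₀` (`exists_row`); for `z ∈ Z i` the set `insert z R` is in `F` (`Full`, `R ∪ {z} ⊆ uJ M (insert i J₀) ∪ Z i`); if `z ∉ Z j` then `insert z R ∈ M.res (insert j J₀)` (it meets `M.U` in `R`) is disjoint from `Z j`,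
not contained in `uJ M (insert j J₀)`, and has exactly one vertex outside: contradiction to `Gp`. So `Z i ⊆ Z j`. Call it `Z`.
`G₀ = M.res J₀` is tight with parameter `t = |J₀|`, `P = uJ M J₀`; `avoid` with a row `R` and `Z` (`|P| + |Z| < (κ+1) t + κ`): `f₀ ∈ G₀`, `f₀ ∩ P ⊆ R`, `f₀ ∩ Z = ∅`, so (`Gp`) `f₀ \ P` has two elements and `f₀ ∩ P` has `κ - 1`. `W₀ = (P ∪ Z) \ f₀` has `(κ+1) t + κ - 2 - (κ - 1) = (κ+1)(t-1) + κ` elements,
all its `(κ+1)`-subsets are in `F`. `exists_pk`: `t - 1` disjoint members `⊆ W₀` with union `Y`; `Z' = W₀ \ Y` has `κ` elements. New matching (`ofE`): the old blocks for `i ∉ J₀`; for one `j₀ ∈ J₀` the member `f₀`, for the others (`J₀ \ {j₀}` is in bijection with the `t - 1` members) the new members.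
`M'`: `J₀' = J₀ \ {j₀}`: `uJ M' J₀' ∪ Z' = W₀`, `Z'` is disjoint from `M'.U` (it is outside the new blocks, and outside the old blocks `i ∉ J₀` since `Z ∩ M.U = ∅`); `cp_of_full`: `Cp M' J₀'`, and for `i ∈ I`: `Cp M' (insert i J₀')` (`uJ M' (insert i J₀') ∪ Z' = W₀ ∪ M.edge i ⊆ uJ M (insert i J₀) ∪ Z`). `ext_all`: `J' = J₀' ∪ I`.
-/

set_option autoImplicit false

namespace Pool.Agent.H10.HM

open Finset
open Pool.Agent.H73.Cov

variable {V : Type} [DecidableEq V] {κ s : ℕ} {F : Finset (Finset V)}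

private lemma full_mono {P Q : Finset V} (h : Full κ F Q) (hPQ : P ⊆ Q) : Full κ F P :=
  fun f hf hc => h f (hf.trans hPQ) hc

private lemma uJ_mono' (M : IMatch κ s F) {J J' : Finset (Fin s)} (h : J ⊆ J') : uJ M J ⊆ uJ M J' :=
  biUnion_subset_biUnion_of_subset_left _ h

private lemma Z_sub (M : IMatch κ s F) {J₀ : Finset (Fin s)} (hJ₀ : 1 ≤ J₀.card) {i j : Fin s} {Z Z' : Finset V}
    (hZ : Disjoint Z M.U) (hF : Full κ F (uJ M (insert i J₀) ∪ Z)) (hZ' : Disjoint Z' M.U)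
    (h' : ∀ f ∈ M.res (insert j J₀), Disjoint f Z' → ¬ f ⊆ uJ M (insert j J₀) →
      (f \ uJ M (insert j J₀)).card = 2) : Z ⊆ Z' := by
  intro z hz
  by_contra hz'
  have hc : κ + (∅ : Finset V).card ≤ (uJ M J₀).card := by
    rw [uJ_card, card_empty]
    nlinarith
  obtain ⟨R, hR, hRc, -⟩ := exists_row hc
  have hzU : z ∉ M.U := disjoint_left.1 hZ hz
  have hRU : R ⊆ M.U := hR.trans (uJ_sub_U M J₀)
  have hzR : z ∉ R := fun h => hzU (hRU h)
  have h1 : insert z R ∈ F := by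
    refine hF _ ?_ (by rw [card_insert_of_notMem hzR, hRc])
    intro x hx
    rw [mem_insert] at hx
    rcases hx with rfl | hx
    · exact mem_union_right _ hz
    · exact mem_union_left _ (uJ_mono' M (subset_insert i J₀) (hR hx))
  have h2 : insert z R ∈ M.res (insert j J₀) := by
    refine mem_res_of M h1 ?_
    intro x hx
    rw [mem_inter, mem_insert] at hx
    obtain ⟨hx | hx, hxU⟩ := hx
    · exact absurd (hx ▸ hxU) hzU
    · exact uJ_mono' M (subset_insert j J₀) (hR hx)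
  have h3 : Disjoint (insert z R) Z' := by
    rw [disjoint_left]
    intro x hx hx'
    rw [mem_insert] at hx
    rcases hx with rfl | hx
    · exact hz' hx'
    · exact disjoint_left.1 hZ' hx' (hRU hx)
  have h4 : ¬ insert z R ⊆ uJ M (insert j J₀) := fun h => hzU (uJ_sub_U M _ (h (mem_insert_self z R)))
  have h5 := h' _ h2 h3 h4
  have h6 : insert z R \ uJ M (insert j J₀) ⊆ {z} := by
    intro x hx
    rw [mem_sdiff, mem_insert] at hx
    rw [mem_singleton]
    rcases hx.1 with hx1 | hx1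
    · exact hx1
    · exact absurd (uJ_mono' M (subset_insert j J₀) (hR hx1)) hx.2
  have h7 := card_le_card h6
  rw [card_singleton] at h7
  omega

private lemma mem_U_edge (M : IMatch κ s F) {x : V} (hx : x ∈ M.U) : ∃ i, x ∈ M.edge i := by
  obtain ⟨⟨i, a⟩, rfl⟩ := M.mem_U.1 hx
  exact ⟨i, M.mem_edge.2 ⟨a, rfl⟩⟩

theorem swap (hκ : 1 ≤ κ) (hT : Tight κ s F) (M : IMatch κ s F) {J₀ I : Finset (Fin s)} (hJ₀ : 10 * (κ + 2) + 1 ≤ J₀.card)
    (hI : I.Nonempty) (h : ∀ i ∈ I, i ∉ J₀ ∧ Gp M (insert i J₀)) :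
    ∃ (M' : IMatch κ s F) (J' : Finset (Fin s)), Cp M' J' ∧ I.card ≤ J'.card := by
  classical
  obtain ⟨i₁, hi₁⟩ := hI
  obtain ⟨hi₁J, Z, hZU, hZc, hZF, hZG⟩ := h i₁ hi₁
  have ht1 : 1 ≤ J₀.card := by omega
  -- the same set for all `i`
  have hall : ∀ i ∈ I, Full κ F (uJ M (insert i J₀) ∪ Z) := by
    intro i hi
    obtain ⟨-, Z', hZU', hZc', hZF', hZG'⟩ := h i hi
    have h1 : Z' = Z := Subset.antisymm (Z_sub M ht1 hZU' hZF' hZU hZG) (Z_sub M ht1 hZU hZF hZU' hZG')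
    rw [← h1]
    exact hZF'
  have hPc : (uJ M J₀).card = (κ + 1) * J₀.card := uJ_card M J₀
  have hPU : uJ M J₀ ⊆ M.U := uJ_sub_U M J₀
  have hPi : ∀ i, uJ M J₀ ⊆ uJ M (insert i J₀) := fun i => uJ_mono' M (subset_insert i J₀)
  have hPZ : Disjoint (uJ M J₀) Z := (hZU.mono_right hPU).symm
  -- the member `f₀`
  have hc : κ + (∅ : Finset V).card ≤ (uJ M J₀).card := by
    rw [hPc, card_empty]
    nlinarith
  obtain ⟨R, hR, hRc, -⟩ := exists_row hc
  obtain ⟨f₀, hf₀, hf₀R, hf₀Z⟩ := avoid (Z := Z) (M.tight_res hT J₀) hR (by omega)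
  have hf₀F : f₀ ∈ F := (M.mem_res.1 hf₀).1
  have hf₀c : f₀.card = κ + 1 := hT.1 f₀ hf₀F
  have hf₀U : f₀ ∩ M.U ⊆ uJ M J₀ := res_inter M hf₀
  have hf₀n : ¬ f₀ ⊆ uJ M (insert i₁ J₀) := by
    intro hs
    have h1 : f₀ ⊆ R := by
      intro x hx
      have h2 : x ∈ uJ M J₀ := hf₀U (mem_inter.2 ⟨hx, uJ_sub_U M _ (hs hx)⟩)
      exact hf₀R (mem_inter.2 ⟨hx, h2⟩)
    have h2 := card_le_card h1
    omega
  have h2c := hZG f₀ (res_mono M (subset_insert i₁ J₀) hf₀) hf₀Z hf₀n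
  have hsd : f₀ \ uJ M (insert i₁ J₀) = f₀ \ uJ M J₀ := by
    ext x
    rw [mem_sdiff, mem_sdiff]
    constructor
    · exact fun hx => ⟨hx.1, fun hx' => hx.2 (hPi i₁ hx')⟩
    · exact fun hx => ⟨hx.1, fun hx' => hx.2 (hf₀U (mem_inter.2 ⟨hx.1, uJ_sub_U M _ hx'⟩))⟩
  rw [hsd] at h2c
  have hf₀P : (f₀ ∩ uJ M J₀).card + 2 = κ + 1 := by
    have := card_sdiff_add_card_inter f₀ (uJ M J₀)
    omega
  -- the set `W₀`
  set W₀ : Finset V := (uJ M J₀ ∪ Z) \ f₀ with hW₀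
  have hW₀c : W₀.card = (κ + 1) * (J₀.card - 1) + κ := by
    have h1 := card_sdiff_add_card_inter (uJ M J₀ ∪ Z) f₀
    have h3 : (uJ M J₀ ∪ Z) ∩ f₀ = f₀ ∩ uJ M J₀ := by
      ext x
      rw [mem_inter, mem_union, mem_inter]
      constructor
      · rintro ⟨hx | hx, hx'⟩
        · exact ⟨hx', hx⟩
        · exact absurd hx (disjoint_left.1 hf₀Z hx')
      · exact fun hx => ⟨Or.inl hx.2, hx.1⟩
    rw [h3, card_union_of_disjoint hPZ, hPc, ← hW₀] at h1
    obtain ⟨t, ht⟩ : ∃ t, J₀.card = t + 1 := ⟨J₀.card - 1, by omega⟩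
    rw [ht] at h1 ⊢
    have e1 : (κ + 1) * (t + 1) = (κ + 1) * t + (κ + 1) := by ring
    rw [Nat.add_sub_cancel]
    omega
  have hW₀sub : W₀ ⊆ uJ M J₀ ∪ Z := sdiff_subset
  have hW₀F : Full κ F W₀ := full_mono hZF (hW₀sub.trans (union_subset_union (hPi i₁) (Subset.refl Z)))
  obtain ⟨Y, hYW, hYpk⟩ := exists_pk hW₀F hT.1 (J₀.card - 1) (by
    rw [hW₀c]
    have : (J₀.card - 1) * (κ + 1) = (κ + 1) * (J₀.card - 1) := Nat.mul_comm _ _
    omega)
  have hYc := hYpk.card hT.1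
  obtain ⟨N, hNF, hNd, hNc, hNY⟩ := hYpk
  have hNsub : ∀ f ∈ N, f ⊆ Y := fun f hf => by
    rw [← hNY]
    exact subset_biUnion_of_mem id hf
  -- the new matching
  obtain ⟨j₀, hj₀⟩ : J₀.Nonempty := card_pos.1 ht1
  have hJc : (J₀.erase j₀).card = J₀.card - 1 := card_erase_of_mem hj₀
  let φ : J₀.erase j₀ ≃ N := Finset.equivOfCardEq (by rw [hJc, hNc])
  let e : Fin s → Finset V := fun i =>
    if hi : i ∈ J₀.erase j₀ then ((φ ⟨i, hi⟩ : N) : Finset V) else if i = j₀ then f₀ else M.edge i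
  have e1 : ∀ i (hi : i ∈ J₀.erase j₀), e i = ((φ ⟨i, hi⟩ : N) : Finset V) := fun i hi => by
    simp only [e]
    rw [dif_pos hi]
  have e2 : e j₀ = f₀ := by simp [e]
  have e3 : ∀ i, i ∉ J₀ → e i = M.edge i := fun i hi => by
    have hne : i ≠ j₀ := fun h5 => hi (by rw [h5]; exact hj₀)
    have hne' : i ∉ J₀.erase j₀ := fun h5 => hi (mem_of_mem_erase h5)
    simp only [e]
    rw [dif_neg hne', if_neg hne]
  have ecase : ∀ i, i ∈ J₀.erase j₀ ∨ i = j₀ ∨ i ∉ J₀ := by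
    intro i
    by_cases h1 : i ∈ J₀
    · by_cases h2 : i = j₀
      · exact Or.inr (Or.inl h2)
      · exact Or.inl (mem_erase.2 ⟨h2, h1⟩)
    · exact Or.inr (Or.inr h1)
  have eY : ∀ i (_ : i ∈ J₀.erase j₀), e i ⊆ Y := fun i hi => by
    rw [e1 i hi]
    exact hNsub _ (φ ⟨i, hi⟩).2
  have hYf : Disjoint Y f₀ := by
    rw [disjoint_left]
    intro x hx
    exact (mem_sdiff.1 (hYW hx)).2
  have hWj : ∀ j, j ∉ J₀ → Disjoint (uJ M J₀ ∪ Z) (M.edge j) := by
    intro j hj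
    rw [disjoint_union_left]
    refine ⟨?_, hZU.mono_right (M.edge_subset_U j)⟩
    unfold uJ
    rw [disjoint_biUnion_left]
    exact fun i hi => M.edge_disjoint (fun hij => hj (hij ▸ hi))
  have heF : ∀ i, e i ∈ F := by
    intro i
    rcases ecase i with hi | rfl | hi
    · rw [e1 i hi]
      exact hNF (φ ⟨i, hi⟩).2
    · rw [e2]
      exact hf₀F
    · rw [e3 i hi]
      exact M.mem i
  have hd1 : ∀ i j, i ∈ J₀.erase j₀ → i ≠ j → Disjoint (e i) (e j) := by
    intro i j hi hij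
    rcases ecase j with hj | rfl | hj
    · rw [e1 i hi, e1 j hj]
      refine hNd (φ ⟨i, hi⟩).2 (φ ⟨j, hj⟩).2 ?_
      intro heq
      have h1 := φ.injective (Subtype.ext heq)
      exact hij (congrArg Subtype.val h1)
    · rw [e2]
      exact hYf.mono_left (eY i hi)
    · rw [e3 j hj]
      exact (hWj j hj).mono_left ((eY i hi).trans (hYW.trans hW₀sub))
  have hd : ∀ i j, i ≠ j → Disjoint (e i) (e j) := by
    intro i j hij
    rcases ecase i with hi | rfl | hi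
    · exact hd1 i j hi hij
    · rcases ecase j with hj | rfl | hj
      · exact (hd1 j i hj hij.symm).symm
      · exact absurd rfl hij
      · rw [e2, e3 j hj]
        exact (M.mem_res.1 hf₀).2 j hj
    · rcases ecase j with hj | rfl | hj
      · exact (hd1 j i hj hij.symm).symm
      · rw [e2, e3 i hi]
        exact ((M.mem_res.1 hf₀).2 i hi).symm
      · rw [e3 i hi, e3 j hj]
        exact M.edge_disjoint hij
  obtain ⟨M', hM'⟩ := ofE hT.1 e heF hd
  have hu' : uJ M' (J₀.erase j₀) ⊆ Y := by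
    unfold uJ
    rw [biUnion_subset]
    intro i hi
    rw [hM' i]
    exact eY i hi
  have huc : uJ M' (J₀.erase j₀) = Y := by
    refine eq_of_subset_of_card_le hu' ?_
    rw [hYc, uJ_card, hJc]
    exact (Nat.mul_comm _ _).le
  have hZ'U : Disjoint (W₀ \ Y) M'.U := by
    rw [disjoint_left]
    intro x hx hx'
    rw [mem_sdiff] at hx
    obtain ⟨i, hi⟩ := mem_U_edge M' hx'
    rw [hM' i] at hi
    rcases ecase i with hi' | rfl | hi'
    · exact hx.2 (eY i hi' hi)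
    · rw [e2] at hi
      exact (mem_sdiff.1 hx.1).2 hi
    · rw [e3 i hi'] at hi
      exact disjoint_left.1 (hWj i hi') (hW₀sub hx.1) hi
  have hZ'c : (W₀ \ Y).card = κ := by
    have h1 := card_sdiff_add_card_eq_card hYW
    rw [hW₀c, hYc] at h1
    have : (J₀.card - 1) * (κ + 1) = (κ + 1) * (J₀.card - 1) := Nat.mul_comm _ _
    omega
  have hsub0 : uJ M' (J₀.erase j₀) ∪ W₀ \ Y ⊆ W₀ := by
    rw [huc]
    exact union_subset hYW sdiff_subset
  have hCp0 : Cp M' (J₀.erase j₀) := cp_of_full hT M' hZ'U hZ'c (full_mono hW₀F hsub0)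
  have hCpi : ∀ i ∈ I, Cp M' (insert i (J₀.erase j₀)) := by
    intro i hi
    refine cp_of_full hT M' hZ'U hZ'c (full_mono (hall i hi) ?_)
    have hiJ : i ∉ J₀ := (h i hi).1
    intro x hx
    rw [mem_union] at hx
    have h5 : x ∈ M.edge i ∨ x ∈ W₀ := by
      rcases hx with hx | hx
      · unfold uJ at hx
        rw [biUnion_insert, mem_union] at hx
        rcases hx with hx | hx
        · rw [hM' i, e3 i hiJ] at hx
          exact Or.inl hx
        · exact Or.inr (hYW (hu' hx))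
      · exact Or.inr (mem_sdiff.1 hx).1
    rcases h5 with h5 | h5
    · refine mem_union_left _ ?_
      unfold uJ
      exact mem_biUnion.2 ⟨i, mem_insert_self i J₀, h5⟩
    · have h6 := hW₀sub h5
      rw [mem_union] at h6
      rcases h6 with h6 | h6
      · exact mem_union_left _ (hPi i h6)
      · exact mem_union_right _ h6
  refine ⟨M', J₀.erase j₀ ∪ I, ext_all hκ hT M' (by omega) hCp0 I hCpi, card_le_card subset_union_right⟩

end Pool.Agent.H10.HM
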