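import Pool.Agent.H10.HM.Nice
import Pool.Agent.H10.HM.Aver
import Pool.Agent.H10.HM.Swap
import Pool.Agent.H10.HM.MissD
import Pool.Agent.H10.HM.Cnt
import Pool.Agent.H10.HM.Num

/-!
# Module FinA: assembly
-/

set_option autoImplicit false

namespace Pool.Agent.H10.HM

open Finset
open Pool.Agent.H73.Cov

private lemma ar1 {s j κ : ℕ} (hκ : 1 ≤ κ) (h : s = j + 1) :
    s * (κ + 1) + κ - 2 = (κ + 1) * j + κ + (κ - 1) := by
  subst h
  have : (j + 1) * (κ + 1) = (κ + 1) * j + κ + 1 := by ring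
  omega

private lemma ar2 {s j κ : ℕ} (h : s = j + 1) : (κ + 1) * s = (κ + 1) * j + κ + 1 := by
  subst h
  ring

private lemma ar3 {s j T κ : ℕ} (h5 : 2 ≤ T * (κ + 1)) (h : s = j + T) :
    s * (κ + 1) + κ - 2 = (κ + 1) * j + κ + (T * (κ + 1) - 2) := by
  subst h
  have : (j + T) * (κ + 1) = (κ + 1) * j + T * (κ + 1) := by ring
  omega

/-- a large complete set of blocks for a suitable matching; few missing sets for all matchings -/
theorem bigC (κ : ℕ) (hκ : 1 ≤ κ) : ∃ C s₀ : ℕ, ∀ s, s₀ < s → ∀ (V : Type) [Fintype V] [DecidableEq V]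
    (F : Finset (Finset V)), Tight κ s F → gg κ s ≤ F.card →
      (∀ M : IMatch κ s F, M.miss.card ≤ C * s ^ κ) ∧
      ∃ (M : IMatch κ s F) (J : Finset (Fin s)), Cp M J ∧ s ≤ C * J.card := by
  classical
  obtain ⟨C, s₀, h⟩ := nice κ hκ
  refine ⟨2 * C, s₀, ?_⟩
  intro s hs V _ _ F hT hg
  have hN := h s hs V F hT hg
  refine ⟨fun M => (hN M).1.trans (Nat.mul_le_mul_right _ (by omega)), ?_⟩
  obtain ⟨M⟩ := hT.exists_imatch
  have h1 := (hN M).2
  have hmm : 10 * (κ + 2) + 2 ≤ mm κ * κ := by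
    unfold mm
    nlinarith [Nat.one_le_pow 3 (κ + 1) (by omega), Nat.pow_le_pow_left (show 1 ≤ κ + 1 by omega) 3, mul_self_nonneg (κ : ℤ), pow_succ (κ + 1) 2, sq (κ + 1)]
  have hm0 : 0 < mm κ := by
    unfold mm
    positivity
  have hπ : Fintype.card (Fin (mm κ) × Fin κ) = mm κ * κ := by simp
  set π₀ : Fin (mm κ) × Fin κ := (⟨0, hm0⟩, ⟨0, hκ⟩) with hπ₀
  set A := (univ : Finset (Fin (mm κ) × Fin κ → Fin s × Fin (κ + 1))).filter fun h =>
        Function.Injective (fun π => (h π).1) ∧ Cp M (univ.image fun π => (h π).1) with hA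
  set B := (univ : Finset (Fin (mm κ) × Fin κ → Fin s × Fin (κ + 1))).filter fun h =>
        Function.Injective (fun π => (h π).1) ∧ Gp M (univ.image fun π => (h π).1) with hB
  have h2 : (s * (κ + 1)) ^ (mm κ * κ) ≤ C * (A.card + B.card) := by
    refine h1.trans (Nat.mul_le_mul_left _ ?_)
    refine le_trans (Finset.card_le_card ?_) (Finset.card_union_le A B)
    intro g hg'
    rw [Finset.mem_filter] at hg'
    rw [Finset.mem_union, hA, hB, Finset.mem_filter, Finset.mem_filter]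
    rcases hg'.2.2 with h3 | h3
    · exact Or.inl ⟨hg'.1, hg'.2.1, h3⟩
    · exact Or.inr ⟨hg'.1, hg'.2.1, h3⟩
  rcases le_total B.card A.card with hAB | hAB
  · have h3 : (s * (κ + 1)) ^ Fintype.card (Fin (mm κ) × Fin κ) ≤ 2 * C * A.card := by
      rw [hπ]
      refine h2.trans ?_
      calc C * (A.card + B.card) ≤ C * (A.card + A.card) := Nat.mul_le_mul_left _ (by omega)
        _ = 2 * C * A.card := by ring
    obtain ⟨J₀, I, hJ₀, hI, hsI⟩ := aver (by omega) (Nat.succ_pos κ) π₀ (Cp M) h3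
    rw [hπ] at hJ₀
    have hne : I.Nonempty := by
      rw [Finset.nonempty_iff_ne_empty]
      rintro rfl
      simp at hsI
      omega
    obtain ⟨i₀, hi₀⟩ := hne
    have hJ0c : Cp M J₀ := cp_sub M (hI i₀ hi₀).2 (Finset.subset_insert _ _)
    have h4 := ext_all hκ hT M (by omega) hJ0c I (fun i hi => (hI i hi).2)
    refine ⟨M, J₀ ∪ I, h4, hsI.trans (Nat.mul_le_mul_left _ (Finset.card_le_card Finset.subset_union_right))⟩
  · have h3 : (s * (κ + 1)) ^ Fintype.card (Fin (mm κ) × Fin κ) ≤ 2 * C * B.card := by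
      rw [hπ]
      refine h2.trans ?_
      calc C * (A.card + B.card) ≤ C * (B.card + B.card) := Nat.mul_le_mul_left _ (by omega)
        _ = 2 * C * B.card := by ring
    obtain ⟨J₀, I, hJ₀, hI, hsI⟩ := aver (by omega) (Nat.succ_pos κ) π₀ (Gp M) h3
    rw [hπ] at hJ₀
    have hne : I.Nonempty := by
      rw [Finset.nonempty_iff_ne_empty]
      rintro rfl
      simp at hsI
      omega
    obtain ⟨M', J', hJ', hc⟩ := swap hκ hT M (by omega) hne hI
    exact ⟨M', J', hJ', hsI.trans (Nat.mul_le_mul_left _ hc)⟩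

/-- the core theorem -/
theorem core (κ : ℕ) (hκ : 1 ≤ κ) : ∃ s₀ : ℕ, ∀ s, s₀ < s → ∀ (V : Type) [Fintype V] [DecidableEq V]
    (F : Finset (Finset V)), Tight κ s F → gg κ s ≤ F.card →
      (∃ W : Finset V, W.card = (κ + 1) * s + κ ∧ F = powersetCard (κ + 1) W) ∨
      ∃ (W : Finset V) (x y z : V), x ≠ y ∧ y ≠ z ∧ x ≠ z ∧ x ∉ W ∧ y ∉ W ∧ z ∉ W ∧
        W.card + 2 = (κ + 1) * s + κ ∧ F ⊆ tri κ W x y z := by
  classical
  obtain ⟨C, s₁, hC⟩ := bigC κ hκ
  obtain ⟨C₃, hC₃⟩ := num_one κ C C hκ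
  obtain ⟨C₄, hC₄⟩ : ∃ C₄, C₄ = ((κ + 1) * (κ - 1 + C₃)) ^ (κ + 1) := ⟨_, rfl⟩
  obtain ⟨s₂, hs₂⟩ := num_two κ C₃ (mm κ * C₄) hκ
  refine ⟨s₁ + s₂ + C * (10 * (κ + 2) + mm κ * κ) + 1, ?_⟩
  intro s hs V _ _ F hT hg
  have hmm1 : 1 ≤ mm κ := by
    unfold mm
    exact Nat.succ_le_of_lt (by positivity)
  obtain ⟨hmiss, M, J₁, hJ₁, hsJ₁⟩ := hC s (by omega) V F hT hg
  obtain ⟨J, hJm, hJmax⟩ := Finset.exists_max_image ((univ : Finset (Finset (Fin s))).filter fun J => Cp M J)
    (fun J => J.card) ⟨J₁, Finset.mem_filter.2 ⟨mem_univ _, hJ₁⟩⟩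
  have hJ : Cp M J := (Finset.mem_filter.1 hJm).2
  have hsJ : s ≤ C * J.card := hsJ₁.trans (Nat.mul_le_mul_left _ (hJmax J₁ (Finset.mem_filter.2 ⟨mem_univ _, hJ₁⟩)))
  have hmax : ∀ i, i ∉ J → ¬ Cp M (insert i J) := by
    intro i hi hcp
    have := hJmax (insert i J) (Finset.mem_filter.2 ⟨mem_univ _, hcp⟩)
    rw [Finset.card_insert_of_notMem hi] at this
    omega
  have hbig : 10 * (κ + 2) + mm κ * κ ≤ J.card := by
    by_contra hcon
    push Not at hcon
    have h1 : C * J.card ≤ C * (10 * (κ + 2) + mm κ * κ) := Nat.mul_le_mul_left _ (by omega)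
    omega
  have hJs : J.card ≤ s := by simpa using Finset.card_le_univ J
  obtain ⟨Z, hZ, hZc, hres⟩ := hJ
  have hmd := missD hκ hT M hZ hZc hres hbig hmax
  have ht' : s - J.card ≤ C₃ := hC₃ s J.card (by omega) hsJ (hmd.trans (hmiss M))
  have hZuJ : Disjoint (uJ M J) Z := (hZ.mono_right (uJ_sub_U M J)).symm
  have hPc : (uJ M J ∪ Z).card = (κ + 1) * J.card + κ := by
    rw [Finset.card_union_of_disjoint hZuJ, uJ_card, hZc]
  obtain ⟨n, hn⟩ : ∃ n, n = (uJ M J ∪ Z).card := ⟨_, rfl⟩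
  have hn' : n = (κ + 1) * J.card + κ := by rw [hn, hPc]
  have hnum := hs₂ s J.card (by omega) (by omega)
  rw [← hn'] at hnum
  have hcnt := cnt hκ hT M hZ hres (by omega)
  rw [← hn] at hcnt
  have hlast : s ^ (κ - 1) * ((κ + 1) * (κ - 1 + (s - J.card))) ^ (κ + 1) ≤ C₄ * s ^ (κ - 1) := by
    rw [mul_comm, hC₄]
    exact Nat.mul_le_mul_right _ (Nat.pow_le_pow_left (Nat.mul_le_mul_left _ (by omega)) _)
  have hmmC : C₄ * s ^ (κ - 1) ≤ mm κ * C₄ * s ^ (κ - 1) := Nat.mul_le_mul_right _ (Nat.le_mul_of_pos_left _ hmm1)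
  have hcompl : Jᶜ.card = s - J.card := by
    rw [Finset.card_compl, Fintype.card_fin]
  rcases Nat.lt_or_ge (s - J.card) 2 with hlt | hge
  · rcases Nat.eq_zero_or_pos (s - J.card) with h0 | h1
    · -- everything is complete
      left
      have hJu : J = univ := by
        apply Finset.eq_univ_of_card
        rw [Fintype.card_fin]
        omega
      refine ⟨uJ M J ∪ Z, ?_, ?_⟩
      · rw [hPc]
        have : J.card = s := by omega
        rw [this]
      · rw [← hres, hJu, res_univ]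
    · -- one block remains
      have h1' : s - J.card = 1 := by omega
      rw [h1'] at hcompl
      obtain ⟨i, hi⟩ := Finset.card_eq_one.1 hcompl
      have hiJ : i ∉ J := by
        have : i ∈ Jᶜ := by rw [hi]; exact Finset.mem_singleton_self i
        exact Finset.mem_compl.1 this
      have hins : insert i J = univ := by
        apply Finset.eq_univ_of_card
        rw [Fintype.card_fin, Finset.card_insert_of_notMem hiJ]
        omega
      rcases sumD_or hκ hT M hiJ hZ hZc hres hbig (hmax i hiJ) with hor | ⟨Z₁, x, y, z, hZ₁, hZ₁c, hxy, hyz, hxz, hx, hy, hz, hsub⟩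
      · exfalso
        rw [← hn] at hor
        rw [hi, Finset.sum_singleton] at hcnt
        set S := ∑ R ∈ powersetCard κ (uJ M J ∪ Z), (Si M i R).card with hS
        have hgg : n.choose (κ + 1) + (κ - 1) * n.choose κ ≤ gg κ s := by
          refine (choose_add_ge n κ (κ - 1)).trans ?_
          unfold gg
          have e : s * (κ + 1) + κ - 2 = n + (κ - 1) := by
            rw [hn']
            exact ar1 hκ (by omega)
          rw [e]
          exact Nat.le_add_right _ _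
        have e1 : (κ + 1) * mm κ * n.choose κ = mm κ * ((κ - 1) * n.choose κ) + 2 * mm κ * n.choose κ := by
          obtain ⟨κ', rfl⟩ : ∃ κ', κ = κ' + 1 := ⟨κ - 1, by omega⟩
          simp only [Nat.add_sub_cancel]
          ring
        have e2 : (2 * mm κ + 1) * n.choose κ = 2 * mm κ * n.choose κ + n.choose κ := by ring
        rw [e1, e2] at hor
        have h2 : mm κ * F.card ≤ mm κ * (n.choose (κ + 1) + S + C₄ * s ^ (κ - 1)) :=
          Nat.mul_le_mul_left _ (by omega)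
        have h3 : mm κ * (n.choose (κ + 1) + (κ - 1) * n.choose κ) ≤ mm κ * F.card :=
          Nat.mul_le_mul_left _ (hgg.trans hg)
        have e3 : mm κ * (n.choose (κ + 1) + S + C₄ * s ^ (κ - 1)) = mm κ * n.choose (κ + 1) + mm κ * S + mm κ * C₄ * s ^ (κ - 1) := by ring
        have e4 : mm κ * (n.choose (κ + 1) + (κ - 1) * n.choose κ) = mm κ * n.choose (κ + 1) + mm κ * ((κ - 1) * n.choose κ) := by ring
        rw [e3] at h2
        rw [e4] at h3
        omega
      · right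
        rw [hins, res_univ] at hsub
        refine ⟨uJ M J ∪ Z ∪ Z₁, x, y, z, hxy, hyz, hxz, hx, hy, hz, ?_, hsub⟩
        rw [Finset.card_union_of_disjoint hZ₁.symm, hPc]
        have : (κ + 1) * s = (κ + 1) * J.card + κ + 1 := ar2 (by omega)
        omega
  · -- at least two blocks remain
    exfalso
    obtain ⟨T, hT'⟩ : ∃ T, T = s - J.card := ⟨_, rfl⟩
    rw [← hT'] at hcompl hge
    have hsum : ∑ i ∈ Jᶜ, ∑ R ∈ powersetCard κ (uJ M J ∪ Z), (Si M i R).card + T * (2 * n.choose κ) ≤ T * ((κ + 1) * n.choose κ) := by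
      have h1 : ∑ i ∈ Jᶜ, (∑ R ∈ powersetCard κ (uJ M J ∪ Z), (Si M i R).card + 2 * n.choose κ) ≤ ∑ _i ∈ Jᶜ, (κ + 1) * n.choose κ := by
        refine Finset.sum_le_sum fun i hi => ?_
        have hiJ := Finset.mem_compl.1 hi
        have := sumD hκ hT M hiJ hZ hZc hres hbig (hmax i hiJ)
        rwa [← hn] at this
      rw [Finset.sum_add_distrib, Finset.sum_const, Finset.sum_const, hcompl, smul_eq_mul, smul_eq_mul] at h1
      exact h1
    have hgg : n.choose (κ + 1) + (T * (κ + 1) - 2) * n.choose κ ≤ gg κ s := by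
      refine (choose_add_ge n κ (T * (κ + 1) - 2)).trans ?_
      unfold gg
      have e : s * (κ + 1) + κ - 2 = n + (T * (κ + 1) - 2) := by
        rw [hn']
        exact ar3 (by nlinarith) (by omega)
      rw [e]
      exact Nat.le_add_right _ _
    have h5 : 2 ≤ T * (κ + 1) := by nlinarith
    have e1 : (T * (κ + 1) - 2) * n.choose κ + 2 * n.choose κ = T * ((κ + 1) * n.choose κ) := by
      rw [← add_mul, Nat.sub_add_cancel h5]
      ring
    have h6 : 2 * (2 * n.choose κ) ≤ T * (2 * n.choose κ) := Nat.mul_le_mul_right _ hge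
    omega

end Pool.Agent.H10.HM
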