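import Mathlib

/-!
# Module Sdr: rows without a system of distinct representatives

As in `IMatch.structure_lemma` (`Pool/Agent/H73/CovC.lean`, copy it with `r` in place of `κ`). `A = {a : r ≤ |S a|}`.
If `|A| ≥ r + 1`: for `i, j ∈ A` choose an `(r+1)`-subset of `A` which contains both, indexed by `R₀ : Fin (r+1) → Fin m`; by `hno` and Hall's theorem (`Finset.all_card_le_biUnion_card_iff_exists_injective`) some subset `T` of the
index set has `|⋃_T S| < |T| ≤ r + 1`, so `T` is everything, `|⋃| = r` and all these `S` are equal of size `r`. So all `S a`, `a ∈ A`, are the same set of size `r`; if `A` is everything: second alternative; otherwise all `|S a| ≤ r` and one is `< r`: first.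
If `|A| ≤ r`: then `r ≥ 1` (for `r = 0` the set `A` is everything, `m ≥ 1`) and `∑ |S a| ≤ (r - 1) m + r c ≤ r m - 1`.
-/

set_option autoImplicit false

namespace Pool.Agent.H10.HM

open Finset

theorem sdr {V : Type} [DecidableEq V] {m r c : ℕ} (S : Fin m → Finset V) (hc : ∀ a, (S a).card ≤ c)
    (hm : r * c + r + 1 ≤ m)
    (hno : ∀ R₀ : Fin (r + 1) → Fin m, Function.Injective R₀ → ∀ z : Fin (r + 1) → V, Function.Injective z →
      (∀ a, z a ∈ S (R₀ a)) → False) :
    (∑ a, (S a).card + 1 ≤ r * m) ∨ ∃ Z : Finset V, Z.card = r ∧ ∀ a, S a = Z := by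
  classical
  set A : Finset (Fin m) := univ.filter (fun i => r ≤ (S i).card) with hA
  by_cases hAc : r + 1 ≤ A.card
  · have key : ∀ i ∈ A, ∀ j ∈ A, S i = S j ∧ (S i).card = r := by
      intro i hi j hj
      by_cases hr : r = 0
      · subst hr
        have h0 : ∀ a, S a = ∅ := by
          intro a
          by_contra hne
          obtain ⟨x, hx⟩ := Finset.nonempty_iff_ne_empty.2 hne
          exact hno (fun _ => a) (fun p q _ => Fin.ext (by omega)) (fun _ => x)
            (fun p q _ => Fin.ext (by omega)) (fun _ => hx)
        rw [h0 i, h0 j]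
        simp
      obtain ⟨B, hS1, hS2, hS3⟩ := Finset.exists_subsuperset_card_eq (s := {i, j}) (t := A)
        (n := r + 1) (by
          intro x hx
          rw [Finset.mem_insert, Finset.mem_singleton] at hx
          rcases hx with rfl | rfl
          · exact hi
          · exact hj)
        (le_trans (Finset.card_le_two) (by omega)) hAc
      let e : Fin (r + 1) ≃ B := (Finset.equivFinOfCardEq hS3).symm
      let R₀ : Fin (r + 1) → Fin m := fun c => (e c : Fin m)
      have hR : Function.Injective R₀ := fun c c' hcc => e.injective (Subtype.ext hcc)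
      have hRA : ∀ c, R₀ c ∈ A := fun c => hS2 (e c).2
      have hno' : ¬ ∀ T : Finset (Fin (r + 1)), T.card ≤ (T.biUnion (fun c => S (R₀ c))).card := by
        intro hall
        rw [Finset.all_card_le_biUnion_card_iff_exists_injective] at hall
        obtain ⟨z, hz, hz'⟩ := hall
        exact hno R₀ hR z hz hz'
      push Not at hno'
      obtain ⟨T, hTlt⟩ := hno'
      have hTne : T.Nonempty := by
        rw [Finset.nonempty_iff_ne_empty]
        rintro rfl
        simp at hTlt
      obtain ⟨c₀, hc₀⟩ := hTne
      have h1 : r ≤ (S (R₀ c₀)).card := (Finset.mem_filter.1 (hRA c₀)).2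
      have h2 : (S (R₀ c₀)).card ≤ (T.biUnion (fun c => S (R₀ c))).card :=
        Finset.card_le_card (Finset.subset_biUnion_of_mem (fun c => S (R₀ c)) hc₀)
      have h3 : T.card ≤ r + 1 := by simpa using Finset.card_le_univ T
      have hTu : T = univ := by
        apply Finset.eq_univ_of_card
        simp
        omega
      have hUc : (T.biUnion (fun c => S (R₀ c))).card = r := by omega
      have heq : ∀ c, S (R₀ c) = T.biUnion (fun c => S (R₀ c)) := by
        intro c
        apply Finset.eq_of_subset_of_card_le
        · exact Finset.subset_biUnion_of_mem (fun c => S (R₀ c)) (by rw [hTu]; exact mem_univ c)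
        · rw [hUc]
          exact (Finset.mem_filter.1 (hRA c)).2
      have hi' : ∃ c, R₀ c = i := ⟨e.symm ⟨i, hS1 (by simp)⟩, by simp [R₀]⟩
      have hj' : ∃ c, R₀ c = j := ⟨e.symm ⟨j, hS1 (by simp)⟩, by simp [R₀]⟩
      obtain ⟨ci, rfl⟩ := hi'
      obtain ⟨cj, rfl⟩ := hj'
      exact ⟨(heq ci).trans (heq cj).symm, by rw [heq ci, hUc]⟩
    by_cases hAu : A = univ
    · right
      have hm0 : 0 < m := by omega
      refine ⟨S ⟨0, hm0⟩, (key _ (by rw [hAu]; exact mem_univ _) _
        (by rw [hAu]; exact mem_univ ⟨0, hm0⟩)).2, ?_⟩
      intro i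
      exact (key i (by rw [hAu]; exact mem_univ _) _ (by rw [hAu]; exact mem_univ _)).1
    · left
      have hex : ∃ i, i ∉ A := by
        by_contra hc
        push Not at hc
        exact hAu (Finset.eq_univ_iff_forall.2 hc)
      obtain ⟨i₀, hi₀⟩ := hex
      have hle : ∀ i, (S i).card ≤ r := by
        intro i
        by_cases hi : i ∈ A
        · exact le_of_eq (key i hi i hi).2
        · rw [hA, Finset.mem_filter] at hi
          push Not at hi
          exact le_of_lt (hi (mem_univ _))
      have hlt : (S i₀).card < r := by
        rw [hA, Finset.mem_filter] at hi₀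
        push Not at hi₀
        exact hi₀ (mem_univ _)
      have : ∑ i, (S i).card < ∑ i : Fin m, r :=
        Finset.sum_lt_sum (fun i _ => hle i) ⟨i₀, mem_univ _, hlt⟩
      simp only [Finset.sum_const, Finset.card_univ, Fintype.card_fin, smul_eq_mul] at this
      rw [mul_comm r m]
      omega
  · left
    push Not at hAc
    have hr0 : r ≠ 0 := by
      rintro rfl
      have h0 : A = univ := by
        rw [hA]
        apply Finset.filter_true_of_mem
        intro i _
        exact Nat.zero_le _
      rw [h0, Finset.card_univ, Fintype.card_fin] at hAc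
      omega
    have h1 : ∑ i, (S i).card ≤ ∑ i : Fin m, ((r - 1) + if i ∈ A then c else 0) := by
      refine Finset.sum_le_sum (fun i _ => ?_)
      by_cases hi : i ∈ A
      · rw [if_pos hi]
        exact le_trans (hc _) (Nat.le_add_left _ _)
      · rw [if_neg hi]
        rw [hA, Finset.mem_filter] at hi
        push Not at hi
        have := hi (mem_univ _)
        omega
    rw [Finset.sum_add_distrib, ← Finset.sum_filter] at h1
    simp only [Finset.sum_const, Finset.card_univ, Fintype.card_fin, smul_eq_mul] at h1
    have h2 : (univ.filter (fun i => i ∈ A)).card ≤ r := by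
      have : univ.filter (fun i => i ∈ A) = A := by ext i; simp
      rw [this]
      omega
    have h3 := Nat.mul_le_mul_right c h2
    obtain ⟨r', rfl⟩ : ∃ r', r = r' + 1 := ⟨r - 1, by omega⟩
    simp only [Nat.add_sub_cancel] at h1
    nlinarith

end Pool.Agent.H10.HM
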