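import Pool.Agent.H10.HM.LocA
import Pool.Agent.H10.HM.Sdr

/-!
# Module LocC: rows of a family which is not complete

By `locA` (and `hn`) there is no system (`Sys κ G P Z ∅ R`) with `|Z| + 1 = w`, `Z` disjoint from `P`. If `w = 1` take `Z = ∅`: contradiction; so `w ≥ 2`, `r = w - 2`. A system of distinct representatives
`R₀ : Fin (r + 1) → Fin m`, `z a ∈ Sn G P (R (R₀ a))` gives a system with `Z = univ.image z`, `|Z| = r + 1 = w - 1` (rows `v ↦ R (R₀ a)` for `v = z a`, `Function.invFun` or `dite`). So `sdr` applies: `∑ + 1 ≤ r m` or all sets are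
equal to `Z` with `|Z| = r`.
-/

set_option autoImplicit false

namespace Pool.Agent.H10.HM

open Finset
open Pool.Agent.H73.Cov

variable {V : Type} [DecidableEq V] {κ t : ℕ} {G : Finset (Finset V)} {P : Finset V}

theorem locC (hκ : 1 ≤ κ) (hT : Tight κ t G) (hP : Full κ G P) {w : ℕ} (hw : P.card + w = (κ + 1) * t + κ)
    (hw1 : 1 ≤ w) (hbig : 10 * (κ + 1) * (w + 1) ≤ P.card) (hn : ¬ Cmp κ G) {m c : ℕ} {R : Fin m → Finset V}
    (hR : Rows κ m P R) (hc : ∀ a, (Sn G P (R a)).card ≤ c) (hm : w * c + w + 1 ≤ m) :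
    2 ≤ w ∧ (∑ a, (Sn G P (R a)).card + 2 * m + 1 ≤ w * m ∨
      ∃ Z : Finset V, Z.card + 2 = w ∧ ∀ a, Sn G P (R a) = Z) := by
  classical
  -- no system with `w - 1` points
  have key : ∀ (Z : Finset V) (R' : V → Finset V), Disjoint Z P → Z.card + 1 = w →
      Sys κ G P Z ∅ R' → False := by
    intro Z R' h1 h2 h3
    obtain ⟨Z₀, -, -, h4⟩ := locA hκ hT hP hw hbig h1 h2 h3
    exact hn ⟨P ∪ Z₀, h4⟩
  have hw2 : 2 ≤ w := by
    by_contra hcon
    have hw1' : w = 1 := by omega
    refine key ∅ (fun _ => ∅) (disjoint_empty_left P) (by rw [card_empty, hw1']) ?_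
    exact ⟨by simp, by simp, by simp, by simp, by simp⟩
  obtain ⟨r, rfl⟩ : ∃ r, w = r + 2 := ⟨w - 2, by omega⟩
  have hm' : r * c + r + 1 ≤ m := by
    have e : (r + 2) * c = r * c + 2 * c := by ring
    omega
  refine ⟨hw2, ?_⟩
  have hno : ∀ R₀ : Fin (r + 1) → Fin m, Function.Injective R₀ → ∀ z : Fin (r + 1) → V,
      Function.Injective z → (∀ a, z a ∈ Sn G P (R (R₀ a))) → False := by
    intro R₀ hR₀ z hz hmem
    have hmem' : ∀ a, z a ∉ P ∧ insert (z a) (R (R₀ a)) ∈ G := by
      intro a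
      have h1 := hmem a
      unfold Sn at h1
      rw [mem_filter, mem_sdiff] at h1
      exact ⟨h1.1.2, h1.2⟩
    have hext : ∀ a, Function.extend z (fun a => R (R₀ a)) (fun _ => ∅) (z a) = R (R₀ a) :=
      fun a => hz.extend_apply _ _ a
    refine key (univ.image z) (Function.extend z (fun a => R (R₀ a)) (fun _ => ∅)) ?_ ?_ ?_
    · rw [disjoint_left]
      intro v hv
      obtain ⟨a, -, rfl⟩ := mem_image.1 hv
      exact (hmem' a).1
    · rw [card_image_of_injective _ hz, card_univ, Fintype.card_fin]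
    · refine ⟨?_, ?_, ?_, ?_, ?_⟩
      · intro v hv
        obtain ⟨a, -, rfl⟩ := mem_image.1 hv
        rw [hext]
        exact hR.sub _
      · intro v hv
        obtain ⟨a, -, rfl⟩ := mem_image.1 hv
        rw [hext]
        exact hR.card _
      · intro v hv
        obtain ⟨a, -, rfl⟩ := mem_image.1 hv
        rw [hext]
        exact (hmem' a).2
      · intro v _
        exact disjoint_empty_right _
      · intro v hv v' hv' hne
        obtain ⟨a, -, rfl⟩ := mem_image.1 hv
        obtain ⟨b, -, rfl⟩ := mem_image.1 hv'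
        rw [hext, hext]
        refine hR.disj _ _ fun h => hne ?_
        rw [hR₀ h]
  rcases sdr (fun a => Sn G P (R a)) hc hm' hno with h | ⟨Z, hZ1, hZ2⟩
  · left
    have e : (r + 2) * m = r * m + 2 * m := by ring
    omega
  · exact Or.inr ⟨Z, by omega, hZ2⟩

end Pool.Agent.H10.HM
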