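import Mathlib

/-!
# Module Part: partition into transversals

Order `Fin s × Fin (κ + 1)` lexicographically (`Fin s ×ₗ Fin (κ + 1)`, `toLex`); let `ℓ : Fin (g (κ+1)) → Fin s × Fin (κ+1)` be an increasing enumeration of `g (κ + 1)` elements of `L` (`Finset.orderEmbOfFin` of the image of a subset of `L`).
Put `c i l = ℓ (l g + i)`, `i < g`, `l ≤ κ` (`l g + i < g (κ+1)`). `(i, l) ↦ l g + i` is injective. If `(c i l).1 = (c i l').1` with `l < l'` then all elements with index between `l g + i` and `l' g + i` have the same first coordinate (lexicographic order), these are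
at least `g + 1 ≥ κ + 2` different elements with the same first coordinate, but there are only `κ + 1`.
-/

set_option autoImplicit false

namespace Pool.Agent.H10.HM

open Finset

private lemma idx_lt {κ g : ℕ} (i : Fin g) (l : Fin (κ + 1)) : (l : ℕ) * g + i < g * (κ + 1) := by
  have h1 : (l : ℕ) + 1 ≤ κ + 1 := l.2
  have h2 := Nat.mul_le_mul_right g h1
  have h3 := i.2
  rw [mul_comm g (κ + 1)]
  rw [add_one_mul] at h2
  omega

theorem part {s κ g : ℕ} (L : Finset (Fin s × Fin (κ + 1))) (hL : g * (κ + 1) ≤ L.card) (hg : κ + 1 ≤ g) :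
    ∃ c : Fin g → Fin (κ + 1) → Fin s × Fin (κ + 1), (∀ i l, c i l ∈ L) ∧
      (∀ i l i' l', c i l = c i' l' → i = i' ∧ l = l') ∧ ∀ i, Function.Injective fun l => (c i l).1 := by
  classical
  have hcard : g * (κ + 1) ≤ (L.map (toLex : Fin s × Fin (κ + 1) ≃ Fin s ×ₗ Fin (κ + 1)).toEmbedding).card := by
    rwa [card_map]
  set e := (L.map (toLex : Fin s × Fin (κ + 1) ≃ Fin s ×ₗ Fin (κ + 1)).toEmbedding).orderEmbOfCardLe hcard with he
  refine ⟨fun i l => ofLex (e ⟨(l : ℕ) * g + i, idx_lt i l⟩), ?_, ?_, ?_⟩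
  · intro i l
    have := orderEmbOfCardLe_mem (L.map (toLex : Fin s × Fin (κ + 1) ≃ Fin s ×ₗ Fin (κ + 1)).toEmbedding) hcard
      ⟨(l : ℕ) * g + i, idx_lt i l⟩
    rw [mem_map] at this
    obtain ⟨x, hx, hx'⟩ := this
    show ofLex (e _) ∈ L
    rw [he, ← hx']
    exact hx
  · intro i l i' l' h
    have h1 : e ⟨(l : ℕ) * g + i, idx_lt i l⟩ = e ⟨(l' : ℕ) * g + i', idx_lt i' l'⟩ := ofLex.injective h
    have h2 := congrArg Fin.val (e.injective h1)
    have h3 : (l : ℕ) * g + i = (l' : ℕ) * g + i' := h2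
    have hg0 : 0 < g := by omega
    have e1 : ((l : ℕ) * g + i) % g = i := by
      rw [Nat.mul_comm, Nat.mul_add_mod, Nat.mod_eq_of_lt i.2]
    have e2 : ((l' : ℕ) * g + i') % g = i' := by
      rw [Nat.mul_comm, Nat.mul_add_mod, Nat.mod_eq_of_lt i'.2]
    have e3 : (i : ℕ) = i' := by rw [← e1, h3, e2]
    have e4 : (l : ℕ) * g = (l' : ℕ) * g := by omega
    exact ⟨Fin.ext e3, Fin.ext (Nat.eq_of_mul_eq_mul_right hg0 e4)⟩
  · intro i
    -- no two indices `l < l'` have the same first coordinate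
    have key : ∀ l l' : Fin (κ + 1), l < l' →
        (ofLex (e ⟨(l : ℕ) * g + i, idx_lt i l⟩)).1 ≠ (ofLex (e ⟨(l' : ℕ) * g + i, idx_lt i l'⟩)).1 := by
      intro l l' hll hEq
      have h1 : (l : ℕ) + 1 ≤ l' := hll
      have h2 := Nat.mul_le_mul_right g h1
      rw [add_one_mul] at h2
      have hlt : ∀ j : Fin (κ + 2), (l : ℕ) * g + i + j < g * (κ + 1) := by
        intro j
        have h3 := idx_lt i l'
        have h4 := j.2
        omega
      have hfst : ∀ j : Fin (κ + 2), (ofLex (e ⟨(l : ℕ) * g + i + j, hlt j⟩)).1 =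
          (ofLex (e ⟨(l : ℕ) * g + i, idx_lt i l⟩)).1 := by
        intro j
        have m1 : e ⟨(l : ℕ) * g + i, idx_lt i l⟩ ≤ e ⟨(l : ℕ) * g + i + j, hlt j⟩ := by
          apply e.monotone
          rw [Fin.le_def]
          show (l : ℕ) * g + i ≤ (l : ℕ) * g + i + j
          omega
        have m2 : e ⟨(l : ℕ) * g + i + j, hlt j⟩ ≤ e ⟨(l' : ℕ) * g + i, idx_lt i l'⟩ := by
          apply e.monotone
          rw [Fin.le_def]
          show (l : ℕ) * g + i + j ≤ (l' : ℕ) * g + i
          have := j.2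
          omega
        have f1 := Prod.Lex.monotone_fst _ _ m1
        have f2 := Prod.Lex.monotone_fst _ _ m2
        rw [← hEq] at f2
        exact le_antisymm f2 f1
      have hinj : Function.Injective fun j : Fin (κ + 2) => (ofLex (e ⟨(l : ℕ) * g + i + j, hlt j⟩)).2 := by
        intro j j' hj
        have h5 : ofLex (e ⟨(l : ℕ) * g + i + j, hlt j⟩) = ofLex (e ⟨(l : ℕ) * g + i + j', hlt j'⟩) :=
          Prod.ext ((hfst j).trans (hfst j').symm) hj
        have h6 := congrArg Fin.val (e.injective (ofLex.injective h5))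
        have h7 : (l : ℕ) * g + i + j = (l : ℕ) * g + i + j' := h6
        exact Fin.ext (by omega)
      have := Fintype.card_le_of_injective _ hinj
      simp at this
    intro l l' h
    rcases lt_trichotomy l l' with h1 | h1 | h1
    · exact absurd h (key l l' h1)
    · exact h1
    · exact absurd h.symm (key l' l h1)

end Pool.Agent.H10.HM
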