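import Pool.Agent.H10.HM.Bas
import Pool.Agent.H10.HM.Part

/-!
# Module TC: transversals force completeness of the blocks

`t = |J|`, `res J` is tight with parameter `t` (`M.tight_res`), `|uJ M J| = t (κ+1)`.
(1) PACKING: if `Pk (M.res J) n Y`, `n ≤ κ + 1`, then `|Y \ uJ M J| ≤ κ`. Otherwise let `L` be the set of the `p ∈ J × Fin (κ+1)` with `M.v p ∉ Y`: `|L| = t (κ+1) - |Y ∩ uJ M J| = t (κ+1) - n (κ+1) + |Y \ uJ M J| ≥ (t + 1 - n) (κ+1)`, `t + 1 - n ≥ κ + 1`.
`part` with `g = t + 1 - n` gives `g` disjoint transversal sets, they are in `res J` by `h` (`mem_res`) and disjoint from `Y`: together a matching in `res J` with `t + 1` members (`Pk.union`, `Pk.le`), a contradiction.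
(2) Let `A ⊆ uJ M J`, `|A| = κ + 1`, `A ∉ M.res J`. For every `j ≤ κ` there are `n ≤ j` and `Y` with `Pk (M.res J) n Y`, `Y ∩ A = ∅`, `j ≤ |Y \ uJ M J|` (induction: if `|Y \ uJ M J| = j < κ` take a row `R ⊆ uJ M J` disjoint from `A ∪ Y` (`exists_row`) and `f` from
`avoid` with `R` and `Y \ uJ M J`; `f` is disjoint from `Y` and `A`, and `f \ uJ M J ≠ ∅` since `|f| > |R|`).
(3) For `j = κ`: `|Y \ uJ M J| = κ` by (1), `avoid` with `R := A` and `Y \ uJ M J` gives `f ∈ res J`, `f ∩ uJ M J ⊆ A`, disjoint from `Y`, `f ≠ A`, so `f` is not contained in `uJ M J`, and `Y ∪ f` contradicts (1).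
-/

set_option autoImplicit false

namespace Pool.Agent.H10.HM

open Finset
open Pool.Agent.H73.Cov

variable {V : Type} [DecidableEq V] {κ s : ℕ} {F : Finset (Finset V)}

private theorem uJ_card (M : IMatch κ s F) (J : Finset (Fin s)) : (uJ M J).card = J.card * (κ + 1) := by
  unfold uJ
  rw [Finset.card_biUnion (fun i _ j _ hij => M.edge_disjoint hij)]
  rw [Finset.sum_congr rfl (fun i _ => M.edge_card i), Finset.sum_const, smul_eq_mul]

private theorem v_mem_uJ (M : IMatch κ s F) {J : Finset (Fin s)} {p : Fin s × Fin (κ + 1)} :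
    M.v p ∈ uJ M J ↔ p.1 ∈ J := by
  unfold uJ
  rw [Finset.mem_biUnion]
  constructor
  · rintro ⟨i, hi, hp⟩
    have := M.v_mem_edge.1 (show M.v (p.1, p.2) ∈ M.edge i from hp)
    rw [this]
    exact hi
  · intro hp
    exact ⟨p.1, hp, M.v_mem_edge.2 (show p.1 = p.1 from rfl)⟩

/-- the packing bound -/
private theorem packing (hT : Tight κ s F) (M : IMatch κ s F) {J : Finset (Fin s)} (hJ : 3 * κ + 4 ≤ J.card)
    (h : ∀ j : Fin (κ + 1) → Fin s, Function.Injective j → (∀ l, j l ∈ J) →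
      ∀ a : Fin (κ + 1) → Fin (κ + 1), univ.image (fun l => M.v (j l, a l)) ∈ F)
    {n : ℕ} {Y : Finset V} (hY : Pk (M.res J) n Y) (hn : n ≤ κ + 1) : (Y \ uJ M J).card ≤ κ := by
  by_contra hcon
  push Not at hcon
  have hG := M.tight_res hT J
  have hYc := hY.card hG.1
  obtain ⟨g, hg⟩ : ∃ g, n + g = J.card + 1 := ⟨J.card + 1 - n, by omega⟩
  have hgk : κ + 1 ≤ g := by omega
  obtain ⟨L, hL⟩ : ∃ L : Finset (Fin s × Fin (κ + 1)), L = (J ×ˢ (univ : Finset (Fin (κ + 1)))).filter fun p => M.v p ∉ Y :=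
    ⟨_, rfl⟩
  have hLc : L.card = (uJ M J \ Y).card := by
    rw [← Finset.card_image_of_injective L M.inj]
    congr 1
    ext x
    rw [Finset.mem_image, Finset.mem_sdiff]
    constructor
    · rintro ⟨p, hp, rfl⟩
      rw [hL, Finset.mem_filter, Finset.mem_product] at hp
      exact ⟨(v_mem_uJ M).2 hp.1.1, hp.2⟩
    · rintro ⟨hx, hxY⟩
      have hx' := hx
      unfold uJ at hx'
      obtain ⟨i, hi, hxi⟩ := Finset.mem_biUnion.1 hx'
      obtain ⟨a, rfl⟩ := M.mem_edge.1 hxi
      refine ⟨(i, a), ?_, rfl⟩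
      rw [hL, Finset.mem_filter, Finset.mem_product]
      exact ⟨⟨hi, Finset.mem_univ _⟩, hxY⟩
  have hcard : g * (κ + 1) ≤ L.card := by
    rw [hLc]
    have h1 := Finset.card_sdiff_add_card_inter (uJ M J) Y
    have h2 := Finset.card_sdiff_add_card_inter Y (uJ M J)
    rw [Finset.inter_comm] at h2
    have h3 := uJ_card M J
    have h4 : (n + g) * (κ + 1) = n * (κ + 1) + g * (κ + 1) := by ring
    have h5 : (n + g) * (κ + 1) = J.card * (κ + 1) + (κ + 1) := by rw [hg]; ring
    omega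
  obtain ⟨c, hc1, hc2, hc3⟩ := part L hcard hgk
  have hcL : ∀ i l, (c i l).1 ∈ J ∧ M.v (c i l) ∉ Y := by
    intro i l
    have := hc1 i l
    rw [hL, Finset.mem_filter, Finset.mem_product] at this
    exact ⟨this.1.1, this.2⟩
  obtain ⟨e, he⟩ : ∃ e : Fin g → Finset V, ∀ i, e i = univ.image (fun l => M.v (c i l)) := ⟨_, fun _ => rfl⟩
  have hmem : ∀ i, e i ∈ M.res J := by
    intro i
    rw [M.mem_res]
    refine ⟨?_, ?_⟩
    · rw [he]
      exact h (fun l => (c i l).1) (hc3 i) (fun l => (hcL i l).1) (fun l => (c i l).2)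
    · intro i' hi'
      rw [Finset.disjoint_left]
      intro x hx hx'
      rw [he, Finset.mem_image] at hx
      obtain ⟨l, -, rfl⟩ := hx
      have := M.v_mem_edge.1 (show M.v ((c i l).1, (c i l).2) ∈ M.edge i' from hx')
      exact hi' (this ▸ (hcL i l).1)
  have hdis : ∀ i i', i ≠ i' → Disjoint (e i) (e i') := by
    intro i i' hne
    rw [Finset.disjoint_left]
    intro x hx hx'
    rw [he, Finset.mem_image] at hx hx'
    obtain ⟨l, -, rfl⟩ := hx
    obtain ⟨l', -, hl'⟩ := hx'
    exact hne (hc2 i l i' l' (M.inj hl').symm).1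
  have hinj : Function.Injective e := by
    intro i i' hii
    by_contra hne
    have h1 := hdis i i' hne
    rw [hii, disjoint_self] at h1
    have h2 := hG.1 (e i') (hmem i')
    rw [h1] at h2
    simp at h2
  have hpk : Pk (M.res J) g (univ.biUnion e) := by
    refine ⟨univ.image e, ?_, ?_, ?_, ?_⟩
    · intro f hf
      rw [Finset.mem_image] at hf
      obtain ⟨i, -, rfl⟩ := hf
      exact hmem i
    · intro f hf f' hf' hne
      rw [Finset.mem_coe, Finset.mem_image] at hf hf'
      obtain ⟨i, -, rfl⟩ := hf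
      obtain ⟨i', -, rfl⟩ := hf'
      exact hdis i i' (fun hii => hne (by rw [hii]))
    · rw [Finset.card_image_of_injective _ hinj, Finset.card_univ, Fintype.card_fin]
    · rw [Finset.image_biUnion]
      rfl
  have hYe : Disjoint Y (univ.biUnion e) := by
    rw [Finset.disjoint_left]
    intro x hx hx'
    rw [Finset.mem_biUnion] at hx'
    obtain ⟨i, -, hx'⟩ := hx'
    rw [he, Finset.mem_image] at hx'
    obtain ⟨l, -, rfl⟩ := hx'
    exact (hcL i l).2 hx
  have hfin := (hY.union hG.1 hpk hYe).le hG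
  omega

theorem full_of_trans (hκ : 1 ≤ κ) (hT : Tight κ s F) (M : IMatch κ s F) {J : Finset (Fin s)} (hJ : 3 * κ + 4 ≤ J.card)
    (h : ∀ j : Fin (κ + 1) → Fin s, Function.Injective j → (∀ l, j l ∈ J) →
      ∀ a : Fin (κ + 1) → Fin (κ + 1), univ.image (fun l => M.v (j l, a l)) ∈ F) :
    Full κ (M.res J) (uJ M J) := by
  intro A hA hAc
  by_contra hAG
  have hG := M.tight_res hT J
  have hW := uJ_card M J
  have hW' : (uJ M J).card = (κ + 1) * J.card := by rw [hW, mul_comm]
  have key : ∀ j : ℕ, j ≤ κ → ∃ n ≤ j, ∃ Y : Finset V, Pk (M.res J) n Y ∧ Disjoint Y A ∧ j ≤ (Y \ uJ M J).card := by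
    intro j
    induction j with
    | zero =>
      exact fun _ => ⟨0, le_rfl, ∅, Pk.zero _, Finset.disjoint_empty_left _, Nat.zero_le _⟩
    | succ j ih =>
      intro hj
      obtain ⟨n, hn, Y, hY, hYA, hYc⟩ := ih (by omega)
      by_cases hlt : j + 1 ≤ (Y \ uJ M J).card
      · exact ⟨n, by omega, Y, hY, hYA, hlt⟩
      · have hYcard := hY.card hG.1
        obtain ⟨R, hRW, hRc, hRd⟩ := exists_row (κ := κ) (P := uJ M J) (Q := A ∪ Y) (by
          have h1 := Finset.card_union_le A Y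
          have h2 : n * (κ + 1) ≤ κ * (κ + 1) := Nat.mul_le_mul_right _ (by omega)
          have h3 : (3 * κ + 4) * (κ + 1) ≤ J.card * (κ + 1) := Nat.mul_le_mul_right _ hJ
          have h4 : (3 * κ + 4) * (κ + 1) = κ * (κ + 1) + (2 * κ + 4) * (κ + 1) := by ring
          have h5 : (2 * κ + 4) * (κ + 1) = κ + (κ + 1) + (2 * κ * κ + 4 * κ + 3) := by ring
          have h6 : 0 ≤ 2 * κ * κ + 4 * κ + 3 := Nat.zero_le _
          omega)
        obtain ⟨f, hf, hfW, hfZ⟩ := avoid hG (P := uJ M J) (Z := Y \ uJ M J) hRW (by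
          rw [hW', hRc]
          omega)
        rw [Finset.disjoint_union_right] at hRd
        have hfY : Disjoint Y f := by
          rw [Finset.disjoint_left]
          intro x hx hx'
          by_cases hxW : x ∈ uJ M J
          · exact Finset.disjoint_left.1 hRd.2 (hfW (Finset.mem_inter.2 ⟨hx', hxW⟩)) hx
          · exact Finset.disjoint_left.1 hfZ hx' (Finset.mem_sdiff.2 ⟨hx, hxW⟩)
        have hfA : Disjoint f A := by
          rw [Finset.disjoint_left]
          intro x hx hx'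
          exact Finset.disjoint_left.1 hRd.1 (hfW (Finset.mem_inter.2 ⟨hx, hA hx'⟩)) hx'
        have hfc := hG.1 f hf
        have hne : 1 ≤ (f \ uJ M J).card := by
          have h1 := Finset.card_sdiff_add_card_inter f (uJ M J)
          have h2 := Finset.card_le_card hfW
          omega
        refine ⟨n + 1, by omega, Y ∪ f, hY.union hG.1 (Pk.one hf) hfY, ?_, ?_⟩
        · rw [Finset.disjoint_union_left]
          exact ⟨hYA, hfA⟩
        · rw [Finset.union_sdiff_distrib, Finset.card_union_of_disjoint (hfY.mono Finset.sdiff_subset Finset.sdiff_subset)]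
          omega
  obtain ⟨n, hn, Y, hY, hYA, hYc⟩ := key κ le_rfl
  have h1 := packing hT M hJ h hY (by omega)
  obtain ⟨f, hf, hfW, hfZ⟩ := avoid hG (P := uJ M J) (Z := Y \ uJ M J) hA (by
    rw [hW', hAc]
    omega)
  have hfY : Disjoint Y f := by
    rw [Finset.disjoint_left]
    intro x hx hx'
    by_cases hxW : x ∈ uJ M J
    · exact Finset.disjoint_left.1 hYA hx (hfW (Finset.mem_inter.2 ⟨hx', hxW⟩))
    · exact Finset.disjoint_left.1 hfZ hx' (Finset.mem_sdiff.2 ⟨hx, hxW⟩)
  have hfc := hG.1 f hf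
  have hne : 1 ≤ (f \ uJ M J).card := by
    by_contra hlt
    have h2 : f \ uJ M J = ∅ := Finset.card_eq_zero.1 (by omega)
    rw [Finset.sdiff_eq_empty_iff_subset] at h2
    rw [Finset.inter_eq_left.2 h2] at hfW
    have h3 := Finset.eq_of_subset_of_card_le hfW (by omega)
    exact hAG (h3 ▸ hf)
  have h4 := packing hT M hJ h (hY.union hG.1 (Pk.one hf) hfY) (by omega)
  rw [Finset.union_sdiff_distrib, Finset.card_union_of_disjoint (hfY.mono Finset.sdiff_subset Finset.sdiff_subset)] at h4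
  omega

end Pool.Agent.H10.HM
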