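import Pool.Agent.H10.HM.Bas

/-!
# Module TriS: the triangle family

`tri_full`: if `f ⊆ W`, `|f| = κ + 1`, `f ∉ G`, then `(W \ f) ∪ {x, y}` meets every member of `G` (a member `g` without a vertex in it has `g ∩ {x,y,z} ⊆ {z}`, so `g ∩ {x,y,z} = ∅`, `g ⊆ W`, `g ⊆ f`, `g = f`), and has at most `|W| - (κ+1) + 2 < (κ+1) t` elements.
`tri_card`: the members with `f ∩ {x,y,z} = ∅` are the `(κ+1)`-subsets of `W`; those with `f ∩ {x,y,z} = e`, `e` one of the three pairs, are the sets `A ∪ e`, `A ∈ powersetCard (κ-1) W`.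
`tri_sub_eq`: a subfamily of the same size is equal (`Finset.eq_of_subset_of_card_le`).
`tri_tight`: `s ≥ 1`, `|W| + 2 = s (κ+1) + κ`. Matching number `≤ s`: a matching `N ⊆ tri` has at most one member which meets `{x,y,z}` (two pairs of `{x,y,z}` intersect); if there is none, `|N| (κ+1) ≤ |W| < (s+1)(κ+1)`; if there is one, the members have
together `|N| (κ+1) ≤ |W| + 2 < (s+1)(κ+1)` elements. Covering number `≥ s (κ+1)`: let `Y` be a cover, `r = |W \ Y|`; `r ≤ κ`, since otherwise a `(κ+1)`-subset of `W \ Y` is not met. If `r ≤ κ - 2`: `|Y| ≥ |W| - r ≥ s (κ+1)`. If `r ≥ κ - 1`: `Y` must meet the three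
sets `A ∪ e`, `A ⊆ W \ Y`, `|A| = κ - 1`, so `|Y ∩ {x,y,z}| ≥ 2` and `|Y| ≥ |W| - r + 2 ≥ s (κ+1)`. `tri_match`: a matching with `s` members exists: for `s ≥ 1`: `W` has `≥ (s-1)(κ+1) + (κ-1)` elements (`|W| = s(κ+1)+κ-2 = (s-1)(κ+1) + (2κ-1)`): a member `A ∪ {x,y}` and `s - 1` disjoint `(κ+1)`-subsets
of `W \ A` (`exists_pk`).
-/

set_option autoImplicit false

namespace Pool.Agent.H10.HM

open Finset
open Pool.Agent.H73.Cov

variable {V : Type} [DecidableEq V] {κ t : ℕ} {G : Finset (Finset V)} {W : Finset V} {x y z : V}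

private lemma mem_tri {f : Finset V} : f ∈ tri κ W x y z ↔
    (f ⊆ W ∪ {x, y, z} ∧ f.card = κ + 1) ∧ (f ∩ {x, y, z} = ∅ ∨ (f ∩ {x, y, z}).card = 2) := by
  unfold tri
  rw [mem_filter, mem_powersetCard]

private lemma split_eq {f W T : Finset V} (h : f ⊆ W ∪ T) : f ∩ T ∪ f ∩ W = f := by
  rw [← Finset.inter_union_distrib_left, Finset.union_comm T W]
  exact Finset.inter_eq_left.2 h

private lemma split_card {f W T : Finset V} (h : f ⊆ W ∪ T) (hd : Disjoint W T) :
    (f ∩ T).card + (f ∩ W).card = f.card := by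
  have h1 : Disjoint (f ∩ T) (f ∩ W) := (hd.mono Finset.inter_subset_right Finset.inter_subset_right).symm
  rw [← Finset.card_union_of_disjoint h1, split_eq h]

private lemma union_T {e A W T : Finset V} (he : e ⊆ T) (hA : A ⊆ W) (hd : Disjoint W T) : (e ∪ A) ∩ T = e := by
  ext v
  simp only [Finset.mem_inter, Finset.mem_union]
  constructor
  · rintro ⟨h | h, h'⟩
    · exact h
    · exact absurd h' (Finset.disjoint_left.1 hd (hA h))
  · exact fun h => ⟨Or.inl h, he h⟩

private lemma union_W {e A W T : Finset V} (he : e ⊆ T) (hA : A ⊆ W) (hd : Disjoint W T) : (e ∪ A) ∩ W = A := by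
  ext v
  simp only [Finset.mem_inter, Finset.mem_union]
  constructor
  · rintro ⟨h | h, h'⟩
    · exact absurd (he h) (Finset.disjoint_left.1 hd h')
    · exact h
  · exact fun h => ⟨Or.inr h, hA h⟩

private lemma disj_T (hx : x ∉ W) (hy : y ∉ W) (hz : z ∉ W) : Disjoint W ({x, y, z} : Finset V) := by
  rw [Finset.disjoint_left]
  intro v hv hv'
  simp only [Finset.mem_insert, Finset.mem_singleton] at hv'
  rcases hv' with rfl | rfl | rfl
  · exact hx hv
  · exact hy hv
  · exact hz hv

theorem tri_full (hT : Tight κ t G) (hx : x ∉ W) (hy : y ∉ W) (hz : z ∉ W) (hW : W.card + 2 = (κ + 1) * t + κ)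
    (h : G ⊆ tri κ W x y z) : Full κ G W := by
  intro f hfW hfc
  by_contra hf
  have h1 := hT.2.2 ((W \ f) ∪ {x, y}) (by
    intro g hg
    by_contra hne
    rw [Finset.not_nonempty_iff_eq_empty] at hne
    have hd : ∀ v ∈ g, v ∉ (W \ f) ∪ {x, y} := by
      intro v hv hv'
      have h3 : v ∈ g ∩ ((W \ f) ∪ {x, y}) := Finset.mem_inter.2 ⟨hv, hv'⟩
      rw [hne] at h3
      simp at h3
    obtain ⟨⟨h2, h3⟩, h4⟩ := mem_tri.1 (h hg)
    have hx' : x ∉ g := fun hx' => hd x hx' (by simp)
    have hy' : y ∉ g := fun hy' => hd y hy' (by simp)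
    have h5 : g ∩ {x, y, z} ⊆ {z} := by
      intro v hv
      rw [Finset.mem_inter] at hv
      simp only [Finset.mem_insert, Finset.mem_singleton] at hv ⊢
      rcases hv with ⟨hv1, rfl | rfl | rfl⟩
      · exact absurd hv1 hx'
      · exact absurd hv1 hy'
      · rfl
    have h6 : g ∩ {x, y, z} = ∅ := by
      rcases h4 with h4 | h4
      · exact h4
      · have := Finset.card_le_card h5
        rw [h4, Finset.card_singleton] at this
        omega
    have h7 : g ⊆ f := by
      intro v hv
      have h8 := h2 hv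
      rw [Finset.mem_union] at h8
      rcases h8 with h8 | h8
      · by_contra hvf
        exact hd v hv (Finset.mem_union_left _ (Finset.mem_sdiff.2 ⟨h8, hvf⟩))
      · have h9 : v ∈ g ∩ {x, y, z} := Finset.mem_inter.2 ⟨hv, h8⟩
        rw [h6] at h9
        simp at h9
    have h10 := Finset.eq_of_subset_of_card_le h7 (by rw [hfc, h3])
    exact hf (h10 ▸ hg))
  have h2 := Finset.card_sdiff_add_card_eq_card hfW
  have h3 := Finset.card_union_le (W \ f) {x, y}
  have h4 : ({x, y} : Finset V).card ≤ 2 := Finset.card_le_two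
  omega

theorem tri_card (hκ : 1 ≤ κ) (hxy : x ≠ y) (hyz : y ≠ z) (hxz : x ≠ z) (hx : x ∉ W) (hy : y ∉ W) (hz : z ∉ W) :
    (tri κ W x y z).card = W.card.choose (κ + 1) + 3 * W.card.choose (κ - 1) := by
  have hTc : ({x, y, z} : Finset V).card = 3 := Finset.card_eq_three.2 ⟨x, y, z, hxy, hxz, hyz, rfl⟩
  have hd := disj_T hx hy hz
  have e1 : tri κ W x y z = powersetCard (κ + 1) W ∪
      ((powersetCard 2 ({x, y, z} : Finset V) ×ˢ powersetCard (κ - 1) W).image fun p => p.1 ∪ p.2) := by
    ext f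
    rw [mem_tri, mem_union, mem_powersetCard, mem_image]
    constructor
    · rintro ⟨⟨h1, h2⟩, h3 | h3⟩
      · left
        refine ⟨?_, h2⟩
        intro v hv
        rcases mem_union.1 (h1 hv) with h | h
        · exact h
        · exfalso
          have h4 : v ∈ f ∩ {x, y, z} := mem_inter.2 ⟨hv, h⟩
          rw [h3] at h4
          simp at h4
      · right
        have h4 := split_card h1 hd
        refine ⟨(f ∩ {x, y, z}, f ∩ W), ?_, split_eq h1⟩
        rw [mem_product, mem_powersetCard, mem_powersetCard]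
        refine ⟨⟨inter_subset_right, h3⟩, inter_subset_right, ?_⟩
        show (f ∩ W).card = κ - 1
        omega
    · rintro (⟨h1, h2⟩ | ⟨⟨e, A⟩, h1, rfl⟩)
      · refine ⟨⟨h1.trans subset_union_left, h2⟩, Or.inl ?_⟩
        rw [← Finset.disjoint_iff_inter_eq_empty]
        exact hd.mono_left h1
      · rw [mem_product, mem_powersetCard, mem_powersetCard] at h1
        obtain ⟨⟨h2, h3⟩, h4, h5⟩ := h1
        dsimp only at h2 h3 h4 h5 ⊢
        have h6 : Disjoint e A := (hd.mono h4 h2).symm
        refine ⟨⟨Finset.union_subset (h2.trans subset_union_right) (h4.trans subset_union_left), ?_⟩, Or.inr ?_⟩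
        · rw [Finset.card_union_of_disjoint h6]
          omega
        · rw [union_T h2 h4 hd, h3]
  have e2 : Disjoint (powersetCard (κ + 1) W)
      ((powersetCard 2 ({x, y, z} : Finset V) ×ˢ powersetCard (κ - 1) W).image fun p => p.1 ∪ p.2) := by
    rw [Finset.disjoint_left]
    intro f hf hf'
    rw [mem_powersetCard] at hf
    rw [mem_image] at hf'
    obtain ⟨⟨e, A⟩, h1, rfl⟩ := hf'
    rw [mem_product, mem_powersetCard, mem_powersetCard] at h1
    obtain ⟨⟨h2, h3⟩, h4, h5⟩ := h1
    dsimp only at h2 h3 h4 h5 hf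
    have h6 : Disjoint e e := hd.mono (subset_union_left.trans hf.1) h2
    rw [disjoint_self] at h6
    rw [h6] at h3
    simp at h3
  have e3 : Set.InjOn (fun p : Finset V × Finset V => p.1 ∪ p.2)
      ((powersetCard 2 ({x, y, z} : Finset V) ×ˢ powersetCard (κ - 1) W : Finset (Finset V × Finset V)) : Set (Finset V × Finset V)) := by
    rintro ⟨e, A⟩ h1 ⟨e', A'⟩ h1' he
    rw [Finset.mem_coe, mem_product, mem_powersetCard, mem_powersetCard] at h1 h1'
    dsimp only at h1 h1' he
    have h2 : e = e' := by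
      rw [← union_T h1.1.1 h1.2.1 hd, ← union_T h1'.1.1 h1'.2.1 hd, he]
    have h3 : A = A' := by
      rw [← union_W h1.1.1 h1.2.1 hd, ← union_W h1'.1.1 h1'.2.1 hd, he]
    rw [h2, h3]
  rw [e1, Finset.card_union_of_disjoint e2, Finset.card_image_of_injOn e3, Finset.card_product, Finset.card_powersetCard,
    Finset.card_powersetCard, Finset.card_powersetCard, hTc]
  rfl

theorem tri_tight (hκ : 1 ≤ κ) (ht : 1 ≤ t) (hxy : x ≠ y) (hyz : y ≠ z) (hxz : x ≠ z) (hx : x ∉ W) (hy : y ∉ W) (hz : z ∉ W)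
    (hW : W.card + 2 = (κ + 1) * t + κ) : Tight κ t (tri κ W x y z) := by
  have hTc : ({x, y, z} : Finset V).card = 3 := Finset.card_eq_three.2 ⟨x, y, z, hxy, hxz, hyz, rfl⟩
  have hd := disj_T hx hy hz
  refine ⟨fun f hf => (mem_tri.1 hf).1.2, ?_, ?_⟩
  · intro N hN hNd
    have h1 : (N.biUnion id).card = N.card * (κ + 1) := by
      rw [Finset.card_biUnion (fun f hf f' hf' hne => hNd hf hf' hne)]
      have h5 : ∀ f ∈ N, (id f : Finset V).card = κ + 1 := fun f hf => (mem_tri.1 (hN hf)).1.2
      rw [Finset.sum_congr rfl h5, Finset.sum_const, smul_eq_mul]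
    have h2 : (N.biUnion id ∩ {x, y, z}).card = ∑ f ∈ N, (f ∩ {x, y, z}).card := by
      rw [Finset.biUnion_inter, Finset.card_biUnion]
      · rfl
      · intro f hf f' hf' hne
        exact (hNd hf hf' hne).mono Finset.inter_subset_left Finset.inter_subset_left
    have h3 : 2 ∣ (N.biUnion id ∩ {x, y, z}).card := by
      rw [h2]
      refine Finset.dvd_sum fun f hf => ?_
      rcases (mem_tri.1 (hN hf)).2 with h | h
      · rw [h]
        simp
      · rw [h]
    have h4 : (N.biUnion id ∩ {x, y, z}).card ≤ 3 := by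
      rw [← hTc]
      exact Finset.card_le_card Finset.inter_subset_right
    have h5 : N.biUnion id ⊆ W ∪ {x, y, z} := by
      intro v hv
      rw [Finset.mem_biUnion] at hv
      obtain ⟨f, hf, hvf⟩ := hv
      exact (mem_tri.1 (hN hf)).1.1 hvf
    have h6 := split_card h5 hd
    have h7 : (N.biUnion id ∩ W).card ≤ W.card := Finset.card_le_card Finset.inter_subset_right
    by_contra hcon
    push Not at hcon
    have h8 : (t + 1) * (κ + 1) ≤ N.card * (κ + 1) := Nat.mul_le_mul_right _ hcon
    have h9 : (t + 1) * (κ + 1) = (κ + 1) * t + (κ + 1) := by ring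
    omega
  · intro Y hY
    have h1 : (W \ Y).card ≤ κ := by
      by_contra hcon
      push Not at hcon
      obtain ⟨f, hf, hfc⟩ := Finset.exists_subset_card_eq (show κ + 1 ≤ (W \ Y).card from hcon)
      have hfW : f ⊆ W := hf.trans Finset.sdiff_subset
      have h2 := hY f (mem_tri.2 ⟨⟨hfW.trans subset_union_left, hfc⟩, Or.inl (by
        rw [← Finset.disjoint_iff_inter_eq_empty]
        exact hd.mono_left hfW)⟩)
      obtain ⟨v, hv⟩ := h2
      rw [Finset.mem_inter] at hv
      exact (Finset.mem_sdiff.1 (hf hv.1)).2 hv.2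
    have h2 : (W \ Y).card + (W ∩ Y).card = W.card := Finset.card_sdiff_add_card_inter W Y
    have h3 : (Y ∩ W).card + (Y ∩ {x, y, z}).card ≤ Y.card := by
      have h4 : Disjoint (Y ∩ W) (Y ∩ {x, y, z}) := hd.mono Finset.inter_subset_right Finset.inter_subset_right
      rw [← Finset.card_union_of_disjoint h4]
      exact Finset.card_le_card (Finset.union_subset Finset.inter_subset_left Finset.inter_subset_left)
    rw [Finset.inter_comm Y W] at h3
    by_cases h4 : (W \ Y).card + 2 ≤ κ
    · omega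
    · have h5 : κ - 1 ≤ (W \ Y).card := by omega
      obtain ⟨A, hA, hAc⟩ := Finset.exists_subset_card_eq h5
      have hAW : A ⊆ W := hA.trans Finset.sdiff_subset
      have h6 : (({x, y, z} : Finset V) \ Y).card ≤ 1 := by
        by_contra hcon
        push Not at hcon
        obtain ⟨e, he, hec⟩ := Finset.exists_subset_card_eq (show 2 ≤ (({x, y, z} : Finset V) \ Y).card from hcon)
        have heT : e ⊆ {x, y, z} := he.trans Finset.sdiff_subset
        have h7 : Disjoint e A := (hd.mono hAW heT).symm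
        have h8 := hY (e ∪ A) (mem_tri.2 ⟨⟨Finset.union_subset (heT.trans subset_union_right) (hAW.trans subset_union_left), by
          rw [Finset.card_union_of_disjoint h7]
          omega⟩, Or.inr (by rw [union_T heT hAW hd, hec])⟩)
        obtain ⟨v, hv⟩ := h8
        rw [Finset.mem_inter, Finset.mem_union] at hv
        rcases hv with ⟨hv | hv, hvY⟩
        · exact (Finset.mem_sdiff.1 (he hv)).2 hvY
        · exact (Finset.mem_sdiff.1 (hA hv)).2 hvY
      have h7 := Finset.card_sdiff_add_card_inter ({x, y, z} : Finset V) Y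
      rw [Finset.inter_comm ({x, y, z} : Finset V) Y] at h7
      omega

end Pool.Agent.H10.HM
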