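import Pool.Agent.H10.HM.LocB
import Pool.Agent.H10.HM.LocC
import Pool.Agent.H10.HM.TC
import Pool.Agent.H10.HM.TriS
import Pool.Agent.H10.HM.CpC
import Pool.Agent.H73.CovC

/-!
# Module Frame: the types of a frame

`J = ix h`, `|J| = mm κ * κ = t` (`M.inj_of_not_E0 hh`), `P = uJ M J`, `|P| = (κ+1) t`, `w = κ`, `G = M.res J` (`M.tight_res`). `Full κ G P` by `full_of_trans` (a tuple of different indices in `J` is `(h (ι l)).1` with `ι` injective, and `M.full_of_not_E0`).
If `Cmp κ G`: `cp_of_cmp`. Otherwise the rows `R i = M.B (fun p => h (i, p))` satisfy `Rows κ (mm κ) P R` (`M.inj`), `Sn G P (R i) = M.row h i` (a `z ∈ Sn` is not in `M.U` by `res_inter`; conversely `M.insert_mem_res`), `|Sn| ≤ (κ+1) κ` (`M.Nb_card_le`); `locC` with `c = (κ+1) κ`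
(`mm κ = 20 (κ+1)^3` is large enough): either the third alternative or all rows are equal to `Z`, `|Z| + 2 = κ`; then `locB` gives `G ⊆ tri κ (P ∪ Z) x y z`; `Full κ F (P ∪ Z)` by `tri_full` (`|P ∪ Z| + 2 = (κ+1) t + κ`); `Z` is disjoint from `M.U` (rows); and if `f ∈ G` is disjoint from `Z` and not contained
in `P` then `f ∩ {x,y,z}` has two elements and is `f \ P`.
-/

set_option autoImplicit false

namespace Pool.Agent.H10.HM

open Finset
open Pool.Agent.H73.Cov

variable {V : Type} [Fintype V] [DecidableEq V] {κ s : ℕ} {F : Finset (Finset V)}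

theorem frame (hκ : 1 ≤ κ) (hT : Tight κ s F) (M : IMatch κ s F) {h : Fin (mm κ) × Fin κ → Fin s × Fin (κ + 1)}
    (hh : h ∉ M.E0 (Fin (mm κ) × Fin κ)) :
    Cp M (univ.image fun π => (h π).1) ∨ Gp M (univ.image fun π => (h π).1) ∨
      ∑ i, (M.row h i).card + 2 * mm κ + 1 ≤ κ * mm κ := by
  classical
  have hinj := M.inj_of_not_E0 hh
  obtain ⟨J, hJdef⟩ : ∃ J : Finset (Fin s), J = univ.image fun π => (h π).1 := ⟨_, rfl⟩
  rw [← hJdef]
  have hJmem : ∀ π, (h π).1 ∈ J := fun π => by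
    rw [hJdef]
    exact Finset.mem_image_of_mem _ (Finset.mem_univ π)
  have hJc : J.card = mm κ * κ := by
    rw [hJdef, Finset.card_image_of_injective _ hinj]
    simp
  have hcube : 8 ≤ (κ + 1) ^ 3 := by
    calc 8 = 2 ^ 3 := by norm_num
      _ ≤ (κ + 1) ^ 3 := Nat.pow_le_pow_left (by omega) 3
  have hmm1 : 160 ≤ mm κ := by
    unfold mm
    omega
  have hq1 : κ + 1 ≤ (κ + 1) ^ 3 := by
    calc κ + 1 = (κ + 1) ^ 1 := (pow_one _).symm
      _ ≤ (κ + 1) ^ 3 := Nat.pow_le_pow_right (by omega) (by norm_num)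
  have hmm2 : 20 * (κ + 1) ≤ mm κ := by
    unfold mm
    omega
  have hmm3 : κ * ((κ + 1) * κ) + κ + 1 ≤ mm κ := by
    unfold mm
    nlinarith [hκ, sq_nonneg κ, Nat.zero_le (κ ^ 3), Nat.zero_le (κ ^ 2)]
  have hmκ : mm κ ≤ mm κ * κ := Nat.le_mul_of_pos_right _ hκ
  have hTJ := M.tight_res hT J
  have hPc : (uJ M J).card = (κ + 1) * J.card := uJ_card M J
  have hPfull : Full κ (M.res J) (uJ M J) := by
    refine full_of_trans hκ hT M (by omega) ?_
    intro j hj hjJ a
    have hex : ∀ l, ∃ π, (h π).1 = j l := by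
      intro l
      have h1 := hjJ l
      rw [hJdef, Finset.mem_image] at h1
      obtain ⟨π, -, h2⟩ := h1
      exact ⟨π, h2⟩
    choose ι hι using hex
    have hιinj : Function.Injective ι := by
      intro l l' hll
      apply hj
      rw [← hι l, ← hι l', hll]
    have h1 := M.full_of_not_E0 hh ι hιinj a
    have h2 : (fun l => M.v ((h (ι l)).1, a l)) = fun l => M.v (j l, a l) := by
      funext l
      rw [hι l]
    rw [h2] at h1
    exact h1
  by_cases hn : Cmp κ (M.res J)
  · left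
    exact cp_of_cmp hT M (by omega) hn
  right
  have hRows : Rows κ (mm κ) (uJ M J) (fun i => M.B (fun p => h (i, p))) := by
    refine ⟨?_, ?_, ?_⟩
    · intro a x hx
      obtain ⟨p, rfl⟩ := M.mem_B.1 hx
      exact Finset.mem_biUnion.2 ⟨(h (a, p)).1, hJmem _, M.mem_edge.2 ⟨(h (a, p)).2, rfl⟩⟩
    · intro a
      show (M.B (fun p => h (a, p))).card = κ
      rw [IMatch.B, Finset.card_image_of_injective]
      · simp
      · intro p q hpq
        have h1 := M.inj hpq
        have h2 := hinj (congrArg Prod.fst h1)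
        rw [Prod.mk.injEq] at h2
        exact h2.2
    · intro a b hab
      rw [Finset.disjoint_left]
      intro x hx hx'
      obtain ⟨p, rfl⟩ := M.mem_B.1 hx
      obtain ⟨q, hq⟩ := M.mem_B.1 hx'
      have h1 := M.inj hq
      have h2 := hinj (congrArg Prod.fst h1)
      rw [Prod.mk.injEq] at h2
      exact hab h2.1.symm
  have hSn : ∀ i, Sn (M.res J) (uJ M J) (M.B (fun p => h (i, p))) = M.row h i := by
    intro i
    ext z
    show z ∈ ((M.res J).biUnion id \ uJ M J).filter (fun z => insert z (M.B (fun p => h (i, p))) ∈ M.res J) ↔ z ∈ M.Nb (fun p => h (i, p))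
    rw [Finset.mem_filter, Finset.mem_sdiff, M.mem_Nb]
    constructor
    · rintro ⟨⟨-, h1⟩, h2⟩
      refine ⟨fun h3 => h1 (res_inter M h2 (Finset.mem_inter.2 ⟨Finset.mem_insert_self _ _, h3⟩)), (M.mem_res.1 h2).1⟩
    · rintro ⟨h1, h2⟩
      have h3 := M.insert_mem_res (J := J) (b := fun p => h (i, p)) (fun p => hJmem _) h1 h2
      exact ⟨⟨Finset.mem_biUnion.2 ⟨_, h3, Finset.mem_insert_self _ _⟩, fun h4 => h1 (uJ_sub_U M J h4)⟩, h3⟩
  have hw : (uJ M J).card + κ = (κ + 1) * J.card + κ := by rw [hPc]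
  have hbig : 10 * (κ + 1) * (κ + 1) ≤ (uJ M J).card := by
    rw [hPc, hJc]
    have h1 : 10 * (κ + 1) ≤ mm κ * κ := by omega
    calc 10 * (κ + 1) * (κ + 1) = (κ + 1) * (10 * (κ + 1)) := by ring
      _ ≤ (κ + 1) * (mm κ * κ) := Nat.mul_le_mul_left _ h1
  obtain ⟨hκ2, hC⟩ := locC hκ hTJ hPfull hw hκ hbig hn hRows (c := (κ + 1) * κ) (fun a => by
    rw [hSn a]
    exact M.Nb_card_le hT _) hmm3
  rcases hC with hC | ⟨Z, hZc, hZ⟩
  · right
    have h1 : ∑ a, (Sn (M.res J) (uJ M J) (M.B (fun p => h (a, p)))).card = ∑ i, (M.row h i).card :=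
      Finset.sum_congr rfl (fun i _ => by rw [hSn i])
    rw [h1] at hC
    exact hC
  · left
    obtain ⟨x, y, z, hxy, hyz, hxz, hx, hy, hz, htri⟩ := locB hκ hTJ hPfull hw hbig hn hRows (by omega) hZc hZ
    have hZU : Disjoint Z M.U := by
      rw [Finset.disjoint_left]
      intro u hu
      have h1 := hZ ⟨0, by omega⟩
      rw [hSn] at h1
      rw [← h1] at hu
      exact (M.mem_Nb.1 hu).1
    have hPZ : Disjoint (uJ M J) Z := (hZU.mono_right (uJ_sub_U M J)).symm
    have hWc : (uJ M J ∪ Z).card + 2 = (κ + 1) * J.card + κ := by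
      rw [Finset.card_union_of_disjoint hPZ, hPc]
      omega
    have hfull := tri_full hTJ hx hy hz hWc htri
    refine ⟨Z, hZU, hZc, fun f hf hfc => (M.mem_res.1 (hfull f hf hfc)).1, ?_⟩
    intro f hf hfZ hfP
    have h1 := htri hf
    rw [tri, Finset.mem_filter, Finset.mem_powersetCard] at h1
    obtain ⟨⟨h1, -⟩, h2⟩ := h1
    have h3 : f \ uJ M J = f ∩ {x, y, z} := by
      ext u
      rw [Finset.mem_sdiff, Finset.mem_inter]
      constructor
      · rintro ⟨h4, h5⟩
        refine ⟨h4, ?_⟩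
        have h6 := h1 h4
        rw [Finset.mem_union, Finset.mem_union] at h6
        rcases h6 with (h6 | h6) | h6
        · exact absurd h6 h5
        · exact absurd h6 (Finset.disjoint_left.1 hfZ h4)
        · exact h6
      · rintro ⟨h4, h5⟩
        refine ⟨h4, fun h6 => ?_⟩
        rw [Finset.mem_insert, Finset.mem_insert, Finset.mem_singleton] at h5
        rcases h5 with rfl | rfl | rfl
        · exact hx (Finset.mem_union_left _ h6)
        · exact hy (Finset.mem_union_left _ h6)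
        · exact hz (Finset.mem_union_left _ h6)
    rcases h2 with h2 | h2
    · exfalso
      apply hfP
      rw [← Finset.sdiff_eq_empty_iff_subset, h3, h2]
    · rw [h3, h2]

end Pool.Agent.H10.HM
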