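import Pool.Agent.H10.HM.Defs

/-!
# Module Katona: average over disjoint rows

Fix disjoint `κ`-subsets `R₀ a` of `P` (`a < m`; for example from `P.equivFin` or an induction). For a permutation `σ` of `P` (as `Equiv.Perm P`, `P` as a subtype, or the permutations of `V` which map `P` to itself) the sets `σ (R₀ a)` are rows. For `κ`-subsets `A, B` of `P` the number of `σ` with
`σ A = B` does not depend on `B` (multiply by a permutation with `τ B = B'`), nor on `A`; call it `c`, `c · binom |P| κ = |P|!`, `c > 0`. Sum of `hB` over all `σ`: `∑_a ∑_σ f (σ (R₀ a)) = m c ∑_R f R ≤ B |P|! = B c binom |P| κ`. Cancel `c`.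
-/

set_option autoImplicit false

namespace Pool.Agent.H10.HM

open Finset

private theorem exists_perm {α : Type} [Fintype α] [DecidableEq α] {A A' : Finset α} (h : A.card = A'.card) :
    ∃ τ : Equiv.Perm α, A.map τ.toEmbedding = A' := by
  let e : A ≃ A' := Finset.equivOfCardEq h
  refine ⟨Equiv.extendSubtype (p := fun x => x ∈ A) (q := fun x => x ∈ A') e, ?_⟩
  apply Finset.eq_of_subset_of_card_le
  · intro x hx
    rw [Finset.mem_map] at hx
    obtain ⟨a, ha, rfl⟩ := hx
    have h1 := Equiv.extendSubtype_mem (p := fun x => x ∈ A) (q := fun x => x ∈ A') e a ha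
    exact h1
  · rw [Finset.card_map, h]

private theorem sum_perm_eq {α : Type} [Fintype α] [DecidableEq α] (g : Finset α → ℕ) {A A' : Finset α}
    (h : A.card = A'.card) :
    ∑ σ : Equiv.Perm α, g (A.map σ.toEmbedding) = ∑ σ : Equiv.Perm α, g (A'.map σ.toEmbedding) := by
  obtain ⟨τ, hτ⟩ := exists_perm h
  rw [← hτ]
  symm
  refine Fintype.sum_equiv (Equiv.mulRight τ) _ _ (fun σ => ?_)
  rw [Finset.map_map]
  congr 2

private theorem sum_all {α : Type} [Fintype α] [DecidableEq α] (g : Finset α → ℕ) (κ : ℕ) {A : Finset α}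
    (hA : A.card = κ) :
    (Fintype.card α).choose κ * ∑ σ : Equiv.Perm α, g (A.map σ.toEmbedding) =
      (Fintype.card α).factorial * ∑ R ∈ powersetCard κ (univ : Finset α), g R := by
  have h1 : ∑ A' ∈ powersetCard κ (univ : Finset α), ∑ σ : Equiv.Perm α, g (A'.map σ.toEmbedding)
      = (Fintype.card α).choose κ * ∑ σ : Equiv.Perm α, g (A.map σ.toEmbedding) := by
    rw [Finset.sum_congr rfl (fun A' hA' => sum_perm_eq g (A' := A)
      (by rw [(Finset.mem_powersetCard.1 hA').2, hA]))]
    rw [Finset.sum_const, Finset.card_powersetCard, Finset.card_univ, smul_eq_mul]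
  rw [← h1, Finset.sum_comm]
  have h2 : ∀ σ : Equiv.Perm α, ∑ A' ∈ powersetCard κ (univ : Finset α), g (A'.map σ.toEmbedding)
      = ∑ R ∈ powersetCard κ (univ : Finset α), g R := by
    intro σ
    refine Finset.sum_bij' (fun A' _ => A'.map σ.toEmbedding) (fun R _ => R.map σ.symm.toEmbedding)
      ?_ ?_ ?_ ?_ ?_
    · intro A' hA'
      simp only [Finset.mem_powersetCard] at hA' ⊢
      exact ⟨Finset.subset_univ _, by rw [Finset.card_map]; exact hA'.2⟩
    · intro A' hA'
      simp only [Finset.mem_powersetCard] at hA' ⊢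
      exact ⟨Finset.subset_univ _, by rw [Finset.card_map]; exact hA'.2⟩
    · intro A' _
      ext x
      simp
    · intro A' _
      ext x
      simp
    · intro A' _
      rfl
  rw [Finset.sum_congr rfl (fun σ _ => h2 σ), Finset.sum_const, smul_eq_mul, Finset.card_univ,
    Fintype.card_perm]

theorem katona {V : Type} [DecidableEq V] {P : Finset V} {κ m B : ℕ} (hP : m * κ ≤ P.card) (f : Finset V → ℕ)
    (hB : ∀ R : Fin m → Finset V, Rows κ m P R → ∑ a, f (R a) ≤ B) :
    m * ∑ R ∈ powersetCard κ P, f R ≤ B * P.card.choose κ := by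
  classical
  let ι : P ↪ V := Function.Embedding.subtype _
  let g : Finset P → ℕ := fun A => f (A.map ι)
  have hcard : Fintype.card (Fin m × Fin κ) ≤ Fintype.card P := by
    simpa using hP
  obtain ⟨e⟩ := Function.Embedding.nonempty_of_card_le hcard
  let R₀ : Fin m → Finset P := fun a =>
    (univ : Finset (Fin κ)).map ⟨fun i => e (a, i), fun i j hij => by
      have := e.injective hij
      exact (Prod.mk.inj this).2⟩
  have hR₀card : ∀ a, (R₀ a).card = κ := by
    intro a
    simp [R₀]
  have hR₀disj : ∀ a b, a ≠ b → Disjoint (R₀ a) (R₀ b) := by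
    intro a b hab
    rw [Finset.disjoint_left]
    intro x hx hx'
    simp only [R₀, Finset.mem_map, Finset.mem_univ, true_and] at hx hx'
    obtain ⟨i, hi⟩ := hx
    obtain ⟨j, hj⟩ := hx'
    have := e.injective (hi.trans hj.symm)
    exact hab (Prod.mk.inj this).1
  have h1 : ∀ σ : Equiv.Perm P, ∑ a, g ((R₀ a).map σ.toEmbedding) ≤ B := by
    intro σ
    refine hB (fun a => ((R₀ a).map σ.toEmbedding).map ι) ⟨?_, ?_, ?_⟩
    · intro a x hx
      rw [Finset.mem_map] at hx
      obtain ⟨y, _, rfl⟩ := hx
      exact y.2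
    · intro a
      rw [Finset.card_map, Finset.card_map]
      exact hR₀card a
    · intro a b hab
      rw [Finset.disjoint_map, Finset.disjoint_map]
      exact hR₀disj a b hab
  have h2 : ∑ σ : Equiv.Perm P, ∑ a, g ((R₀ a).map σ.toEmbedding) ≤ (Fintype.card P).factorial * B := by
    refine (Finset.sum_le_sum fun σ _ => h1 σ).trans ?_
    rw [Finset.sum_const, smul_eq_mul, Finset.card_univ, Fintype.card_perm]
  rw [Finset.sum_comm] at h2
  have h3 : (Fintype.card P).choose κ * ∑ a, ∑ σ : Equiv.Perm P, g ((R₀ a).map σ.toEmbedding)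
      = (Fintype.card P).factorial * (m * ∑ R ∈ powersetCard κ (univ : Finset P), g R) := by
    rw [Finset.mul_sum, Finset.sum_congr rfl (fun a _ => sum_all g κ (hR₀card a)), Finset.sum_const,
      smul_eq_mul, Finset.card_univ, Fintype.card_fin]
    ring
  have h4 : ∑ R ∈ powersetCard κ (univ : Finset P), g R = ∑ R ∈ powersetCard κ P, f R := by
    have e1 : powersetCard κ P = (powersetCard κ (univ : Finset P)).map ⟨fun A => A.map ι, Finset.map_injective ι⟩ := by
      have e2 : (univ : Finset P).map ι = P := by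
        ext x
        simp [ι]
      nth_rewrite 1 [← e2]
      rw [Finset.powersetCard_map]
      rfl
    rw [e1, Finset.sum_map]
    rfl
  rw [h4] at h3
  have hc : Fintype.card P = P.card := Fintype.card_coe P
  rw [hc] at h2 h3
  have h5 : P.card.factorial * (m * ∑ R ∈ powersetCard κ P, f R) ≤ P.card.factorial * (B * P.card.choose κ) := by
    rw [← h3]
    calc P.card.choose κ * ∑ a, ∑ σ : Equiv.Perm P, g ((R₀ a).map σ.toEmbedding)
        ≤ P.card.choose κ * (P.card.factorial * B) := Nat.mul_le_mul_left _ h2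
      _ = P.card.factorial * (B * P.card.choose κ) := by ring
  exact Nat.le_of_mul_le_mul_left h5 (Nat.factorial_pos _)

end Pool.Agent.H10.HM
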