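import Pool.Agent.H10.HM.Bas

/-!
# Module LocA: `w - 1` rows with distinct neighbours force completeness

1. A row `R₀ ⊆ P` disjoint from all `R z` (`exists_row`, `Q = Z.biUnion R`); `avoid` with `R₀` and `Z` (`|Z| < w`) gives `f ∈ G`, `f ∩ P ⊆ R₀`, `f ∩ Z = ∅`. `Sys.pack` (`Y = f`, rows `R`, `Q = f ∩ P`):
`|f \ P| + |Z| ≤ w`, so `|f \ P| ≤ 1`, and `= 1` since `|f| = κ + 1 > |R₀|`; so `f = insert z₀ R₀`, `z₀ ∉ P ∪ Z`. So there is a system with `Z₀ = insert z₀ Z`, `|Z₀| = w`, rows `R'` (`Function.update`). Put `Q₀ = Z₀.biUnion R'`.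
2. If `f ∈ G`, `f ∩ P` is disjoint from the rows of a system with index set `Z₀`, then `f \ P ⊆ Z₀`: `Sys.pack`: `|f \ P| + |Z₀ \ f| ≤ w = |Z₀|`, so `|f \ P| ≤ |Z₀ ∩ f|`, and `Z₀ ∩ f ⊆ f \ P` (`Z₀` is disjoint from `P`), so equality.
3. For a row `R₁` disjoint from `Q₀` and `z ∈ Z₀`: `avoid` with `Z₀ \ {z}` gives `f ∈ G` with `f ∩ P ⊆ R₁`, `f ∩ (Z₀ \ z) = ∅`; by 2 `f \ P ⊆ {z}`, so `f = insert z R₁` (cardinalities).
4. For every `f ∈ G`: `w` disjoint rows which avoid `f` and `Q₀` (`exists_rows`; `w κ + (κ + 1) + w κ ≤ |P|`), assigned to the elements of `Z₀` (`Z₀.equivFin` ...), form a system by 3, so `f \ P ⊆ Z₀` by 2.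
5. `tight_eq` with `W = P ∪ Z₀`.
-/

set_option autoImplicit false

namespace Pool.Agent.H10.HM

open Finset
open Pool.Agent.H73.Cov

variable {V : Type} [DecidableEq V] {κ t : ℕ} {G : Finset (Finset V)} {P : Finset V}

private lemma card_rows {Z : Finset V} {R : V → Finset V} {Q : Finset V} (h : Sys κ G P Z Q R) :
    (Z.biUnion R).card ≤ Z.card * κ := by
  refine le_trans Finset.card_biUnion_le ?_
  rw [Finset.sum_congr rfl h.card, Finset.sum_const, smul_eq_mul]

/-- a member whose part in `P` avoids all rows of a full system has its other part in the index set -/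
private lemma sdiff_sub (hT : Tight κ t G) (hP : Full κ G P) {w : ℕ} (hw : P.card + w = (κ + 1) * t + κ)
    {Z₀ : Finset V} {R : V → Finset V} (hZ : Disjoint Z₀ P) (hZc : Z₀.card = w) {f : Finset V} (hf : f ∈ G)
    (hS : Sys κ G P Z₀ (f ∩ P) R) : f \ P ⊆ Z₀ := by
  have h1 := hS.pack hT hP hw hZ (Pk.one hf) (Finset.Subset.refl _)
  have h2 := Finset.card_sdiff_add_card_inter Z₀ f
  have h3 : Z₀ ∩ f ⊆ f \ P := by
    intro x hx
    rw [Finset.mem_inter] at hx
    exact Finset.mem_sdiff.2 ⟨hx.2, Finset.disjoint_left.1 hZ hx.1⟩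
  have h4 : Z₀ ∩ f = f \ P := Finset.eq_of_subset_of_card_le h3 (by omega)
  rw [← h4]
  exact Finset.inter_subset_left

/-- a set of size `κ + 1` with part in `P` inside a row and other part inside a singleton -/
private lemma eq_insert {R₀ f : Finset V} {z : V} (hR : R₀.card = κ) (hf : f.card = κ + 1)
    (h1 : f ∩ P ⊆ R₀) (h2 : f \ P ⊆ {z}) : f = insert z R₀ := by
  have h3 : f ⊆ insert z R₀ := by
    intro x hx
    by_cases hxP : x ∈ P
    · exact Finset.mem_insert_of_mem (h1 (Finset.mem_inter.2 ⟨hx, hxP⟩))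
    · have := h2 (Finset.mem_sdiff.2 ⟨hx, hxP⟩)
      rw [Finset.mem_singleton] at this
      rw [this]
      exact Finset.mem_insert_self _ _
  refine Finset.eq_of_subset_of_card_le h3 ?_
  have := Finset.card_insert_le z R₀
  omega

theorem locA (hκ : 1 ≤ κ) (hT : Tight κ t G) (hP : Full κ G P) {w : ℕ} (hw : P.card + w = (κ + 1) * t + κ)
    (hbig : 10 * (κ + 1) * (w + 1) ≤ P.card) {Z : Finset V} {R : V → Finset V} (hZ : Disjoint Z P)
    (hZc : Z.card + 1 = w) (hS : Sys κ G P Z ∅ R) :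
    ∃ Z₀ : Finset V, Disjoint Z₀ P ∧ Z₀.card = w ∧ G = powersetCard (κ + 1) (P ∪ Z₀) := by
  have _ := hκ
  have e1 : 10 * (κ + 1) * (w + 1) = 10 * (w * κ) + 10 * w + 10 * κ + 10 := by ring
  -- step 1
  have hQc := card_rows hS
  have e2 : Z.card * κ + κ = w * κ := by rw [← hZc]; ring
  obtain ⟨R₀, hR₀P, hR₀c, hR₀Q⟩ := exists_row (κ := κ) (P := P) (Q := Z.biUnion R) (by omega)
  obtain ⟨f, hfG, hfP, hfZ⟩ := avoid (Z := Z) hT hR₀P (by omega)
  have hfc := hT.1 f hfG
  have hSf : Sys κ G P Z (f ∩ P) R := by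
    refine ⟨hS.sub, hS.card, hS.mem, ?_, hS.disj⟩
    intro z hz
    rw [Finset.disjoint_left]
    intro x hx hx'
    exact Finset.disjoint_left.1 hR₀Q (hfP hx') (Finset.mem_biUnion.2 ⟨z, hz, hx⟩)
  have h1 := hSf.pack hT hP hw hZ (Pk.one hfG) (Finset.Subset.refl _)
  have h2 : Z \ f = Z := Finset.sdiff_eq_self_of_disjoint hfZ.symm
  rw [h2] at h1
  have h3 := Finset.card_sdiff_add_card_inter f P
  have h4 := Finset.card_le_card hfP
  have h5 : (f \ P).card = 1 := by omega
  obtain ⟨z₀, hz₀⟩ := Finset.card_eq_one.1 h5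
  have hfe : f = insert z₀ R₀ := eq_insert hR₀c hfc hfP (by rw [hz₀])
  have hz₀f : z₀ ∈ f ∧ z₀ ∉ P := by
    have : z₀ ∈ f \ P := by rw [hz₀]; exact Finset.mem_singleton_self _
    exact Finset.mem_sdiff.1 this
  have hz₀Z : z₀ ∉ Z := Finset.disjoint_left.1 hfZ hz₀f.1
  have hZ₀P : Disjoint (insert z₀ Z) P := by
    rw [Finset.disjoint_insert_left]
    exact ⟨hz₀f.2, hZ⟩
  have hZ₀c : (insert z₀ Z).card = w := by
    rw [Finset.card_insert_of_notMem hz₀Z, hZc]
  have hne : ∀ z ∈ Z, z ≠ z₀ := fun z hz h => hz₀Z (h ▸ hz)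
  have hS₀ : Sys κ G P (insert z₀ Z) ∅ (Function.update R z₀ R₀) := by
    refine ⟨?_, ?_, ?_, ?_, ?_⟩
    · intro z hz
      rcases Finset.mem_insert.1 hz with rfl | hz
      · rw [Function.update_self]; exact hR₀P
      · rw [Function.update_of_ne (hne z hz)]; exact hS.sub z hz
    · intro z hz
      rcases Finset.mem_insert.1 hz with rfl | hz
      · rw [Function.update_self]; exact hR₀c
      · rw [Function.update_of_ne (hne z hz)]; exact hS.card z hz
    · intro z hz
      rcases Finset.mem_insert.1 hz with rfl | hz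
      · rw [Function.update_self, ← hfe]; exact hfG
      · rw [Function.update_of_ne (hne z hz)]; exact hS.mem z hz
    · intro z hz
      exact Finset.disjoint_empty_right _
    · intro z hz z' hz' hzz
      rcases Finset.mem_insert.1 hz with h6 | h6
      · rcases Finset.mem_insert.1 hz' with h7 | h7
        · exact absurd (h6.trans h7.symm) hzz
        · rw [h6, Function.update_self, Function.update_of_ne (hne z' h7)]
          rw [Finset.disjoint_left]
          intro x hx hx'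
          exact Finset.disjoint_left.1 hR₀Q hx (Finset.mem_biUnion.2 ⟨z', h7, hx'⟩)
      · rcases Finset.mem_insert.1 hz' with h7 | h7
        · rw [h7, Function.update_self, Function.update_of_ne (hne z h6)]
          rw [Finset.disjoint_left]
          intro x hx hx'
          exact Finset.disjoint_left.1 hR₀Q hx' (Finset.mem_biUnion.2 ⟨z, h6, hx⟩)
        · rw [Function.update_of_ne (hne z h6), Function.update_of_ne (hne z' h7)]
          exact hS.disj z h6 z' h7 hzz
  generalize hZ₀def : insert z₀ Z = Z₀ at *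
  generalize hR'def : Function.update R z₀ R₀ = R' at *
  have hQ₀c := card_rows hS₀
  rw [hZ₀c] at hQ₀c
  -- step 3
  have step3 : ∀ R₁ : Finset V, R₁ ⊆ P → R₁.card = κ → Disjoint R₁ (Z₀.biUnion R') → ∀ z ∈ Z₀, insert z R₁ ∈ G := by
    intro R₁ hR₁P hR₁c hR₁Q z hz
    have h6 : (Z₀.erase z).card = w - 1 := by rw [Finset.card_erase_of_mem hz, hZ₀c]
    obtain ⟨g, hgG, hgP, hgZ⟩ := avoid (Z := Z₀.erase z) hT hR₁P (by omega)
    have hSg : Sys κ G P Z₀ (g ∩ P) R' := by
      refine ⟨hS₀.sub, hS₀.card, hS₀.mem, ?_, hS₀.disj⟩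
      intro z' hz'
      rw [Finset.disjoint_left]
      intro x hx hx'
      exact Finset.disjoint_left.1 hR₁Q (hgP hx') (Finset.mem_biUnion.2 ⟨z', hz', hx⟩)
    have h7 := sdiff_sub hT hP hw hZ₀P hZ₀c hgG hSg
    have h8 : g \ P ⊆ {z} := by
      intro x hx
      rw [Finset.mem_singleton]
      by_contra hxz
      exact Finset.disjoint_left.1 hgZ (Finset.mem_sdiff.1 hx).1 (Finset.mem_erase.2 ⟨hxz, h7 hx⟩)
    rw [← eq_insert hR₁c (hT.1 g hgG) hgP h8]
    exact hgG
  -- step 4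
  have step4 : ∀ g ∈ G, g \ P ⊆ Z₀ := by
    intro g hgG
    have hgc := hT.1 g hgG
    obtain ⟨R₂, hR₂, hR₂Q⟩ := exists_rows κ w P (g ∪ Z₀.biUnion R') (by
      have := Finset.card_union_le g (Z₀.biUnion R')
      omega)
    have e : Z₀ ≃ Fin w := Z₀.equivFinOfCardEq hZ₀c
    have hSg : Sys κ G P Z₀ (g ∩ P) (fun z => if h : z ∈ Z₀ then R₂ (e ⟨z, h⟩) else ∅) := by
      refine ⟨?_, ?_, ?_, ?_, ?_⟩
      · intro z hz
        rw [dif_pos hz]
        exact hR₂.sub _
      · intro z hz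
        rw [dif_pos hz]
        exact hR₂.card _
      · intro z hz
        rw [dif_pos hz]
        exact step3 _ (hR₂.sub _) (hR₂.card _) ((hR₂Q _).mono_right Finset.subset_union_right) z hz
      · intro z hz
        rw [dif_pos hz]
        exact (hR₂Q _).mono_right (Finset.inter_subset_left.trans Finset.subset_union_left)
      · intro z hz z' hz' hzz
        rw [dif_pos hz, dif_pos hz']
        refine hR₂.disj _ _ ?_
        intro h
        exact hzz (Subtype.mk.inj (e.injective h))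
    exact sdiff_sub hT hP hw hZ₀P hZ₀c hgG hSg
  refine ⟨Z₀, hZ₀P, hZ₀c, tight_eq hT ?_ ?_⟩
  · intro g hg x hx
    rw [Finset.mem_union]
    by_cases hxP : x ∈ P
    · exact Or.inl hxP
    · exact Or.inr (step4 g hg (Finset.mem_sdiff.2 ⟨hx, hxP⟩))
  · have := Finset.card_union_le P Z₀
    omega

end Pool.Agent.H10.HM
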