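import Mathlib

/-!
# Module Trig: cross-intersecting families of pairs without a common vertex

`trig'`: every `e ∈ T` has two elements and meets the three pairs, so it is one of them; if one of the three, say `{x, y}`, is missing, then every member contains `z` (the third vertex), against `hτ z`; similarly for the others.
`trig`: `T 0` is not empty (`hτ`): `{a, b} ∈ T 0`. A member of `T 1` without `a` contains `b`: `{b, c} ∈ T 1`, `c ≠ a, b`; a member of `T 1` without `b` contains `a`: `{a, d} ∈ T 1`, `d ≠ a, b`.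
If `c = d`: every member of `T 2` meets `{a, b}`, `{b, c}`, `{a, c}`: `trig'`. If `c ≠ d`: a member of `T 2` without `a` meets `{a, b}`, `{a, d}`, so it is `{b, d}`; a member of `T 2` without `b` meets `{a, b}`, `{b, c}`, so it is `{a, c}`.
A member of `T 3` without `a` meets `{a, b}` (`b`), `{a, d}` (`d`), `{a, c}` (`c`): it contains the three different elements `b, c, d`, a contradiction.
-/

set_option autoImplicit false

namespace Pool.Agent.H10.HM

open Finset

variable {V : Type} [DecidableEq V]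

private theorem pair_eq {e : Finset V} {a b : V} (hc : e.card = 2) (ha : a ∈ e) (hb : b ∈ e)
    (hab : a ≠ b) : e = {a, b} := by
  symm
  refine eq_of_subset_of_card_le ?_ ?_
  · intro v hv
    rw [mem_insert, mem_singleton] at hv
    rcases hv with rfl | rfl
    · exact ha
    · exact hb
  · rw [hc, card_pair hab]

private theorem or_mem {e : Finset V} {a b : V} (h : (e ∩ {a, b}).Nonempty) : a ∈ e ∨ b ∈ e := by
  obtain ⟨v, hv⟩ := h
  rw [mem_inter, mem_insert, mem_singleton] at hv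
  rcases hv with ⟨h1, rfl | rfl⟩
  · exact Or.inl h1
  · exact Or.inr h1

private theorem not_three {e : Finset V} {a b c : V} (hc : e.card = 2) (ha : a ∈ e) (hb : b ∈ e)
    (hcc : c ∈ e) (hab : a ≠ b) (hac : a ≠ c) (hbc : b ≠ c) : False := by
  rw [pair_eq hc ha hb hab, mem_insert, mem_singleton] at hcc
  rcases hcc with h | h
  · exact hac h.symm
  · exact hbc h.symm

theorem trig' {T : Finset (Finset V)} {x y z : V} (hxy : x ≠ y) (hyz : y ≠ z) (hxz : x ≠ z)
    (hc : ∀ e ∈ T, e.card = 2) (h1 : ∀ e ∈ T, (e ∩ {x, y}).Nonempty) (h2 : ∀ e ∈ T, (e ∩ {y, z}).Nonempty)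
    (h3 : ∀ e ∈ T, (e ∩ {x, z}).Nonempty) (hτ : ∀ v : V, ∃ e ∈ T, v ∉ e) : T = {{x, y}, {y, z}, {x, z}} := by
  have hz : ∀ e ∈ T, z ∉ e → e = {x, y} := fun e he hze =>
    pair_eq (hc e he) ((or_mem (h3 e he)).resolve_right hze) ((or_mem (h2 e he)).resolve_right hze) hxy
  have hx : ∀ e ∈ T, x ∉ e → e = {y, z} := fun e he hxe =>
    pair_eq (hc e he) ((or_mem (h1 e he)).resolve_left hxe) ((or_mem (h3 e he)).resolve_left hxe) hyz
  have hy : ∀ e ∈ T, y ∉ e → e = {x, z} := fun e he hye =>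
    pair_eq (hc e he) ((or_mem (h1 e he)).resolve_right hye) ((or_mem (h2 e he)).resolve_left hye) hxz
  ext e
  rw [mem_insert, mem_insert, mem_singleton]
  constructor
  · intro he
    by_cases h4 : z ∈ e
    · by_cases h5 : x ∈ e
      · by_cases h6 : y ∈ e
        · exact (not_three (hc e he) h5 h6 h4 hxy hxz hyz).elim
        · exact Or.inr (Or.inr (hy e he h6))
      · exact Or.inr (Or.inl (hx e he h5))
    · exact Or.inl (hz e he h4)
  · rintro (rfl | rfl | rfl)
    · obtain ⟨e, he, hze⟩ := hτ z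
      rw [← hz e he hze]
      exact he
    · obtain ⟨e, he, hxe⟩ := hτ x
      rw [← hx e he hxe]
      exact he
    · obtain ⟨e, he, hye⟩ := hτ y
      rw [← hy e he hye]
      exact he

/-- a pair of `T` which misses `a` but meets `{a, b}` is `{b, c}` -/
private theorem get_other {T : Finset (Finset V)} {a b : V} (hc : ∀ e ∈ T, e.card = 2)
    (h1 : ∀ e ∈ T, ({a, b} ∩ e).Nonempty) (hτ : ∃ e ∈ T, a ∉ e) :
    ∃ c, c ≠ a ∧ c ≠ b ∧ ({b, c} : Finset V) ∈ T := by
  obtain ⟨e, he, hae⟩ := hτ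
  have hb : b ∈ e := by
    have h2 := h1 e he
    rw [inter_comm] at h2
    exact (or_mem h2).resolve_left hae
  obtain ⟨c, hce, hcb⟩ := exists_mem_ne (by rw [hc e he]; norm_num : 1 < e.card) b
  refine ⟨c, ?_, hcb, ?_⟩
  · rintro rfl
    exact hae hce
  · rw [← pair_eq (hc e he) hb hce hcb.symm]
    exact he

theorem trig [Nonempty V] (T : Fin 4 → Finset (Finset V)) (hc : ∀ i, ∀ e ∈ T i, e.card = 2)
    (hx : ∀ i j, i ≠ j → ∀ e ∈ T i, ∀ f ∈ T j, (e ∩ f).Nonempty) (hτ : ∀ i, ∀ v : V, ∃ e ∈ T i, v ∉ e) :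
    ∃ x y z : V, x ≠ y ∧ y ≠ z ∧ x ≠ z ∧ T 2 = {{x, y}, {y, z}, {x, z}} := by
  obtain ⟨v0⟩ := ‹Nonempty V›
  obtain ⟨e0, he0, -⟩ := hτ 0 v0
  obtain ⟨a, b, hab, rfl⟩ := card_eq_two.1 (hc 0 e0 he0)
  obtain ⟨c, hca, hcb, hbc⟩ := get_other (hc 1) (fun e he => hx 0 1 (by decide) _ he0 e he) (hτ 1 a)
  have he0' : ({b, a} : Finset V) ∈ T 0 := by rwa [pair_comm]
  obtain ⟨d, hdb, hda, had⟩ := get_other (hc 1) (fun e he => hx 0 1 (by decide) _ he0' e he) (hτ 1 b)
  -- every member of `T i`, `i ≠ 0, 1`, meets `{a, b}`, `{b, c}`, `{a, d}`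
  have m1 : ∀ i : Fin 4, 0 ≠ i → ∀ e ∈ T i, a ∈ e ∨ b ∈ e := fun i hi e he => by
    have h := hx 0 i hi _ he0 e he
    rw [inter_comm] at h
    exact or_mem h
  have m2 : ∀ i : Fin 4, 1 ≠ i → ∀ e ∈ T i, b ∈ e ∨ c ∈ e := fun i hi e he => by
    have h := hx 1 i hi _ hbc e he
    rw [inter_comm] at h
    exact or_mem h
  have m3 : ∀ i : Fin 4, 1 ≠ i → ∀ e ∈ T i, a ∈ e ∨ d ∈ e := fun i hi e he => by
    have h := hx 1 i hi _ had e he
    rw [inter_comm] at h
    exact or_mem h
  by_cases hcd : c = d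
  · subst hcd
    refine ⟨a, b, c, hab, hcb.symm, hca.symm, ?_⟩
    have n : ∀ {u v : V} {e : Finset V}, u ∈ e ∨ v ∈ e → (e ∩ {u, v}).Nonempty := by
      rintro u v e (h | h)
      · exact ⟨u, by simp [h]⟩
      · exact ⟨v, by simp [h]⟩
    exact trig' hab hcb.symm hca.symm (hc 2) (fun e he => n (m1 2 (by decide) e he))
      (fun e he => n (m2 2 (by decide) e he)) (fun e he => n (m3 2 (by decide) e he)) (hτ 2)
  · exfalso
    obtain ⟨e, he, hae⟩ := hτ 2 a
    have hbe : b ∈ e := (m1 2 (by decide) e he).resolve_left hae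
    have hde : d ∈ e := (m3 2 (by decide) e he).resolve_left hae
    obtain ⟨e', he', hbe'⟩ := hτ 2 b
    have hae' : a ∈ e' := (m1 2 (by decide) e' he').resolve_right hbe'
    have hce' : c ∈ e' := (m2 2 (by decide) e' he').resolve_left hbe'
    have e2 := pair_eq (hc 2 e' he') hae' hce' hca.symm
    obtain ⟨f, hf, haf⟩ := hτ 3 a
    have hbf : b ∈ f := (m1 3 (by decide) f hf).resolve_left haf
    have hdf : d ∈ f := (m3 3 (by decide) f hf).resolve_left haf
    have hcf : c ∈ f := by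
      have h := hx 2 3 (by decide) _ he' f hf
      rw [inter_comm, e2] at h
      exact (or_mem h).resolve_left haf
    exact not_three (hc 3 f hf) hbf hcf hdf hcb.symm hdb.symm hcd

end Pool.Agent.H10.HM
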