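import Pool.Agent.H10.HM.LocA
import Pool.Agent.H10.HM.Trig

/-!
# Module LocB: the triangle structure

`Z` is disjoint from `P` (`hS`, `m ≥ 1`).
(1) For a set `Q` with `|Q| + w ≤ m` there is a system `Sys κ G P Z Q R'` whose rows are among the `R a` (at most `|Q|` of the disjoint sets `R a` meet `Q`; choose `w - 2` other ones).
(2) `f ∈ G`: `|(f \ P) \ Z| ≤ 2` (`Sys.pack` with `Y = f`, `Q = f ∩ P`: `|f \ P| + |Z \ f| ≤ w = |Z| + 2`).
(3) `f ∈ G`, `f ∩ Z = ∅`, `¬ f ⊆ P`: `|f \ P| = 2`. Otherwise `|f \ P| = 1`, `f = insert x R₁` with a row `R₁`, `x ∉ Z`; with the system of (1) for `Q = R₁` this gives a system with `insert x Z`, `w - 1` elements: `locA` and `hn`.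
(4) `f, g ∈ G`, `f ∩ Z = g ∩ Z = ∅`, `¬ f ⊆ P`, `¬ g ⊆ P`, `f ∩ P` disjoint from `g ∩ P`: `f \ P` meets `g \ P`; otherwise `Sys.pack` with `Y = f ∪ g` (`Pk.union`): `4 + (w - 2) ≤ w`.
(5) For every row `R₁` and every `v` there is `f ∈ G` with `f ∩ P ⊆ R₁`, `f ∩ Z = ∅`, `v ∉ f`: `avoid` with `insert v Z`, `|insert v Z| < w`. (`¬ f ⊆ P` because of the cardinality.)
(6) For a row `R₁` let `T R₁` be the set of the `f \ P`, `f ∈ G`, `f ∩ P ⊆ R₁`, `f ∩ Z = ∅`. Four disjoint rows (`exists_rows`): `trig` gives `x, y, z` and a row `Q₃` with `T Q₃ = {{x,y},{y,z},{x,z}}`; `x, y, z ∉ P ∪ Z`. For every row `R₁` disjoint from `Q₃`: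
`T R₁ = {{x,y},{y,z},{x,z}}` by (3), (4), (5) and `trig'`.
(7) Let `f ∈ G`, `T₀ = (f \ P) \ Z`. Choose a row `R₁` disjoint from `f` and `Q₃`. If `T₀` is disjoint from one of the three pairs `e`, `e = g \ P`, `g ∩ P ⊆ R₁`, then `f, g` are disjoint, `Sys.pack` with `Y = f ∪ g`, `Q = Y ∩ P`: `|f \ P| + 2 + |Z \ f| ≤ w`, so `|T₀| = 0`.
So `T₀ = ∅` or `T₀` meets the three pairs and has at most two elements (2), that is, `T₀` is one of the pairs. Hence `f ∈ tri κ (P ∪ Z) x y z`.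
-/

set_option autoImplicit false

namespace Pool.Agent.H10.HM

open Finset
open Pool.Agent.H73.Cov

variable {V : Type} [DecidableEq V] {κ t : ℕ} {G : Finset (Finset V)} {P : Finset V}

/-- the outer parts of the members of `G` which meet `P` inside `R₁` and avoid `Z` -/
private def TT (G : Finset (Finset V)) (P Z R₁ : Finset V) : Finset (Finset V) :=
  (G.filter fun f => f ∩ P ⊆ R₁ ∧ Disjoint f Z).image fun f => f \ P

private lemma mem_TT {Z R₁ e : Finset V} :
    e ∈ TT G P Z R₁ ↔ ∃ f ∈ G, f ∩ P ⊆ R₁ ∧ Disjoint f Z ∧ f \ P = e := by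
  unfold TT
  rw [Finset.mem_image]
  constructor
  · rintro ⟨f, hf, rfl⟩
    rw [Finset.mem_filter] at hf
    exact ⟨f, hf.1, hf.2.1, hf.2.2, rfl⟩
  · rintro ⟨f, hf, h1, h2, rfl⟩
    exact ⟨f, Finset.mem_filter.2 ⟨hf, h1, h2⟩, rfl⟩

private lemma zp {m : ℕ} {R : Fin m → Finset V} (hm : 0 < m) {Z : Finset V} (hS : ∀ a, Sn G P (R a) = Z) :
    Disjoint Z P := by
  rw [Finset.disjoint_left]
  intro x hx hx'
  rw [← hS ⟨0, hm⟩] at hx
  unfold Sn at hx
  rw [Finset.mem_filter, Finset.mem_sdiff] at hx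
  exact hx.1.2 hx'

private lemma zmem {m : ℕ} {R : Fin m → Finset V} {Z : Finset V} (hS : ∀ a, Sn G P (R a) = Z) (a : Fin m) {z : V}
    (hz : z ∈ Z) : insert z (R a) ∈ G := by
  rw [← hS a] at hz
  unfold Sn at hz
  rw [Finset.mem_filter] at hz
  exact hz.2

/-- (1) -/
private lemma sys {m : ℕ} {R : Fin m → Finset V} (hR : Rows κ m P R) {Z Q : Finset V} (hS : ∀ a, Sn G P (R a) = Z)
    (hQ : Q.card + Z.card ≤ m) : ∃ R' : V → Finset V, Sys κ G P Z Q R' := by
  classical
  have hbad : (Finset.univ.filter (fun a : Fin m => ¬ Disjoint (R a) Q)).card ≤ Q.card := by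
    have h1 : ((Finset.univ.filter (fun a : Fin m => ¬ Disjoint (R a) Q)).biUnion fun a => R a ∩ Q).card =
        ∑ a ∈ Finset.univ.filter (fun a : Fin m => ¬ Disjoint (R a) Q), (R a ∩ Q).card := by
      refine Finset.card_biUnion ?_
      intro a _ b _ hab
      exact ((hR.disj a b hab).mono Finset.inter_subset_left Finset.inter_subset_left)
    have h2 : (Finset.univ.filter (fun a : Fin m => ¬ Disjoint (R a) Q)).card • 1 ≤
        ∑ a ∈ Finset.univ.filter (fun a : Fin m => ¬ Disjoint (R a) Q), (R a ∩ Q).card := by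
      refine Finset.card_nsmul_le_sum _ _ _ ?_
      intro a ha
      rw [Finset.mem_filter, Finset.not_disjoint_iff_nonempty_inter] at ha
      exact Finset.card_pos.2 ha.2
    have h3 : ((Finset.univ.filter (fun a : Fin m => ¬ Disjoint (R a) Q)).biUnion fun a => R a ∩ Q) ⊆ Q := by
      intro x hx
      rw [Finset.mem_biUnion] at hx
      obtain ⟨a, -, hx⟩ := hx
      exact (Finset.mem_inter.1 hx).2
    have h4 := Finset.card_le_card h3
    rw [smul_eq_mul, mul_one] at h2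
    omega
  have hall := Finset.card_filter_add_card_filter_not (s := (Finset.univ : Finset (Fin m)))
    (fun a : Fin m => Disjoint (R a) Q)
  rw [Finset.card_univ, Fintype.card_fin] at hall
  obtain ⟨σ⟩ : Nonempty ({x // x ∈ Z} ↪ {a // a ∈ Finset.univ.filter (fun a : Fin m => Disjoint (R a) Q)}) := by
    apply Function.Embedding.nonempty_of_card_le
    rw [Fintype.card_coe, Fintype.card_coe]
    omega
  have hval : ∀ v (h : v ∈ Z), (if h : v ∈ Z then R (σ ⟨v, h⟩).1 else ∅) = R (σ ⟨v, h⟩).1 := fun v h => dif_pos h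
  refine ⟨fun v => if h : v ∈ Z then R (σ ⟨v, h⟩).1 else ∅, ?_, ?_, ?_, ?_, ?_⟩
  · intro z hz
    show (if h : z ∈ Z then R (σ ⟨z, h⟩).1 else ∅) ⊆ P
    rw [hval z hz]
    exact hR.sub _
  · intro z hz
    show (if h : z ∈ Z then R (σ ⟨z, h⟩).1 else ∅).card = κ
    rw [hval z hz]
    exact hR.card _
  · intro z hz
    show insert z (if h : z ∈ Z then R (σ ⟨z, h⟩).1 else ∅) ∈ G
    rw [hval z hz]
    exact zmem hS _ hz
  · intro z hz
    show Disjoint (if h : z ∈ Z then R (σ ⟨z, h⟩).1 else ∅) Q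
    rw [hval z hz]
    exact (Finset.mem_filter.1 (σ ⟨z, hz⟩).2).2
  · intro z hz z' hz' hne
    show Disjoint (if h : z ∈ Z then R (σ ⟨z, h⟩).1 else ∅) (if h : z' ∈ Z then R (σ ⟨z', h⟩).1 else ∅)
    rw [hval z hz, hval z' hz']
    refine hR.disj _ _ ?_
    intro he
    have h5 := σ.injective (Subtype.ext he)
    exact hne (Subtype.mk.inj h5)

section

variable {m : ℕ} {R : Fin m → Finset V} {Z : Finset V} {w : ℕ}

private lemma split (hZP : Disjoint Z P) (f : Finset V) :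
    (f \ P).card = ((f \ P) \ Z).card + (f ∩ Z).card ∧ Z.card = (f ∩ Z).card + (Z \ f).card := by
  constructor
  · have h1 := Finset.card_sdiff_add_card_inter (f \ P) Z
    have h2 : (f \ P) ∩ Z = f ∩ Z := by
      ext x
      simp only [Finset.mem_inter, Finset.mem_sdiff]
      constructor
      · rintro ⟨⟨h3, -⟩, h4⟩
        exact ⟨h3, h4⟩
      · rintro ⟨h3, h4⟩
        exact ⟨⟨h3, Finset.disjoint_left.1 hZP h4⟩, h4⟩
    rw [h2] at h1
    omega
  · have h1 := Finset.card_sdiff_add_card_inter Z f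
    rw [Finset.inter_comm] at h1
    omega

/-- (2) -/
private lemma two (hT : Tight κ t G) (hP : Full κ G P) (hw : P.card + w = (κ + 1) * t + κ)
    (hR : Rows κ m P R) (hm : w + 4 * (κ + 1) ≤ m) (hZc : Z.card + 2 = w) (hZP : Disjoint Z P)
    (hS : ∀ a, Sn G P (R a) = Z) {f : Finset V} (hf : f ∈ G) :
    ((f \ P) \ Z).card ≤ 2 := by
  have hfc := hT.1 f hf
  have h0 : (f ∩ P).card ≤ f.card := Finset.card_le_card Finset.inter_subset_left
  obtain ⟨R', hR'⟩ := sys hR (Q := f ∩ P) hS (by omega)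
  have h1 := hR'.pack hT hP hw hZP (Pk.one hf) (Finset.Subset.refl _)
  obtain ⟨h2, h3⟩ := split hZP f
  omega

/-- (3) -/
private lemma three (hκ : 1 ≤ κ) (hT : Tight κ t G) (hP : Full κ G P) (hw : P.card + w = (κ + 1) * t + κ)
    (hbig : 10 * (κ + 1) * (w + 1) ≤ P.card) (hn : ¬ Cmp κ G)
    (hR : Rows κ m P R) (hm : w + 4 * (κ + 1) ≤ m) (hZc : Z.card + 2 = w) (hZP : Disjoint Z P)
    (hS : ∀ a, Sn G P (R a) = Z) {f : Finset V} (hf : f ∈ G) (hfZ : Disjoint f Z) (hfP : ¬ f ⊆ P) :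
    (f \ P).card = 2 := by
  have hfc := hT.1 f hf
  have h2 := two hT hP hw hR hm hZc hZP hS hf
  have h3 : (f \ P) \ Z = f \ P := by
    rw [Finset.sdiff_eq_self_iff_disjoint]
    exact hfZ.mono_left Finset.sdiff_subset
  rw [h3] at h2
  have h4 : (f \ P).Nonempty := by
    rw [Finset.nonempty_iff_ne_empty]
    intro he
    exact hfP (Finset.sdiff_eq_empty_iff_subset.1 he)
  have h5 := Finset.card_pos.2 h4
  by_contra hne
  have h6 : (f \ P).card = 1 := by omega
  obtain ⟨x, hx⟩ := Finset.card_eq_one.1 h6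
  have hxf : x ∈ f \ P := by
    rw [hx]
    exact Finset.mem_singleton_self x
  rw [Finset.mem_sdiff] at hxf
  have hxZ : x ∉ Z := Finset.disjoint_left.1 hfZ hxf.1
  have h7 := Finset.card_sdiff_add_card_inter f P
  have h8 : (f ∩ P).card = κ := by omega
  have h9 : insert x (f ∩ P) = f := by
    rw [← Finset.sdiff_union_inter f P, hx]
    ext y
    simp only [Finset.mem_insert, Finset.mem_union, Finset.mem_singleton, Finset.mem_inter]
    constructor
    · rintro (h | ⟨h | h, h'⟩)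
      · exact Or.inl h
      · exact Or.inl h
      · exact Or.inr h
    · rintro (h | h)
      · exact Or.inl h
      · exact Or.inr ⟨Or.inr h, h.2⟩
  obtain ⟨R', hR'⟩ := sys hR (Q := f ∩ P) hS (by omega)
  have hup : ∀ z ∈ Z, Function.update R' x (f ∩ P) z = R' z := by
    intro z hz
    rw [Function.update_of_ne]
    rintro rfl
    exact hxZ hz
  have hux : Function.update R' x (f ∩ P) x = f ∩ P := Function.update_self _ _ _
  have hsys : Sys κ G P (insert x Z) ∅ (Function.update R' x (f ∩ P)) := by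
    refine ⟨?_, ?_, ?_, ?_, ?_⟩
    · intro z hz
      rcases Finset.mem_insert.1 hz with rfl | hz
      · rw [hux]
        exact Finset.inter_subset_right
      · rw [hup z hz]
        exact hR'.sub z hz
    · intro z hz
      rcases Finset.mem_insert.1 hz with rfl | hz
      · rw [hux]
        exact h8
      · rw [hup z hz]
        exact hR'.card z hz
    · intro z hz
      rcases Finset.mem_insert.1 hz with rfl | hz
      · rw [hux, h9]
        exact hf
      · rw [hup z hz]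
        exact hR'.mem z hz
    · intro z _
      exact Finset.disjoint_empty_right _
    · intro z hz z' hz' hne'
      rcases Finset.mem_insert.1 hz with h1 | h1
      · rcases Finset.mem_insert.1 hz' with h2 | h2
        · exact absurd (h1.trans h2.symm) hne'
        · rw [h1, hux, hup z' h2]
          exact (hR'.avoid z' h2).symm
      · rcases Finset.mem_insert.1 hz' with h2 | h2
        · rw [h2, hux, hup z h1]
          exact hR'.avoid z h1
        · rw [hup z h1, hup z' h2]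
          exact hR'.disj z h1 z' h2 hne'
  have hd : Disjoint (insert x Z) P := by
    rw [Finset.disjoint_insert_left]
    exact ⟨hxf.2, hZP⟩
  obtain ⟨Z₀, -, -, hG⟩ := locA hκ hT hP hw hbig hd (by
    rw [Finset.card_insert_of_notMem hxZ]
    omega) hsys
  exact hn ⟨_, hG⟩

/-- (4) -/
private lemma four (hκ : 1 ≤ κ) (hT : Tight κ t G) (hP : Full κ G P) (hw : P.card + w = (κ + 1) * t + κ)
    (hbig : 10 * (κ + 1) * (w + 1) ≤ P.card) (hn : ¬ Cmp κ G)
    (hR : Rows κ m P R) (hm : w + 4 * (κ + 1) ≤ m) (hZc : Z.card + 2 = w) (hZP : Disjoint Z P)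
    (hS : ∀ a, Sn G P (R a) = Z) {f g : Finset V} (hf : f ∈ G) (hfZ : Disjoint f Z) (hfP : ¬ f ⊆ P)
    (hg : g ∈ G) (hgZ : Disjoint g Z) (hgP : ¬ g ⊆ P) (hfg : Disjoint (f ∩ P) (g ∩ P)) :
    ((f \ P) ∩ (g \ P)).Nonempty := by
  by_contra hne
  rw [← Finset.not_disjoint_iff_nonempty_inter, not_not] at hne
  have hd : Disjoint f g := by
    rw [Finset.disjoint_left]
    intro x hx hx'
    by_cases hxP : x ∈ P
    · exact Finset.disjoint_left.1 hfg (Finset.mem_inter.2 ⟨hx, hxP⟩) (Finset.mem_inter.2 ⟨hx', hxP⟩)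
    · exact Finset.disjoint_left.1 hne (Finset.mem_sdiff.2 ⟨hx, hxP⟩) (Finset.mem_sdiff.2 ⟨hx', hxP⟩)
  have hfc := hT.1 f hf
  have hgc := hT.1 g hg
  have hpk := (Pk.one hf).union hT.1 (Pk.one hg) hd
  have h0 : ((f ∪ g) ∩ P).card ≤ (f ∪ g).card := Finset.card_le_card Finset.inter_subset_left
  have h0' := Finset.card_union_le f g
  obtain ⟨R', hR'⟩ := sys hR (Q := (f ∪ g) ∩ P) hS (by omega)
  have h1 := hR'.pack hT hP hw hZP hpk (Finset.Subset.refl _)
  have h2 : (f ∪ g) \ P = (f \ P) ∪ (g \ P) := Finset.union_sdiff_distrib f g P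
  rw [h2, Finset.card_union_of_disjoint hne, three hκ hT hP hw hbig hn hR hm hZc hZP hS hf hfZ hfP,
    three hκ hT hP hw hbig hn hR hm hZc hZP hS hg hgZ hgP] at h1
  have h3 : Z \ (f ∪ g) = Z := by
    rw [Finset.sdiff_eq_self_iff_disjoint, Finset.disjoint_union_right]
    exact ⟨hfZ.symm, hgZ.symm⟩
  rw [h3] at h1
  omega

/-- (5) -/
private lemma five (hT : Tight κ t G) (hw : P.card + w = (κ + 1) * t + κ) (hZc : Z.card + 2 = w)
    {R₁ : Finset V} (hR₁ : R₁ ⊆ P) (hR₁c : R₁.card = κ) (v : V) :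
    ∃ f ∈ G, f ∩ P ⊆ R₁ ∧ Disjoint f Z ∧ v ∉ f := by
  have h0 := Finset.card_insert_le v Z
  obtain ⟨f, hf, h1, h2⟩ := avoid hT (Z := insert v Z) hR₁ (by omega)
  rw [Finset.disjoint_insert_right] at h2
  exact ⟨f, hf, h1, h2.2, h2.1⟩

private lemma nsub (hT : Tight κ t G) {R₁ : Finset V} (hR₁c : R₁.card = κ) {f : Finset V} (hf : f ∈ G)
    (h : f ∩ P ⊆ R₁) : ¬ f ⊆ P := by
  intro hfP
  rw [Finset.inter_eq_left.2 hfP] at h
  have h1 := Finset.card_le_card h
  have h2 := hT.1 f hf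
  omega

end

theorem locB (hκ : 1 ≤ κ) (hT : Tight κ t G) (hP : Full κ G P) {w : ℕ} (hw : P.card + w = (κ + 1) * t + κ)
    (hbig : 10 * (κ + 1) * (w + 1) ≤ P.card) (hn : ¬ Cmp κ G) {m : ℕ} {R : Fin m → Finset V}
    (hR : Rows κ m P R) (hm : w + 4 * (κ + 1) ≤ m) {Z : Finset V} (hZc : Z.card + 2 = w)
    (hS : ∀ a, Sn G P (R a) = Z) :
    ∃ x y z : V, x ≠ y ∧ y ≠ z ∧ x ≠ z ∧ x ∉ P ∪ Z ∧ y ∉ P ∪ Z ∧ z ∉ P ∪ Z ∧ G ⊆ tri κ (P ∪ Z) x y z := by
  have hZP : Disjoint Z P := zp (by omega) hS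
  have hPc : 10 * (κ + 1) ≤ P.card := by
    refine le_trans ?_ hbig
    exact Nat.le_mul_of_pos_right _ (Nat.succ_pos w)
  -- the members of `TT R₁`
  have hTc : ∀ R₁ : Finset V, R₁.card = κ → ∀ e ∈ TT G P Z R₁, e.card = 2 := by
    intro R₁ h1 e he
    obtain ⟨f, hf, h2, h3, rfl⟩ := mem_TT.1 he
    exact three hκ hT hP hw hbig hn hR hm hZc hZP hS hf h3 (nsub hT h1 hf h2)
  have hTx : ∀ R₁ R₂ : Finset V, R₁.card = κ → R₂.card = κ → Disjoint R₁ R₂ → ∀ e ∈ TT G P Z R₁, ∀ e' ∈ TT G P Z R₂,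
      (e ∩ e').Nonempty := by
    intro R₁ R₂ h1 h2 hd e he e' he'
    obtain ⟨f, hf, h3, h4, rfl⟩ := mem_TT.1 he
    obtain ⟨g, hg, h5, h6, rfl⟩ := mem_TT.1 he'
    exact four hκ hT hP hw hbig hn hR hm hZc hZP hS hf h4 (nsub hT h1 hf h3) hg h6 (nsub hT h2 hg h5) (hd.mono h3 h5)
  have hTv : ∀ R₁ : Finset V, R₁ ⊆ P → R₁.card = κ → ∀ v : V, ∃ e ∈ TT G P Z R₁, v ∉ e := by
    intro R₁ h1 h2 v
    obtain ⟨f, hf, h3, h4, h5⟩ := five hT hw hZc h1 h2 v
    exact ⟨f \ P, mem_TT.2 ⟨f, hf, h3, h4, rfl⟩, fun h => h5 (Finset.mem_sdiff.1 h).1⟩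
  haveI : Nonempty V := by
    have h1 : 0 < P.card := by omega
    obtain ⟨v, -⟩ := Finset.card_pos.1 h1
    exact ⟨v⟩
  -- four rows
  obtain ⟨Q, hQ, -⟩ := exists_rows κ 4 P ∅ (by
    rw [Finset.card_empty]
    omega)
  obtain ⟨x, y, z, hxy, hyz, hxz, hT2⟩ := trig (fun i => TT G P Z (Q i)) (fun i => hTc _ (hQ.card i))
    (fun i j hij => hTx _ _ (hQ.card i) (hQ.card j) (hQ.disj i j hij)) (fun i => hTv _ (hQ.sub i) (hQ.card i))
  have hT2' : TT G P Z (Q 2) = {{x, y}, {y, z}, {x, z}} := hT2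
  have hout : ∀ e ∈ TT G P Z (Q 2), ∀ v ∈ e, v ∉ P ∪ Z := by
    intro e he v hv
    obtain ⟨f, hf, h3, h4, rfl⟩ := mem_TT.1 he
    rw [Finset.mem_sdiff] at hv
    rw [Finset.mem_union]
    rintro (h | h)
    · exact hv.2 h
    · exact Finset.disjoint_left.1 h4 hv.1 h
  have m1 : ({x, y} : Finset V) ∈ TT G P Z (Q 2) := by
    rw [hT2']
    simp
  have m2 : ({y, z} : Finset V) ∈ TT G P Z (Q 2) := by
    rw [hT2']
    simp
  have m3 : ({x, z} : Finset V) ∈ TT G P Z (Q 2) := by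
    rw [hT2']
    simp
  have hxo : x ∉ P ∪ Z := hout _ m1 x (by simp)
  have hyo : y ∉ P ∪ Z := hout _ m1 y (by simp)
  have hzo : z ∉ P ∪ Z := hout _ m2 z (by simp)
  have hall : ∀ R₁ : Finset V, R₁ ⊆ P → R₁.card = κ → Disjoint R₁ (Q 2) →
      TT G P Z R₁ = {{x, y}, {y, z}, {x, z}} := by
    intro R₁ h1 h2 h3
    exact trig' hxy hyz hxz (hTc R₁ h2) (fun e he => hTx R₁ (Q 2) h2 (hQ.card 2) h3 e he _ m1)
      (fun e he => hTx R₁ (Q 2) h2 (hQ.card 2) h3 e he _ m2) (fun e he => hTx R₁ (Q 2) h2 (hQ.card 2) h3 e he _ m3)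
      (hTv R₁ h1 h2)
  refine ⟨x, y, z, hxy, hyz, hxz, hxo, hyo, hzo, ?_⟩
  intro f hf
  have hfc := hT.1 f hf
  have hQc := hQ.card 2
  obtain ⟨R₁, hR₁, hR₁c, hR₁d⟩ := exists_row (κ := κ) (P := P) (Q := f ∪ Q 2) (by
    have := Finset.card_union_le f (Q 2)
    omega)
  rw [Finset.disjoint_union_right] at hR₁d
  have hTR := hall R₁ hR₁ hR₁c hR₁d.2
  -- if the outer part misses a pair, it is empty
  have key : ∀ e ∈ TT G P Z R₁, Disjoint ((f \ P) \ Z) e → (f \ P) \ Z = ∅ := by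
    intro e he hd
    obtain ⟨g, hg, h3, h4, rfl⟩ := mem_TT.1 he
    have hgc := hT.1 g hg
    have hdis : Disjoint f g := by
      rw [Finset.disjoint_left]
      intro v hv hv'
      by_cases hvP : v ∈ P
      · exact Finset.disjoint_left.1 hR₁d.1 (h3 (Finset.mem_inter.2 ⟨hv', hvP⟩)) hv
      · refine Finset.disjoint_left.1 hd (Finset.mem_sdiff.2 ⟨Finset.mem_sdiff.2 ⟨hv, hvP⟩, ?_⟩)
          (Finset.mem_sdiff.2 ⟨hv', hvP⟩)
        exact Finset.disjoint_left.1 h4 hv'
    have hpk := (Pk.one hf).union hT.1 (Pk.one hg) hdis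
    have h0 : ((f ∪ g) ∩ P).card ≤ (f ∪ g).card := Finset.card_le_card Finset.inter_subset_left
    have h0' := Finset.card_union_le f g
    obtain ⟨R', hR'⟩ := sys hR (Q := (f ∪ g) ∩ P) hS (by omega)
    have h1 := hR'.pack hT hP hw hZP hpk (Finset.Subset.refl _)
    have h2 : (f ∪ g) \ P = (f \ P) ∪ (g \ P) := Finset.union_sdiff_distrib f g P
    rw [h2, Finset.card_union_of_disjoint (hdis.mono Finset.sdiff_subset Finset.sdiff_subset),
      hTc R₁ hR₁c _ he] at h1
    have h5 : Z \ (f ∪ g) = Z \ f := by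
      ext v
      simp only [Finset.mem_sdiff, Finset.mem_union]
      constructor
      · rintro ⟨h6, h7⟩
        exact ⟨h6, fun h => h7 (Or.inl h)⟩
      · rintro ⟨h6, h7⟩
        exact ⟨h6, fun h => h.elim h7 (fun h8 => Finset.disjoint_left.1 h4 h8 h6)⟩
    rw [h5] at h1
    obtain ⟨h6, h7⟩ := split hZP f
    rw [← Finset.card_eq_zero]
    omega
  -- the outer part is empty or one of the pairs
  have hT0 : (f \ P) \ Z = ∅ ∨ ((f \ P) \ Z ⊆ {x, y, z} ∧ ((f \ P) \ Z).card = 2) := by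
    by_cases he : (f \ P) \ Z = ∅
    · exact Or.inl he
    · right
      have hmeet : ∀ e ∈ TT G P Z R₁, (((f \ P) \ Z) ∩ e).Nonempty := by
        intro e hee
        by_contra hne
        rw [← Finset.not_disjoint_iff_nonempty_inter, not_not] at hne
        exact he (key e hee hne)
      have hc2 := two hT hP hw hR hm hZc hZP hS hf
      generalize hA : (f \ P) \ Z = A at hmeet hc2
      have a1 := hmeet {x, y} (by
        rw [hTR]
        simp)
      have a2 := hmeet {y, z} (by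
        rw [hTR]
        simp)
      have a3 := hmeet {x, z} (by
        rw [hTR]
        simp)
      have b1 : x ∈ A ∨ y ∈ A := by
        obtain ⟨v, hv⟩ := a1
        simp only [Finset.mem_inter, Finset.mem_insert, Finset.mem_singleton] at hv
        rcases hv.2 with rfl | rfl
        · exact Or.inl hv.1
        · exact Or.inr hv.1
      have b2 : y ∈ A ∨ z ∈ A := by
        obtain ⟨v, hv⟩ := a2
        simp only [Finset.mem_inter, Finset.mem_insert, Finset.mem_singleton] at hv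
        rcases hv.2 with rfl | rfl
        · exact Or.inl hv.1
        · exact Or.inr hv.1
      have b3 : x ∈ A ∨ z ∈ A := by
        obtain ⟨v, hv⟩ := a3
        simp only [Finset.mem_inter, Finset.mem_insert, Finset.mem_singleton] at hv
        rcases hv.2 with rfl | rfl
        · exact Or.inl hv.1
        · exact Or.inr hv.1
      have hpair : ∀ u v : V, u ≠ v → u ∈ A → v ∈ A → A = {u, v} := by
        intro u v huv hu hv
        have h1 : ({u, v} : Finset V) ⊆ A := by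
          intro s hs
          rw [Finset.mem_insert, Finset.mem_singleton] at hs
          rcases hs with rfl | rfl
          · exact hu
          · exact hv
        refine (Finset.eq_of_subset_of_card_le h1 ?_).symm
        rw [Finset.card_pair huv]
        exact hc2
      have fin1 : ∀ u v : V, u ≠ v → u ∈ ({x, y, z} : Finset V) → v ∈ ({x, y, z} : Finset V) → A = {u, v} →
          (A ⊆ {x, y, z} ∧ A.card = 2) := by
        intro u v huv hu hv hAe
        rw [hAe]
        refine ⟨?_, Finset.card_pair huv⟩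
        intro s hs
        rw [Finset.mem_insert, Finset.mem_singleton] at hs
        rcases hs with rfl | rfl
        · exact hu
        · exact hv
      by_cases hx : x ∈ A
      · rcases b2 with h | h
        · exact fin1 x y hxy (by simp) (by simp) (hpair x y hxy hx h)
        · exact fin1 x z hxz (by simp) (by simp) (hpair x z hxz hx h)
      · have hy : y ∈ A := b1.resolve_left hx
        have hz : z ∈ A := b3.resolve_left hx
        exact fin1 y z hyz (by simp) (by simp) (hpair y z hyz hy hz)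
  have hpos : ∀ v ∈ f, v ∈ P ∨ v ∈ Z ∨ v ∈ (f \ P) \ Z := by
    intro v hv
    by_cases h1 : v ∈ P
    · exact Or.inl h1
    · by_cases h2 : v ∈ Z
      · exact Or.inr (Or.inl h2)
      · exact Or.inr (Or.inr (Finset.mem_sdiff.2 ⟨Finset.mem_sdiff.2 ⟨hv, h1⟩, h2⟩))
  have hxyz : ∀ v ∈ ({x, y, z} : Finset V), v ∉ P ∪ Z := by
    intro v hv
    simp only [Finset.mem_insert, Finset.mem_singleton] at hv
    rcases hv with rfl | rfl | rfl
    · exact hxo
    · exact hyo
    · exact hzo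
  unfold tri
  rw [Finset.mem_filter, Finset.mem_powersetCard]
  refine ⟨⟨?_, hfc⟩, ?_⟩
  · intro v hv
    rw [Finset.mem_union, Finset.mem_union]
    rcases hpos v hv with h | h | h
    · exact Or.inl (Or.inl h)
    · exact Or.inl (Or.inr h)
    · rcases hT0 with h0 | h0
      · rw [h0] at h
        exact absurd h (Finset.notMem_empty v)
      · exact Or.inr (h0.1 h)
  · have hint : f ∩ {x, y, z} = ((f \ P) \ Z) ∩ {x, y, z} := by
      ext v
      rw [Finset.mem_inter, Finset.mem_inter, Finset.mem_sdiff, Finset.mem_sdiff]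
      constructor
      · rintro ⟨h1, h2⟩
        have h3 := hxyz v h2
        rw [Finset.mem_union, not_or] at h3
        exact ⟨⟨⟨h1, h3.1⟩, h3.2⟩, h2⟩
      · rintro ⟨⟨⟨h1, -⟩, -⟩, h2⟩
        exact ⟨h1, h2⟩
    rw [hint]
    rcases hT0 with h0 | h0
    · left
      rw [h0, Finset.empty_inter]
    · right
      rw [Finset.inter_eq_left.2 h0.1]
      exact h0.2

end Pool.Agent.H10.HM
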