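import Pool.Agent.H10.HM.Bas

/-!
# Module Shp: matching number and covering number of a tight family, the complete family

`nu_tau`: `hT.exists_avoiding ∅` gives a matching with `s` members; its union has `(κ+1) s` elements and is a cover (`hT.inter_nonempty`); the bounds are the definition of `Tight`.
`tight_of`: conversely. `cmp_tight`: a matching `N` of the complete family has `|N| (κ+1) ≤ |W| < (s+1)(κ+1)`; a set `Y` with `|Y| < (κ+1) s` leaves `≥ κ + 1` elements of `W`, so it is not a cover.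
-/

set_option autoImplicit false

namespace Pool.Agent.H10.HM

open Finset
open Pool.Agent.H73.Cov

variable {V : Type} [DecidableEq V] {κ s : ℕ} {F : Finset (Finset V)} {W : Finset V}

theorem nu_tau (hT : Tight κ s F) :
    IsGreatest {m : ℕ | ∃ M ⊆ F, M.card = m ∧ (M : Set (Finset V)).PairwiseDisjoint id} s ∧
      IsLeast {c : ℕ | ∃ Y : Finset V, Y.card = c ∧ ∀ e ∈ F, (e ∩ Y).Nonempty} (s * (κ + 1)) := by
  obtain ⟨N, hN, hNd, hNc, -⟩ := hT.exists_avoiding ∅ (by simp)
  refine ⟨⟨⟨N, hN, hNc, hNd⟩, ?_⟩, ⟨⟨N.biUnion id, ?_, ?_⟩, ?_⟩⟩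
  · rintro m ⟨M, hM, rfl, hMd⟩
    exact hT.2.1 M hM hMd
  · exact Pk.card (n := s) hT.1 ⟨N, hN, hNd, hNc, rfl⟩
  · exact fun e he => hT.inter_nonempty hN hNd hNc he
  · rintro c ⟨Y, rfl, hY⟩
    rw [mul_comm]
    exact hT.2.2 Y hY

theorem cmp_tight (hW : W.card = (κ + 1) * s + κ) : Tight κ s (powersetCard (κ + 1) W) := by
  refine ⟨fun f hf => (mem_powersetCard.1 hf).2, fun N hN hNd => ?_, fun Y hY => ?_⟩
  · have h1 : (N.biUnion id).card = N.card * (κ + 1) :=
      Pk.card (G := powersetCard (κ + 1) W) (fun f hf => (mem_powersetCard.1 hf).2)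
        ⟨N, hN, hNd, rfl, rfl⟩
    have h2 : N.biUnion id ⊆ W := by
      intro x hx
      obtain ⟨f, hf, hxf⟩ := mem_biUnion.1 hx
      exact (mem_powersetCard.1 (hN hf)).1 hxf
    have h3 := card_le_card h2
    rw [h1, hW] at h3
    by_contra hcon
    push Not at hcon
    have h4 : (s + 1) * (κ + 1) ≤ N.card * (κ + 1) := Nat.mul_le_mul_right _ hcon
    have h5 : (s + 1) * (κ + 1) = (κ + 1) * s + κ + 1 := by ring
    omega
  · by_contra hcon
    push Not at hcon
    have h1 : κ + 1 ≤ (W \ Y).card := by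
      have h2 := card_sdiff_add_card_inter W Y
      have h3 : (W ∩ Y).card ≤ Y.card := card_le_card inter_subset_right
      omega
    obtain ⟨f, hf, hfc⟩ := exists_subset_card_eq h1
    obtain ⟨x, hx⟩ := hY f (mem_powersetCard.2 ⟨hf.trans sdiff_subset, hfc⟩)
    rw [mem_inter] at hx
    exact (mem_sdiff.1 (hf hx.1)).2 hx.2

end Pool.Agent.H10.HM
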