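import Pool.Agent.H73.CovE
import Pool.Agent.H10.HM.FinA
import Pool.Agent.H10.HM.TriS
import Pool.Agent.H10.HM.Shp

/-!
# Module Main: the theorem of the hand-in
-/

set_option autoImplicit false

namespace Pool.Agent.H10.HM

open Finset
open Pool.Agent.H73.Cov

/-- the matching number of `F` is `s` -/
def HasNu {n : ℕ} (F : Finset (Finset (Fin n))) (s : ℕ) : Prop :=
  IsGreatest {m : ℕ | ∃ M ⊆ F, M.card = m ∧ (M : Set (Finset (Fin n))).PairwiseDisjoint id} s

/-- the covering number of `F` is `c` -/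
def HasTau {n : ℕ} (F : Finset (Finset (Fin n))) (c : ℕ) : Prop :=
  IsLeast {c : ℕ | ∃ Y : Finset (Fin n), Y.card = c ∧ ∀ e ∈ F, (e ∩ Y).Nonempty} c

/-- the triangle family: the `k`-subsets of `W ∪ {x, y, z}` which contain none or exactly two of `x, y, z` -/
def Tri {n : ℕ} (k : ℕ) (W : Finset (Fin n)) (x y z : Fin n) : Finset (Finset (Fin n)) :=
  (powersetCard k (W ∪ {x, y, z})).filter fun f => f ∩ {x, y, z} = ∅ ∨ (f ∩ {x, y, z}).card = 2

private lemma tight_of {n κ s : ℕ} {F : Finset (Finset (Fin n))} (hF : ∀ e ∈ F, e.card = κ + 1) (hν : HasNu F s)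
    (hτ : HasTau F (s * (κ + 1))) : Tight κ s F := by
  refine ⟨hF, ?_, ?_⟩
  · intro N hN hNd
    exact hν.2 ⟨N, hN, rfl, hNd⟩
  · intro Y hY
    have := hτ.2 ⟨Y, rfl, hY⟩
    rwa [mul_comm] at this

theorem main :
    (∀ k : ℕ, 1 ≤ k → ∃ s₀ : ℕ, ∀ s : ℕ, s₀ < s → ∀ (n : ℕ) (F : Finset (Finset (Fin n))), (∀ e ∈ F, e.card = k) →
      HasNu F s → HasTau F (s * k) →
        F.card ≤ (s * k + k - 1).choose k ∧
        ((∃ W : Finset (Fin n), W.card = s * k + k - 1 ∧ F = powersetCard k W) ∨
          (2 ≤ k ∧ F.card < (s * k + k - 3).choose k + 3 * (s * k + k - 3).choose (k - 2)) ∨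
          (2 ≤ k ∧ F.card = (s * k + k - 3).choose k + 3 * (s * k + k - 3).choose (k - 2) ∧
            ∃ (W : Finset (Fin n)) (x y z : Fin n), W.card = s * k + k - 3 ∧ x ≠ y ∧ y ≠ z ∧ x ≠ z ∧
              x ∉ W ∧ y ∉ W ∧ z ∉ W ∧ F = Tri k W x y z))) ∧
    (∀ k s n : ℕ, 1 ≤ k → 1 ≤ s → ∀ W : Finset (Fin n), W.card = s * k + k - 1 →
      HasNu (powersetCard k W) s ∧ HasTau (powersetCard k W) (s * k) ∧
        (powersetCard k W).card = (s * k + k - 1).choose k) ∧
    (∀ k s n : ℕ, 2 ≤ k → 1 ≤ s → ∀ (W : Finset (Fin n)) (x y z : Fin n), W.card = s * k + k - 3 →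
      x ≠ y → y ≠ z → x ≠ z → x ∉ W → y ∉ W → z ∉ W →
      HasNu (Tri k W x y z) s ∧ HasTau (Tri k W x y z) (s * k) ∧
        (Tri k W x y z).card = (s * k + k - 3).choose k + 3 * (s * k + k - 3).choose (k - 2)) := by
  refine ⟨?_, ?_, ?_⟩
  · intro k hk
    obtain ⟨κ, rfl⟩ : ∃ κ, k = κ + 1 := ⟨k - 1, by omega⟩
    rcases Nat.eq_zero_or_pos κ with rfl | hκ
    · -- `k = 1`
      refine ⟨0, ?_⟩
      intro s _ n F hF hν hτ
      have hT := tight_of hF hν hτ
      have h1 : F = powersetCard (0 + 1) (F.biUnion id) := by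
        ext f
        rw [Finset.mem_powersetCard]
        constructor
        · exact fun hf => ⟨Finset.subset_biUnion_of_mem id hf, hF f hf⟩
        · rintro ⟨hf, hfc⟩
          simp only [zero_add] at hfc
          obtain ⟨x, rfl⟩ := Finset.card_eq_one.1 hfc
          have hx : x ∈ F.biUnion id := hf (Finset.mem_singleton_self x)
          obtain ⟨g, hg, hxg⟩ := Finset.mem_biUnion.1 hx
          have hgc := hF g hg
          simp only [zero_add] at hgc
          obtain ⟨y, rfl⟩ := Finset.card_eq_one.1 hgc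
          have : x = y := by simpa using hxg
          rw [this]
          exact hg
      have h2 : (F.biUnion id).card = s := by
        have hd : (F : Set (Finset (Fin n))).PairwiseDisjoint id := by
          intro e he f hf hef
          have h2 := hF e he
          have h3 := hF f hf
          simp only [zero_add] at h2 h3
          obtain ⟨x, rfl⟩ := Finset.card_eq_one.1 h2
          obtain ⟨y, rfl⟩ := Finset.card_eq_one.1 h3
          simp only [Function.onFun, id]
          rw [Finset.disjoint_singleton]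
          rintro rfl
          exact hef rfl
        have h3 : F.card ≤ s := hν.2 ⟨F, subset_rfl, rfl, hd⟩
        have h4 : (F.biUnion id).card = F.card := by
          rw [Finset.card_biUnion (fun f hf f' hf' hne => hd hf hf' hne)]
          have h5 : ∀ f ∈ F, (id f : Finset (Fin n)).card = 1 := fun f hf => by
            have := hF f hf
            simpa using this
          rw [Finset.sum_congr rfl h5]
          simp
        obtain ⟨N, hN, hNc, -⟩ := hν.1
        have h6 := Finset.card_le_card hN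
        omega
      have h3 : s * (0 + 1) + (0 + 1) - 1 = s := by omega
      refine ⟨?_, Or.inl ⟨F.biUnion id, by rw [h2, h3], h1⟩⟩
      rw [h3, h1, Finset.card_powersetCard, h2]
    · obtain ⟨s₀, hs₀⟩ := tight_bound κ hκ
      obtain ⟨s₁, hs₁⟩ := core κ hκ
      refine ⟨s₀ + s₁ + 1, ?_⟩
      intro s hs n F hF hν hτ
      have hT := tight_of hF hν hτ
      have e : s * (κ + 1) + (κ + 1) - 1 = s * (κ + 1) + κ := by omega
      refine ⟨by rw [e]; exact hs₀ s (by omega) (Fin n) F hT, ?_⟩
      have e3 : s * (κ + 1) + (κ + 1) - 3 = s * (κ + 1) + κ - 2 := by omega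
      have e4 : κ + 1 - 2 = κ - 1 := by omega
      have hgg : (s * (κ + 1) + (κ + 1) - 3).choose (κ + 1) + 3 * (s * (κ + 1) + (κ + 1) - 3).choose (κ + 1 - 2) = gg κ s := by
        rw [e3, e4]
        rfl
      rw [hgg]
      rcases Nat.lt_or_ge F.card (gg κ s) with hlt | hge
      · exact Or.inr (Or.inl ⟨by omega, hlt⟩)
      · rcases hs₁ s (by omega) (Fin n) F hT hge with ⟨W, hW, hFW⟩ | ⟨W, x, y, z, hxy, hyz, hxz, hx, hy, hz, hW, hsub⟩
        · left
          exact ⟨W, by rw [hW, e, mul_comm], hFW⟩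
        · right
          right
          have hWc : W.card = s * (κ + 1) + κ - 2 := by
            rw [mul_comm] at hW
            omega
          have hc := tri_card (κ := κ) hκ hxy hyz hxz hx hy hz
          have hc' : (tri κ W x y z).card = gg κ s := by
            rw [hc, hWc]
            rfl
          have hFt : F = tri κ W x y z := Finset.eq_of_subset_of_card_le hsub (by rw [hc']; exact hge)
          refine ⟨by omega, by rw [hFt, hc'], W, x, y, z, by rw [hWc, e3], hxy, hyz, hxz, hx, hy, hz, hFt⟩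
  · intro k s n hk hs W hW
    obtain ⟨κ, rfl⟩ : ∃ κ, k = κ + 1 := ⟨k - 1, by omega⟩
    have hT : Tight κ s (powersetCard (κ + 1) W) := cmp_tight (by rw [hW, mul_comm]; omega)
    exact ⟨(nu_tau hT).1, (nu_tau hT).2, by rw [Finset.card_powersetCard, hW]⟩
  · intro k s n hk hs W x y z hW hxy hyz hxz hx hy hz
    obtain ⟨κ, rfl⟩ : ∃ κ, k = κ + 1 := ⟨k - 1, by omega⟩
    have hκ : 1 ≤ κ := by omega
    have h5 : κ + 1 ≤ s * (κ + 1) := Nat.le_mul_of_pos_left _ hs
    have hWc : W.card + 2 = (κ + 1) * s + κ := by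
      rw [hW, mul_comm (κ + 1) s]
      omega
    have hT : Tight κ s (tri κ W x y z) := tri_tight hκ hs hxy hyz hxz hx hy hz hWc
    refine ⟨(nu_tau hT).1, (nu_tau hT).2, ?_⟩
    have hc := tri_card (κ := κ) hκ hxy hyz hxz hx hy hz
    have e4 : κ + 1 - 2 = κ - 1 := by omega
    rw [e4, ← hW]
    exact hc

end Pool.Agent.H10.HM
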