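import Pool.Agent.H10.HM.Defs

/-!
# Module Star: the counting inequality

As `IMatch.large_family` (`Pool/Agent/H73/CovD.lean`). `N = s (κ+1)`. `|F| ≤ F0 + F1 + F2` (`card_F_le`), `F0 + |miss| = binom N (κ+1)` (`card_F0_add_miss`), `κ! F1 ≤ ∑ |Nb b|` (`card_F1_le`), `F2 ≤ s^(κ-1) ((κ+1)(κ-1))^(κ+1)` (`card_F2_le`).
`binom N (κ+1) + κ binom N κ ≤ gg κ s + 2 binom N κ`: for `κ ≥ 2` by `choose_add_ge` (`gg ≥ binom (N + (κ-2)) (κ+1)`); for `κ = 1`: `binom N 2 + N ≤ binom (N-1) 2 + 2 N`. So `|miss| + κ binom N κ ≤ F1 + F2 + 2 binom N κ`; multiply by `κ!`: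
`κ! binom N κ = N.descFactorial κ`, `N^κ ≤ N.descFactorial κ + κ² N^(κ-1)` (`pow_le_descFactorial`), `N.descFactorial κ ≤ N^κ`.
-/

set_option autoImplicit false

namespace Pool.Agent.H10.HM

open Finset
open Pool.Agent.H73.Cov

variable {V : Type} [Fintype V] [DecidableEq V] {κ s : ℕ} {F : Finset (Finset V)}

private theorem gg_ge (hκ : 1 ≤ κ) (hs : κ + 1 ≤ s) :
    (s * (κ + 1)).choose (κ + 1) + κ * (s * (κ + 1)).choose κ ≤ gg κ s + 2 * (s * (κ + 1)).choose κ := by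
  unfold gg
  generalize hN : s * (κ + 1) = N
  have hN2 : 2 ≤ N := by
    rw [← hN]
    nlinarith
  rcases Nat.lt_or_ge κ 2 with h | h
  · obtain rfl : κ = 1 := by omega
    obtain ⟨n, rfl⟩ : ∃ n, N = n + 1 := ⟨N - 1, by omega⟩
    have e : n + 1 + 1 - 2 = n := by omega
    have e2 : (n + 1).choose (1 + 1) = n.choose 1 + n.choose 2 := Nat.choose_succ_succ n 1
    have e3 : n.choose (1 + 1) = n.choose 2 := rfl
    have e4 : n.choose 1 = n := Nat.choose_one_right n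
    have e5 : (n + 1).choose 1 = n + 1 := Nat.choose_one_right (n + 1)
    rw [e, e2, e3, e4, e5]
    simp only [Nat.sub_self, Nat.choose_zero_right]
    omega
  · have h1 := choose_add_ge N κ (κ - 2)
    have e : N + κ - 2 = N + (κ - 2) := by omega
    rw [e]
    have h2 : κ * N.choose κ = (κ - 2) * N.choose κ + 2 * N.choose κ := by
      rw [← Nat.add_mul]
      congr 1
      omega
    omega

theorem star (hκ : 1 ≤ κ) (hT : Tight κ s F) (M : IMatch κ s F) (hs : κ + 1 ≤ s) (hg : gg κ s ≤ F.card) :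
    κ.factorial * M.miss.card + κ * (s * (κ + 1)) ^ κ ≤
      (∑ b : Fin κ → Fin s × Fin (κ + 1), (M.Nb b).card) + 2 * (s * (κ + 1)) ^ κ +
        (κ ^ 3 + κ.factorial * ((κ + 1) * (κ - 1)) ^ (κ + 1)) * (s * (κ + 1)) ^ (κ - 1) := by
  have hκs : κ - 1 ≤ s := by omega
  have hgg := gg_ge (κ := κ) (s := s) hκ hs
  set N := s * (κ + 1) with hN
  have h0 := IMatch.card_F_le F M.U
  have h1 := M.card_F0_add_miss hT.1
  have h2 := M.card_F1_le hT.1
  have h3 := M.card_F2_le hT hκs hκ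
  set F0 := (F.filter (fun f => f ⊆ M.U)).card
  set F1 := (F.filter (fun f => (f \ M.U).card = 1)).card
  set F2 := (F.filter (fun f => 2 ≤ (f \ M.U).card)).card
  set Pc := ∑ b : Fin κ → Fin s × Fin (κ + 1), (M.Nb b).card
  rw [← hN] at h1
  have h5 : M.miss.card + κ * N.choose κ ≤ F1 + F2 + 2 * N.choose κ := by omega
  have h6 : s ^ (κ - 1) ≤ N ^ (κ - 1) := Nat.pow_le_pow_left (by
    rw [hN]
    exact Nat.le_mul_of_pos_right s (Nat.succ_pos κ)) _
  have h7 : F2 ≤ ((κ + 1) * (κ - 1)) ^ (κ + 1) * N ^ (κ - 1) := by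
    refine le_trans h3 ?_
    rw [mul_comm]
    exact Nat.mul_le_mul_left _ h6
  have h8 : κ.factorial * N.choose κ = N.descFactorial κ :=
    (Nat.descFactorial_eq_factorial_mul_choose N κ).symm
  have h9 : N ^ κ ≤ N.descFactorial κ + κ ^ 2 * N ^ (κ - 1) := by
    obtain ⟨κ', rfl⟩ : ∃ κ', κ = κ' + 1 := ⟨κ - 1, by omega⟩
    simpa using pow_le_descFactorial N κ'
  have h13 : N.descFactorial κ ≤ N ^ κ := Nat.descFactorial_le_pow N κ
  have h10 := Nat.mul_le_mul_left κ.factorial h5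
  have h11 := Nat.mul_le_mul_left κ.factorial h7
  have h12 := Nat.mul_le_mul_left κ h9
  have e1 : κ.factorial * (M.miss.card + κ * N.choose κ)
      = κ.factorial * M.miss.card + κ * N.descFactorial κ := by
    rw [← h8]
    ring
  have e2 : κ * (N.descFactorial κ + κ ^ 2 * N ^ (κ - 1))
      = κ * N.descFactorial κ + κ ^ 3 * N ^ (κ - 1) := by ring
  have e3 : κ.factorial * (F1 + F2 + 2 * N.choose κ)
      = κ.factorial * F1 + κ.factorial * F2 + 2 * N.descFactorial κ := by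
    rw [← h8]
    ring
  have e4 : (κ ^ 3 + κ.factorial * ((κ + 1) * (κ - 1)) ^ (κ + 1)) * N ^ (κ - 1)
      = κ ^ 3 * N ^ (κ - 1) + κ.factorial * (((κ + 1) * (κ - 1)) ^ (κ + 1) * N ^ (κ - 1)) := by
    ring
  rw [e1, e3] at h10
  rw [e2] at h12
  rw [e4]
  omega

end Pool.Agent.H10.HM
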