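import Pool.Agent.H10.HM.Frame
import Pool.Agent.H10.HM.Star

/-!
# Module Nice: many frames are complete or of triangle type, few sets are missing

`N = s (κ+1)`, `m = mm κ`, `q = m κ`, `A = N^(q-(κ+1))`, `c1 = (κ+1) κ`, `D = |miss|`, `P = ∑ |Nb b|`, `Nc` the number of the frames `h ∉ E0` with `Cp` or `Gp`. As in `tight_bound` (`Pool/Agent/H73/CovE.lean`): `∑_h ∑_i |row h i| = m N A P` (`M.sum_rows`),
`|E0| ≤ q² (κ+1) N^κ A + q^(κ+1) (κ+1)^(κ+1) |Bad| A` (`M.card_E0_le`), `|Bad| ≤ (κ+1)! D` (`M.card_Bad_le`), `∑_i |row h i| ≤ m c1` always (`M.Nb_card_le`).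
UPPER BOUND of the rows: for `h ∉ E0`: `∑_i |row h i| ≤ κ m`, in the cases `Cp`, `Gp` too (`M.structure_lemma` of `Pool/Agent/H73/CovC.lean`: `∑ + 1 ≤ κ m` or all rows have `κ` elements; `mm κ` is large enough), and `∑_i |row h i| + 2 m + 1 ≤ κ m` if `h` is neither `Cp` nor `Gp` (`frame`). So
`m N A P + (2 m + 1) (N^q - Nc - |E0|) ≤ κ m N^q + m c1 |E0|` and also `m N A P ≤ κ m N^q + m c1 |E0|`. `star` times `m N A`: `m N A κ! D + κ m N^q ≤ m N A P + 2 m N^q + m c3 N^κ A`.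
FIRST RESULT: `κ! D N A ≤ 2 N^(κ+1) A + c1 |E0| + c3 N^κ A`, with `c1 |E0| ≤ c N^κ A + c' D A`, `N ≥ 2 c'`: `D ≤ C N^κ`, then in terms of `s^κ`. SECOND RESULT: adding, `N^q + m N A κ! D ≤ (2m+1) Nc + (m c1 + 2m + 1) |E0| + m c3 N^κ A`; `(m c1 + 2m+1) |E0| ≤ c N^κ A + c' D A ≤ c N^κ A + m N A κ! D` for `N ≥ c'`,
and `(c + m c3) N^κ A ≤ N^q / 2` for `N ≥ 2 (c + m c3)`: `N^q ≤ 2 (2m+1) Nc`.
-/

set_option autoImplicit false

namespace Pool.Agent.H10.HM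

open Finset
open Pool.Agent.H73.Cov

/-- first estimate: few sets are missing -/
private theorem ni_one {N A D E P m c1 c3 e1 e2 f κ : ℕ} (hA : 0 < A) (hm : 0 < m) (hf : 1 ≤ f) (hκ : 1 ≤ κ)
    (h7 : f * D + κ * N ^ κ ≤ P + 2 * N ^ κ + c3 * N ^ (κ - 1))
    (hs : m * (N * A * P) ≤ κ * m * (N ^ (κ + 1) * A) + m * c1 * E)
    (hE : E ≤ e1 * (N ^ κ * A) + e2 * (D * A)) (hN : 2 * (c1 * e2) ≤ N) (hN0 : 0 < N) :
    D ≤ (2 * (c1 * e1 + c3) + 4) * N ^ κ := by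
  have p1 : N * N ^ (κ - 1) = N ^ κ := by
    rw [← pow_succ']
    congr 1
    omega
  have p2 : N * N ^ κ = N ^ (κ + 1) := (pow_succ' N κ).symm
  have h1 : N * A * (f * D + κ * N ^ κ) ≤ N * A * (P + 2 * N ^ κ + c3 * N ^ (κ - 1)) :=
    Nat.mul_le_mul_left _ h7
  have h2 : N * A * P ≤ κ * (N ^ (κ + 1) * A) + c1 * E := by
    refine Nat.le_of_mul_le_mul_left (le_trans hs (le_of_eq ?_)) hm
    ring
  have h3 : c1 * E ≤ c1 * (e1 * (N ^ κ * A) + e2 * (D * A)) := Nat.mul_le_mul_left _ hE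
  have e3 : N * A * (f * D + κ * N ^ κ) = f * (N * A * D) + κ * (N ^ (κ + 1) * A) := by
    rw [← p2]
    ring
  have e4 : N * A * (P + 2 * N ^ κ + c3 * N ^ (κ - 1)) =
      N * A * P + 2 * (N ^ (κ + 1) * A) + c3 * (N ^ κ * A) := by
    rw [← p2, ← p1]
    ring
  rw [e3, e4] at h1
  have h4 : N * A * D ≤ f * (N * A * D) := Nat.le_mul_of_pos_left _ hf
  have h5 : N * A * D ≤ c1 * (e1 * (N ^ κ * A) + e2 * (D * A)) + 2 * (N ^ (κ + 1) * A) +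
      c3 * (N ^ κ * A) := by omega
  have h6 : 2 * (c1 * e2) * (D * A) ≤ N * (D * A) := Nat.mul_le_mul_right _ hN
  have e5 : N * A * D = N * (D * A) := by ring
  have e6 : c1 * (e1 * (N ^ κ * A) + e2 * (D * A)) = c1 * e1 * (N ^ κ * A) + c1 * e2 * (D * A) := by
    ring
  have e7 : 2 * (c1 * e2) * (D * A) = 2 * (c1 * e2 * (D * A)) := by ring
  rw [e5, e6] at h5
  rw [e7] at h6
  have h8 : N * (D * A) ≤ 2 * (c1 * e1 * (N ^ κ * A)) + 4 * (N ^ (κ + 1) * A) +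
      2 * (c3 * (N ^ κ * A)) := by omega
  have h9 : N ^ κ * A ≤ N ^ (κ + 1) * A := by
    rw [← p2]
    exact Nat.mul_le_mul_right _ (Nat.le_mul_of_pos_left _ hN0)
  have h10 : N * (D * A) ≤ (2 * (c1 * e1 + c3) + 4) * (N ^ (κ + 1) * A) := by
    have h11 := Nat.mul_le_mul_left (2 * (c1 * e1 + c3)) h9
    have e8 : (2 * (c1 * e1 + c3) + 4) * (N ^ (κ + 1) * A) =
        2 * (c1 * e1 + c3) * (N ^ (κ + 1) * A) + 4 * (N ^ (κ + 1) * A) := by ring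
    have e9 : 2 * (c1 * e1 + c3) * (N ^ κ * A) =
        2 * (c1 * e1 * (N ^ κ * A)) + 2 * (c3 * (N ^ κ * A)) := by ring
    omega
  have h12 : N * A * D ≤ N * A * ((2 * (c1 * e1 + c3) + 4) * N ^ κ) := by
    rw [e5]
    refine le_trans h10 (le_of_eq ?_)
    rw [← p2]
    ring
  exact Nat.le_of_mul_le_mul_left h12 (Nat.mul_pos hN0 hA)

/-- second estimate: many frames are nice -/
private theorem ni_two {N A D E P m c1 c3 e1 e2 f κ Nc : ℕ} (hm : 0 < m) (hf : 1 ≤ f) (hκ : 1 ≤ κ)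
    (h7 : f * D + κ * N ^ κ ≤ P + 2 * N ^ κ + c3 * N ^ (κ - 1))
    (hs : m * (N * A * P) + (2 * m + 1) * (N ^ (κ + 1) * A) ≤
      κ * m * (N ^ (κ + 1) * A) + (2 * m + 1) * Nc + (m * c1 + 2 * m + 1) * E)
    (hE : E ≤ e1 * (N ^ κ * A) + e2 * (D * A)) (hN : (m * c1 + 2 * m + 1) * e2 ≤ N)
    (hN2 : 2 * ((m * c1 + 2 * m + 1) * e1 + m * c3) ≤ N) :
    N ^ (κ + 1) * A ≤ 2 * (2 * m + 1) * Nc := by
  obtain ⟨c6, hc6⟩ : ∃ c6, c6 = m * c1 + 2 * m + 1 := ⟨_, rfl⟩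
  rw [← hc6] at hs hN hN2
  have p1 : N * N ^ (κ - 1) = N ^ κ := by
    rw [← pow_succ']
    congr 1
    omega
  have p2 : N * N ^ κ = N ^ (κ + 1) := (pow_succ' N κ).symm
  have h1 : m * (N * A) * (f * D + κ * N ^ κ) ≤ m * (N * A) * (P + 2 * N ^ κ + c3 * N ^ (κ - 1)) :=
    Nat.mul_le_mul_left _ h7
  have e3 : m * (N * A) * (f * D + κ * N ^ κ) = m * f * (N * (D * A)) + κ * m * (N ^ (κ + 1) * A) := by
    rw [← p2]
    ring
  have e4 : m * (N * A) * (P + 2 * N ^ κ + c3 * N ^ (κ - 1)) =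
      m * (N * A * P) + 2 * m * (N ^ (κ + 1) * A) + m * c3 * (N ^ κ * A) := by
    rw [← p2, ← p1]
    ring
  rw [e3, e4] at h1
  have h3 : c6 * E ≤ c6 * (e1 * (N ^ κ * A) + e2 * (D * A)) := Nat.mul_le_mul_left _ hE
  have e6 : c6 * (e1 * (N ^ κ * A) + e2 * (D * A)) = c6 * e1 * (N ^ κ * A) + c6 * e2 * (D * A) := by
    ring
  rw [e6] at h3
  have h4 : c6 * e2 * (D * A) ≤ N * (D * A) := Nat.mul_le_mul_right _ hN
  have h5 : N * (D * A) ≤ m * f * (N * (D * A)) :=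
    Nat.le_mul_of_pos_left _ (Nat.mul_pos hm hf)
  have h6 : 2 * (c6 * e1 + m * c3) * (N ^ κ * A) ≤ N * (N ^ κ * A) := Nat.mul_le_mul_right _ hN2
  have e7 : N * (N ^ κ * A) = N ^ (κ + 1) * A := by
    rw [← p2]
    ring
  have e8 : 2 * (c6 * e1 + m * c3) * (N ^ κ * A) =
      2 * (c6 * e1 * (N ^ κ * A)) + 2 * (m * c3 * (N ^ κ * A)) := by ring
  rw [e7, e8] at h6
  have e9 : (2 * m + 1) * (N ^ (κ + 1) * A) = 2 * m * (N ^ (κ + 1) * A) + N ^ (κ + 1) * A := by ring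
  rw [e9] at hs
  have e10 : 2 * (2 * m + 1) * Nc = 2 * ((2 * m + 1) * Nc) := by ring
  rw [e10]
  omega

open Classical in
theorem nice (κ : ℕ) (hκ : 1 ≤ κ) : ∃ C s₀ : ℕ, ∀ s, s₀ < s → ∀ (V : Type) [Fintype V] [DecidableEq V]
    (F : Finset (Finset V)), Tight κ s F → gg κ s ≤ F.card → ∀ M : IMatch κ s F,
      M.miss.card ≤ C * s ^ κ ∧
      (s * (κ + 1)) ^ (mm κ * κ) ≤ C * ((univ : Finset (Fin (mm κ) × Fin κ → Fin s × Fin (κ + 1))).filter fun h =>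
        Function.Injective (fun π => (h π).1) ∧
          (Cp M (univ.image fun π => (h π).1) ∨ Gp M (univ.image fun π => (h π).1))).card := by
  obtain ⟨c1, hc1⟩ : ∃ c1, c1 = (κ + 1) * κ := ⟨_, rfl⟩
  obtain ⟨m, hm⟩ : ∃ m, m = mm κ := ⟨_, rfl⟩
  obtain ⟨q, hq⟩ : ∃ q, q = m * κ := ⟨_, rfl⟩
  obtain ⟨c3, hc3⟩ : ∃ c3, c3 = κ ^ 3 + κ.factorial * ((κ + 1) * (κ - 1)) ^ (κ + 1) := ⟨_, rfl⟩
  obtain ⟨fk1, hfk1⟩ : ∃ f, f = (κ + 1).factorial := ⟨_, rfl⟩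
  obtain ⟨e1, he1⟩ : ∃ e, e = q ^ 2 * (κ + 1) := ⟨_, rfl⟩
  obtain ⟨e2, he2⟩ : ∃ e, e = q ^ (κ + 1) * (κ + 1) ^ (κ + 1) * fk1 := ⟨_, rfl⟩
  obtain ⟨c5, hc5⟩ : ∃ c, c = (2 * (c1 * e1 + c3) + 4) * (κ + 1) ^ κ := ⟨_, rfl⟩
  obtain ⟨b1, hb1⟩ : ∃ b, b = 2 * (c1 * e2) := ⟨_, rfl⟩
  obtain ⟨b2, hb2⟩ : ∃ b, b = (m * c1 + 2 * m + 1) * e2 := ⟨_, rfl⟩
  obtain ⟨b3, hb3⟩ : ∃ b, b = 2 * ((m * c1 + 2 * m + 1) * e1 + m * c3) := ⟨_, rfl⟩
  refine ⟨c5 + 2 * (2 * m + 1), κ + b1 + b2 + b3, ?_⟩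
  intro s hs V _ _ F hT hlarge M
  obtain ⟨N, hN⟩ : ∃ N, N = s * (κ + 1) := ⟨_, rfl⟩
  have hsN : s ≤ N := by rw [hN]; exact Nat.le_mul_of_pos_right s (Nat.succ_pos κ)
  have hN0 : 0 < N := by omega
  have hcube : 8 ≤ (κ + 1) ^ 3 := by
    calc 8 = 2 ^ 3 := by norm_num
      _ ≤ (κ + 1) ^ 3 := Nat.pow_le_pow_left (by omega) 3
  have hq1 : κ + 1 ≤ (κ + 1) ^ 3 := by
    calc κ + 1 = (κ + 1) ^ 1 := (pow_one _).symm
      _ ≤ (κ + 1) ^ 3 := Nat.pow_le_pow_right (by omega) (by norm_num)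
  have hmbig : 20 * (κ + 1) ^ 3 = m := by rw [hm]; rfl
  have hm0 : 0 < m := by omega
  have hmq : m ≤ q := by rw [hq]; exact Nat.le_mul_of_pos_right m hκ
  have hκm : κ + 1 ≤ m := by omega
  have hκq : κ + 1 ≤ q := le_trans hκm hmq
  have hms : κ * ((κ + 1) * κ) + 1 ≤ m := by
    rw [← hmbig]
    nlinarith [Nat.zero_le (κ ^ 3), Nat.zero_le (κ ^ 2)]
  obtain ⟨A, hA⟩ : ∃ A, A = N ^ (q - (κ + 1)) := ⟨_, rfl⟩
  have hA0 : 0 < A := by rw [hA]; exact pow_pos hN0 _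
  have pA1 : N ^ (q - κ) = N * A := by
    rw [hA, ← pow_succ']; congr 1; omega
  have pA2 : N ^ (q - 1) = N ^ κ * A := by
    rw [hA, ← pow_add]; congr 1; omega
  have pA3 : N ^ q = N ^ (κ + 1) * A := by
    rw [hA, ← pow_add]; congr 1; omega
  have hcardW : Fintype.card (Fin m × Fin κ) = q := by simp [hq]
  have hcardH : Fintype.card (Fin m × Fin κ → Fin s × Fin (κ + 1)) = N ^ (κ + 1) * A := by
    rw [← pA3, hN, hq]
    simp
  obtain ⟨P, hP⟩ : ∃ P, P = ∑ b : Fin κ → Fin s × Fin (κ + 1), (M.Nb b).card := ⟨_, rfl⟩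
  have hsumrows : ∑ h : Fin m × Fin κ → Fin s × Fin (κ + 1), ∑ i, (M.row h i).card
      = m * (N * A * P) := by
    rw [M.sum_rows m (by rw [← hq]; omega), ← hP, ← hN, ← hq, pA1]
  have h7 := star hκ hT M (by omega) hlarge
  rw [← hP, ← hN, ← hc3] at h7
  have hE0 := M.card_E0_le (W := Fin m × Fin κ) hcardW (by omega) (by omega)
  rw [← hN, pA2, ← hA] at hE0
  have hBd : M.Bad.card ≤ fk1 * M.miss.card := by rw [hfk1]; exact M.card_Bad_le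
  have hE : (M.E0 (Fin m × Fin κ)).card ≤ e1 * (N ^ κ * A) + e2 * (M.miss.card * A) := by
    refine le_trans hE0 ?_
    have h1 := Nat.mul_le_mul_left (q ^ (κ + 1) * (κ + 1) ^ (κ + 1)) hBd
    have h2 := Nat.mul_le_mul_right A h1
    rw [he1, he2]
    refine Nat.add_le_add (le_of_eq ?_) (le_trans h2 (le_of_eq ?_))
    · ring
    · ring
  have hrowle : ∀ h : Fin m × Fin κ → Fin s × Fin (κ + 1),
      ∑ i, (M.row h i).card ≤ m * c1 := by
    intro h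
    calc ∑ i, (M.row h i).card ≤ ∑ _i : Fin m, c1 :=
          Finset.sum_le_sum (fun i _ => by rw [hc1]; exact M.Nb_card_le hT _)
      _ = m * c1 := by simp
  have hstruct : ∀ h : Fin m × Fin κ → Fin s × Fin (κ + 1), h ∉ M.E0 (Fin m × Fin κ) →
      ∑ i, (M.row h i).card ≤ κ * m := by
    intro h hh
    rcases M.structure_lemma hT hκ hms hh with h1 | ⟨Z₀, hZc, hZ⟩
    · omega
    · rw [Finset.sum_congr rfl (fun i _ => by rw [hZ i, hZc])]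
      simp [mul_comm]
  have hsum1 : m * (N * A * P) ≤ κ * m * (N ^ (κ + 1) * A)
      + m * c1 * (M.E0 (Fin m × Fin κ)).card := by
    rw [← hsumrows, ← hcardH]
    exact sum_le_of_exceptional _ _ _ _ hstruct hrowle
  have hfac : 1 ≤ κ.factorial := Nat.factorial_pos κ
  have hone := ni_one hA0 hm0 hfac hκ h7 hsum1 hE (by rw [← hb1]; omega) hN0
  refine ⟨?_, ?_⟩
  · refine le_trans hone ?_
    rw [hN, Nat.mul_pow]
    have e3 : (2 * (c1 * e1 + c3) + 4) * (s ^ κ * (κ + 1) ^ κ) = c5 * s ^ κ := by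
      rw [hc5]
      ring
    rw [e3]
    exact Nat.mul_le_mul_right _ (Nat.le_add_right _ _)
  · subst hm
    obtain ⟨S, hS⟩ : ∃ S : Finset (Fin (mm κ) × Fin κ → Fin s × Fin (κ + 1)),
      S = univ.filter fun h => Function.Injective (fun π => (h π).1) ∧
          (Cp M (univ.image fun π => (h π).1) ∨ Gp M (univ.image fun π => (h π).1)) := ⟨_, rfl⟩
    have hsum2 : mm κ * (N * A * P) + (2 * mm κ + 1) * (N ^ (κ + 1) * A) ≤
        κ * mm κ * (N ^ (κ + 1) * A) + (2 * mm κ + 1) * S.card +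
          (mm κ * c1 + 2 * mm κ + 1) * (M.E0 (Fin (mm κ) × Fin κ)).card := by
      rw [← hsumrows, ← hcardH]
      have h1 : ∀ h : Fin (mm κ) × Fin κ → Fin s × Fin (κ + 1),
          ∑ i, (M.row h i).card + (2 * mm κ + 1) ≤ κ * mm κ + (if h ∈ S then 2 * mm κ + 1 else 0) +
            (if h ∈ M.E0 (Fin (mm κ) × Fin κ) then mm κ * c1 + 2 * mm κ + 1 else 0) := by
        intro h
        by_cases hh : h ∈ M.E0 (Fin (mm κ) × Fin κ)
        · rw [if_pos hh]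
          have := hrowle h
          omega
        · rw [if_neg hh]
          rcases frame hκ hT M hh with h2 | h2 | h2
          · rw [if_pos (by
              rw [hS, Finset.mem_filter]
              exact ⟨Finset.mem_univ _, M.inj_of_not_E0 hh, Or.inl h2⟩)]
            have := hstruct h hh
            omega
          · rw [if_pos (by
              rw [hS, Finset.mem_filter]
              exact ⟨Finset.mem_univ _, M.inj_of_not_E0 hh, Or.inr h2⟩)]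
            have := hstruct h hh
            omega
          · omega
      obtain ⟨t1, ht1⟩ : ∃ t1, t1 = 2 * mm κ + 1 := ⟨_, rfl⟩
      obtain ⟨t2, ht2⟩ : ∃ t2, t2 = mm κ * c1 + 2 * mm κ + 1 := ⟨_, rfl⟩
      obtain ⟨t3, ht3⟩ : ∃ t3, t3 = κ * mm κ := ⟨_, rfl⟩
      rw [← ht1, ← ht2, ← ht3]
      rw [← ht1, ← ht2, ← ht3] at h1
      have h2 := Finset.sum_le_sum (s := (univ : Finset (Fin (mm κ) × Fin κ → Fin s × Fin (κ + 1))))
        (fun h _ => h1 h)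
      simp only [Finset.sum_add_distrib, Finset.sum_const, Finset.sum_ite_mem, Finset.univ_inter,
        Finset.card_univ, smul_eq_mul] at h2
      calc ∑ h : Fin (mm κ) × Fin κ → Fin s × Fin (κ + 1), ∑ i, (M.row h i).card +
            t1 * Fintype.card (Fin (mm κ) × Fin κ → Fin s × Fin (κ + 1))
          = ∑ h : Fin (mm κ) × Fin κ → Fin s × Fin (κ + 1), ∑ i, (M.row h i).card +
            Fintype.card (Fin (mm κ) × Fin κ → Fin s × Fin (κ + 1)) * t1 := by ring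
        _ ≤ _ := h2
        _ = _ := by ring
    have htwo := ni_two hm0 hfac hκ h7 hsum2 hE (by rw [← hb2]; omega) (by rw [← hb3]; omega)
    rw [← hS, ← hN, ← hq, pA3]
    refine le_trans htwo ?_
    exact Nat.mul_le_mul_right _ (Nat.le_add_left _ _)

end Pool.Agent.H10.HM
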