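import Pool.Agent.H10.HM.LocB
import Pool.Agent.H10.HM.LocC
import Pool.Agent.H10.HM.CpC

/-!
# Module RowD: rows over a complete set of blocks which cannot be extended

`G = M.res (insert i J)`, tight with parameter `t = |J| + 1`; `P = uJ M J ∪ Z`, `|P| = (κ+1) |J| + κ`, `w = κ + 1`; `Full κ G P`. `G` is not complete (`cp_of_cmp`). For a row `R ⊆ P`: `Sn G P R = Si M i R`: if `insert x R ∈ G`, `x ∉ P`, then `x ∈ M.edge i`: otherwise `insert x R` meets no block outside `J`, so it is in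
`res J`, all members of which are in `P`; conversely `x ∈ M.edge i` is not in `P` (`i ∉ J`, `Z ∩ M.U = ∅`) and `insert x R ∈ F` is in `res (insert i J)`. `|Si M i R| ≤ κ + 1`. `locC` with `c = κ + 1`, `m = mm κ`, and in the second case `locB`.
-/

set_option autoImplicit false

namespace Pool.Agent.H10.HM

open Finset
open Pool.Agent.H73.Cov

variable {V : Type} [DecidableEq V] {κ s : ℕ} {F : Finset (Finset V)}

private lemma edge_disj_P (M : IMatch κ s F) {J : Finset (Fin s)} {Z : Finset V} (hZ : Disjoint Z M.U) {j : Fin s}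
    (hj : j ∉ J) : Disjoint (uJ M J ∪ Z) (M.edge j) := by
  rw [Finset.disjoint_left]
  intro x hx hxe
  rcases Finset.mem_union.1 hx with h | h
  · obtain ⟨i', hi', hxi⟩ := Finset.mem_biUnion.1 h
    have hij : i' ≠ j := fun h => hj (h ▸ hi')
    exact Finset.disjoint_left.1 (M.edge_disjoint hij) hxi hxe
  · exact Finset.disjoint_left.1 hZ h (M.edge_subset_U j hxe)

private lemma sn_eq_si (M : IMatch κ s F) {J : Finset (Fin s)} {i : Fin s} (hi : i ∉ J)
    {Z : Finset V} (hZ : Disjoint Z M.U) (hres : M.res J = powersetCard (κ + 1) (uJ M J ∪ Z))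
    {R : Finset V} (hR : R ⊆ uJ M J ∪ Z) :
    Sn (M.res (insert i J)) (uJ M J ∪ Z) R = Si M i R := by
  ext z
  rw [Sn, Si, Finset.mem_filter, Finset.mem_filter]
  constructor
  · rintro ⟨h1, h2⟩
    rw [Finset.mem_sdiff] at h1
    have h3 := M.mem_res.1 h2
    refine ⟨?_, h3.1⟩
    by_contra hz
    apply h1.2
    have h4 : insert z R ∈ M.res J := by
      rw [M.mem_res]
      refine ⟨h3.1, fun j hj => ?_⟩
      by_cases hji : j = i
      · subst hji
        rw [Finset.disjoint_insert_left]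
        exact ⟨hz, Finset.disjoint_of_subset_left hR (edge_disj_P M hZ hi)⟩
      · exact h3.2 j (by rw [Finset.mem_insert]; push Not; exact ⟨hji, hj⟩)
    rw [hres, Finset.mem_powersetCard] at h4
    exact h4.1 (Finset.mem_insert_self z R)
  · rintro ⟨h1, h2⟩
    have h5 : insert z R ∈ M.res (insert i J) := by
      rw [M.mem_res]
      refine ⟨h2, fun j hj => ?_⟩
      rw [Finset.mem_insert] at hj
      push Not at hj
      rw [Finset.disjoint_insert_left]
      refine ⟨fun h => ?_, Finset.disjoint_of_subset_left hR (edge_disj_P M hZ hj.2)⟩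
      exact Finset.disjoint_left.1 (M.edge_disjoint hj.1) h h1
    refine ⟨?_, h5⟩
    rw [Finset.mem_sdiff]
    refine ⟨Finset.mem_biUnion.2 ⟨_, h5, Finset.mem_insert_self z R⟩, fun h => ?_⟩
    exact Finset.disjoint_left.1 (edge_disj_P M hZ hi) h h1

theorem rowD (hκ : 1 ≤ κ) (hT : Tight κ s F) (M : IMatch κ s F) {J : Finset (Fin s)} {i : Fin s} (hi : i ∉ J)
    {Z : Finset V} (hZ : Disjoint Z M.U) (hZc : Z.card = κ) (hres : M.res J = powersetCard (κ + 1) (uJ M J ∪ Z))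
    (hbig : 10 * (κ + 2) ≤ J.card) (hn : ¬ Cp M (insert i J)) {R : Fin (mm κ) → Finset V}
    (hR : Rows κ (mm κ) (uJ M J ∪ Z) R) :
    ∑ a, (Si M i (R a)).card + 2 * mm κ + 1 ≤ (κ + 1) * mm κ ∨
    (∑ a, (Si M i (R a)).card + 2 * mm κ = (κ + 1) * mm κ ∧
      ∃ (Z₁ : Finset V) (x y z : V), Disjoint Z₁ (uJ M J ∪ Z) ∧ Z₁.card + 1 = κ ∧ x ≠ y ∧ y ≠ z ∧ x ≠ z ∧
        x ∉ uJ M J ∪ Z ∪ Z₁ ∧ y ∉ uJ M J ∪ Z ∪ Z₁ ∧ z ∉ uJ M J ∪ Z ∪ Z₁ ∧
        M.res (insert i J) ⊆ tri κ (uJ M J ∪ Z ∪ Z₁) x y z) := by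
  have hTG := M.tight_res hT (insert i J)
  have hPc : (uJ M J ∪ Z).card = (κ + 1) * J.card + κ := by
    rw [Finset.card_union_of_disjoint, uJ_card, hZc]
    exact Finset.disjoint_of_subset_left (uJ_sub_U M J) hZ.symm
  have hJc : (insert i J).card = J.card + 1 := Finset.card_insert_of_notMem hi
  have hP : Full κ (M.res (insert i J)) (uJ M J ∪ Z) := by
    intro f hf hfc
    refine res_mono M (Finset.subset_insert i J) ?_
    rw [hres]
    exact Finset.mem_powersetCard.2 ⟨hf, hfc⟩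
  have hw : (uJ M J ∪ Z).card + (κ + 1) = (κ + 1) * (insert i J).card + κ := by
    rw [hPc, hJc]
    ring
  have hb : 10 * (κ + 1) * (κ + 1 + 1) ≤ (uJ M J ∪ Z).card := by
    rw [hPc]
    nlinarith
  have hnc : ¬ Cmp κ (M.res (insert i J)) := fun h => hn (cp_of_cmp hT M (by omega) h)
  have hSS : ∀ a, Sn (M.res (insert i J)) (uJ M J ∪ Z) (R a) = Si M i (R a) := fun a =>
    sn_eq_si M hi hZ hres (hR.sub a)
  have hc : ∀ a, (Sn (M.res (insert i J)) (uJ M J ∪ Z) (R a)).card ≤ κ + 1 := by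
    intro a
    rw [hSS a, Si]
    exact le_trans (Finset.card_filter_le _ _) (M.edge_card i).le
  have hmm : mm κ = 20 * (κ + 1) ^ 3 := rfl
  have hk3 : (κ + 1) * (κ + 1) + (κ + 1) + 1 ≤ mm κ := by
    rw [hmm]
    nlinarith [Nat.zero_le κ, Nat.zero_le (κ ^ 2), Nat.zero_le (κ ^ 3)]
  have hk4 : (κ + 1) + 4 * (κ + 1) ≤ mm κ := by
    rw [hmm]
    nlinarith [Nat.zero_le κ, Nat.zero_le (κ ^ 2), Nat.zero_le (κ ^ 3)]
  obtain ⟨-, h | ⟨Z', hZ', hS⟩⟩ := locC hκ hTG hP hw (by omega) hb hnc hR hc hk3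
  · left
    simpa only [hSS] using h
  · right
    obtain ⟨x, y, z, h1, h2, h3, h4, h5, h6, h7⟩ := locB hκ hTG hP hw hb hnc hR hk4 hZ' hS
    have hm0 : 0 < mm κ := by omega
    refine ⟨?_, Z', x, y, z, ?_, by omega, h1, h2, h3, h4, h5, h6, h7⟩
    · have h8 : ∀ a, (Si M i (R a)).card = Z'.card := fun a => by rw [← hSS a, hS a]
      rw [Finset.sum_congr rfl (fun a _ => h8 a), Finset.sum_const, Finset.card_univ, Fintype.card_fin,
        smul_eq_mul, ← hZ']
      ring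
    · rw [← hS ⟨0, hm0⟩, Finset.disjoint_left]
      intro v hv
      rw [Sn, Finset.mem_filter, Finset.mem_sdiff] at hv
      exact hv.1.2

end Pool.Agent.H10.HM
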