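import Pool.Agent.H10.HM.RowD
import Pool.Agent.H10.HM.Katona

/-!
# Module SumD: sums over all rows

`sumD`: `katona` with `f R = |Si M i R|` and `B = (κ+1) m - 2 m`, `m = mm κ`: in both alternatives of `rowD` `∑_a + 2 m ≤ (κ+1) m`. (`κ ≥ 1`, so `B = (κ - 1) m`; divide by `m`.)
`sumD_U`: the same for the rows in `uJ M J` (rows in `uJ M J` are rows in `uJ M J ∪ Z`), `katona` with `P = uJ M J`.
`sumD_or`: if no choice of the rows gives the second alternative then `B = (κ+1) m - 2 m - 1` is a bound.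
-/

set_option autoImplicit false

namespace Pool.Agent.H10.HM

open Finset
open Pool.Agent.H73.Cov

variable {V : Type} [DecidableEq V] {κ s : ℕ} {F : Finset (Finset V)}

private lemma mm_pos' (κ : ℕ) : 0 < mm κ := by
  unfold mm
  positivity

private lemma sd_div {m κ S C : ℕ} (hm : 0 < m) (hκ : 1 ≤ κ) (h : m * S ≤ ((κ + 1) * m - 2 * m) * C) :
    S + 2 * C ≤ (κ + 1) * C := by
  obtain ⟨n, rfl⟩ : ∃ n, κ = n + 1 := ⟨κ - 1, by omega⟩
  have h1 : (n + 1 + 1) * m - 2 * m = n * m := by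
    have : (n + 1 + 1) * m = n * m + 2 * m := by ring
    omega
  rw [h1] at h
  have h2 : m * S ≤ m * (n * C) := by
    calc m * S ≤ n * m * C := h
      _ = m * (n * C) := by ring
  have h3 := Nat.le_of_mul_le_mul_left h2 hm
  nlinarith

private lemma sd_card (M : IMatch κ s F) (J : Finset (Fin s)) {Z : Finset V} (hZ : Disjoint Z M.U)
    (hZc : Z.card = κ) : (uJ M J ∪ Z).card = (κ + 1) * J.card + κ := by
  rw [Finset.card_union_of_disjoint, uJ_card, hZc]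
  exact Finset.disjoint_of_subset_left (uJ_sub_U M J) hZ.symm

theorem sumD (hκ : 1 ≤ κ) (hT : Tight κ s F) (M : IMatch κ s F) {J : Finset (Fin s)} {i : Fin s} (hi : i ∉ J)
    {Z : Finset V} (hZ : Disjoint Z M.U) (hZc : Z.card = κ) (hres : M.res J = powersetCard (κ + 1) (uJ M J ∪ Z))
    (hbig : 10 * (κ + 2) + mm κ * κ ≤ J.card) (hn : ¬ Cp M (insert i J)) :
    ∑ R ∈ powersetCard κ (uJ M J ∪ Z), (Si M i R).card + 2 * (uJ M J ∪ Z).card.choose κ ≤
      (κ + 1) * (uJ M J ∪ Z).card.choose κ := by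
  refine sd_div (mm_pos' κ) hκ (katona ?_ (fun R => (Si M i R).card) fun R hR => ?_)
  · rw [sd_card M J hZ hZc]
    nlinarith
  · rcases rowD hκ hT M hi hZ hZc hres (by omega) hn hR with h | ⟨h, -⟩ <;> omega

theorem sumD_U (hκ : 1 ≤ κ) (hT : Tight κ s F) (M : IMatch κ s F) {J : Finset (Fin s)} {i : Fin s} (hi : i ∉ J)
    {Z : Finset V} (hZ : Disjoint Z M.U) (hZc : Z.card = κ) (hres : M.res J = powersetCard (κ + 1) (uJ M J ∪ Z))
    (hbig : 10 * (κ + 2) + mm κ * κ ≤ J.card) (hn : ¬ Cp M (insert i J)) :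
    ∑ R ∈ powersetCard κ (uJ M J), (Si M i R).card + 2 * (uJ M J).card.choose κ ≤
      (κ + 1) * (uJ M J).card.choose κ := by
  refine sd_div (mm_pos' κ) hκ (katona ?_ (fun R => (Si M i R).card) fun R hR => ?_)
  · rw [uJ_card]
    nlinarith
  · have hR' : Rows κ (mm κ) (uJ M J ∪ Z) R :=
      ⟨fun a => (hR.sub a).trans Finset.subset_union_left, hR.card, hR.disj⟩
    rcases rowD hκ hT M hi hZ hZc hres (by omega) hn hR' with h | ⟨h, -⟩ <;> omega

theorem sumD_or (hκ : 1 ≤ κ) (hT : Tight κ s F) (M : IMatch κ s F) {J : Finset (Fin s)} {i : Fin s} (hi : i ∉ J)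
    {Z : Finset V} (hZ : Disjoint Z M.U) (hZc : Z.card = κ) (hres : M.res J = powersetCard (κ + 1) (uJ M J ∪ Z))
    (hbig : 10 * (κ + 2) + mm κ * κ ≤ J.card) (hn : ¬ Cp M (insert i J)) :
    mm κ * ∑ R ∈ powersetCard κ (uJ M J ∪ Z), (Si M i R).card + (2 * mm κ + 1) * (uJ M J ∪ Z).card.choose κ ≤
      (κ + 1) * mm κ * (uJ M J ∪ Z).card.choose κ ∨
    ∃ (Z₁ : Finset V) (x y z : V), Disjoint Z₁ (uJ M J ∪ Z) ∧ Z₁.card + 1 = κ ∧ x ≠ y ∧ y ≠ z ∧ x ≠ z ∧
        x ∉ uJ M J ∪ Z ∪ Z₁ ∧ y ∉ uJ M J ∪ Z ∪ Z₁ ∧ z ∉ uJ M J ∪ Z ∪ Z₁ ∧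
        M.res (insert i J) ⊆ tri κ (uJ M J ∪ Z ∪ Z₁) x y z := by
  by_contra hcon
  push Not at hcon
  obtain ⟨h1, h2⟩ := hcon
  have hP : mm κ * κ ≤ (uJ M J ∪ Z).card := by
    rw [sd_card M J hZ hZc]
    nlinarith
  have hall : ∀ R : Fin (mm κ) → Finset V, Rows κ (mm κ) (uJ M J ∪ Z) R →
      ∑ a, (Si M i (R a)).card + 2 * mm κ + 1 ≤ (κ + 1) * mm κ := by
    intro R hR
    rcases rowD hκ hT M hi hZ hZc hres (by omega) hn hR with h | ⟨-, Z₁, x, y, z, a1, a2, a3, a4, a5, a6, a7, a8, a9⟩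
    · exact h
    · exact absurd a9 (h2 Z₁ x y z a1 a2 a3 a4 a5 a6 a7 a8)
  have hm := mm_pos' κ
  rcases le_or_gt (2 * mm κ + 1) ((κ + 1) * mm κ) with h3 | h3
  · have h4 := katona hP (fun R => (Si M i R).card) (B := (κ + 1) * mm κ - (2 * mm κ + 1))
      fun R hR => by
        have := hall R hR
        omega
    obtain ⟨B, hB⟩ : ∃ B, (κ + 1) * mm κ = B + (2 * mm κ + 1) := ⟨(κ + 1) * mm κ - (2 * mm κ + 1), by omega⟩
    rw [hB] at h1 h4
    rw [Nat.add_sub_cancel] at h4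
    rw [Nat.add_mul] at h1
    omega
  · have h4 := katona hP (fun _ => 1) (B := 0) fun R hR => by
      have := hall R hR
      omega
    rw [Finset.sum_const, Finset.card_powersetCard, smul_eq_mul, mul_one, Nat.zero_mul, Nat.le_zero] at h4
    have h5 : 0 < (uJ M J ∪ Z).card.choose κ := by
      apply Nat.choose_pos
      rw [sd_card M J hZ hZc]
      omega
    have h6 := Nat.mul_pos hm h5
    omega

end Pool.Agent.H10.HM
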